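import Mathlib
import Pool.Agent.Helper296.Bourin

set_option autoImplicit false
open scoped ComplexOrder

namespace Pool.Agent.Results.MP_4777ae_an.AllNorms

/-- The power `A ^ r` of a positive semidefinite matrix `A` defined by the spectral theorem: the
eigenvalues are raised to the power `r` in an orthonormal eigenbasis of `A`. -/
noncomputable def specPow {n : ℕ} {A : Matrix (Fin n) (Fin n) ℂ} (hA : A.PosSemidef) (r : ℝ) :
    Matrix (Fin n) (Fin n) ℂ :=
  (hA.isHermitian.eigenvectorUnitary : Matrix (Fin n) (Fin n) ℂ)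
    * Matrix.diagonal (fun i => Complex.ofReal (hA.isHermitian.eigenvalues i ^ r))
    * star (hA.isHermitian.eigenvectorUnitary : Matrix (Fin n) (Fin n) ℂ)

/-- `N` is a unitarily invariant seminorm on the complex `n × n` matrices (every unitarily invariant
norm is one; definiteness is not needed). -/
structure IsUISeminorm {n : ℕ} (N : Matrix (Fin n) (Fin n) ℂ → ℝ) : Prop where
  smul : ∀ (c : ℂ) (X : Matrix (Fin n) (Fin n) ℂ), N (c • X) = ‖c‖ * N X
  add : ∀ X Y, N (X + Y) ≤ N X + N Y
  unit : ∀ U ∈ Matrix.unitaryGroup (Fin n) ℂ, ∀ V ∈ Matrix.unitaryGroup (Fin n) ℂ,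
    ∀ X, N (U * X * V) = N X

/-- Bourin's inequality for all unitarily invariant (semi)norms and all exponents, together with the
underlying Ky Fan inequality: every sum `Re Tr (G* X G')` over `k`-frames `G, G'` of
`X = A^p B^q + B^p A^q` is bounded by every upper bound `c` of the sums `Re Tr (W* Y W)` over
`k`-frames `W`, `Y = A^(p+q) + B^(p+q)`. -/
theorem result :
    (∀ (n : ℕ) (A B : Matrix (Fin n) (Fin n) ℂ) (hA : A.PosSemidef) (hB : B.PosSemidef)
      (p q : ℝ), 0 < p → 0 < q →
      ∀ N : Matrix (Fin n) (Fin n) ℂ → ℝ, IsUISeminorm N →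
      N (specPow hA p * specPow hB q + specPow hB p * specPow hA q)
        ≤ N (specPow hA (p + q) + specPow hB (p + q))) ∧
    (∀ (n k : ℕ) (A B : Matrix (Fin n) (Fin n) ℂ) (hA : A.PosSemidef) (hB : B.PosSemidef)
      (p q : ℝ), 0 < p → 0 < q → ∀ G G' : Matrix (Fin n) (Fin k) ℂ,
      G.conjTranspose * G = 1 → G'.conjTranspose * G' = 1 → ∀ c : ℝ,
      (∀ W : Matrix (Fin n) (Fin k) ℂ, W.conjTranspose * W = 1 →
        (W.conjTranspose * (specPow hA (p + q) + specPow hB (p + q)) * W).trace.re ≤ c) →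
      (G.conjTranspose * (specPow hA p * specPow hB q + specPow hB p * specPow hA q) * G').trace.re
        ≤ c) := by
  refine ⟨?_, ?_⟩
  · intro n A B hA hB p q hp hq N hN
    exact Pool.Agent.Helper296.Bourin.main n A B hA hB p q hp hq N hN.smul hN.add hN.unit
  · open scoped MatrixOrder Matrix.Norms.L2Operator in
    intro n k A B hA hB p q hp hq G G' hG hG' c hc
    unfold specPow at hc ⊢
    rw [Pool.Agent.Helper296.Bourin.spec_rpow_eq A hA p, Pool.Agent.Helper296.Bourin.spec_rpow_eq B hB q,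
      Pool.Agent.Helper296.Bourin.spec_rpow_eq B hB p, Pool.Agent.Helper296.Bourin.spec_rpow_eq A hA q]
    rw [Pool.Agent.Helper296.Bourin.spec_rpow_eq A hA (p + q),
      Pool.Agent.Helper296.Bourin.spec_rpow_eq B hB (p + q)] at hc
    have hA0 : 0 ≤ A := Matrix.nonneg_iff_posSemidef.mpr hA
    have hB0 : 0 ≤ B := Matrix.nonneg_iff_posSemidef.mpr hB
    have hs : 0 < p + q := by linarith
    have h0 : 0 ≤ p / (p + q) := by positivity
    have h1 : 0 ≤ 1 - p / (p + q) := by
      rw [sub_nonneg, div_le_one hs]; linarith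
    have e1 : (p + q) * (p / (p + q)) = p := by field_simp
    have e2 : (p + q) * (1 - p / (p + q)) = q := by field_simp; ring
    have ea1 : A ^ p = (A ^ (p + q)) ^ (p / (p + q)) := by
      rw [CFC.rpow_rpow_of_exponent_nonneg A _ _ hs.le h0 hA0, e1]
    have ea2 : A ^ q = (A ^ (p + q)) ^ (1 - p / (p + q)) := by
      rw [CFC.rpow_rpow_of_exponent_nonneg A _ _ hs.le h1 hA0, e2]
    have eb1 : B ^ p = (B ^ (p + q)) ^ (p / (p + q)) := by
      rw [CFC.rpow_rpow_of_exponent_nonneg B _ _ hs.le h0 hB0, e1]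
    have eb2 : B ^ q = (B ^ (p + q)) ^ (1 - p / (p + q)) := by
      rw [CFC.rpow_rpow_of_exponent_nonneg B _ _ hs.le h1 hB0, e2]
    rw [ea1, ea2, eb1, eb2]
    exact Pool.Agent.Helper296.Bourin.kyfan_all _ _ CFC.rpow_nonneg CFC.rpow_nonneg _ c (by positivity)
      (by rw [div_lt_one hs]; linarith) G G' hG hG' hc

end Pool.Agent.Results.MP_4777ae_an.AllNorms
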