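import Mathlib

set_option autoImplicit false
open scoped ComplexOrder NNReal
open MeasureTheory Set

namespace Pool.Agent.Results.MP_4777ae_an.OperatorNorm

section CStar

variable {𝔄 : Type*} [CStarAlgebra 𝔄] [PartialOrder 𝔄] [StarOrderedRing 𝔄]

omit [PartialOrder 𝔄] [StarOrderedRing 𝔄] in
theorem ri_T (a C b p : 𝔄) (x : ℝ) (hb : b = 1 - a - C) (hpa : p * a = 1 - x • p)
    (hap : a * p = 1 - x • p) :
    (1 - x • p) * b * (1 - x • p) = (1 + 2 * x) • (1 : 𝔄) - a - (2 * x + 3 * x ^ 2) • p +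
      (x ^ 2 + x ^ 3) • (p * p) - C + x • (p * C) + x • (C * p) - (x ^ 2) • (p * (C * p)) := by
  subst hb
  simp only [mul_add, add_mul, mul_sub, sub_mul, smul_mul_assoc, mul_smul_comm, mul_one, one_mul,
    mul_assoc, hpa, hap, smul_sub, smul_add, smul_smul]
  module

omit [PartialOrder 𝔄] [StarOrderedRing 𝔄] in
theorem ri_E (a p : 𝔄) (x c : ℝ) (hpa : p * a = 1 - x • p)
    (hap : a * p = 1 - x • p) :
    (c • p - 1) * a * (c • p - 1) = (c ^ 2 + 2 * c * x) • p - (c ^ 2 * x) • (p * p) -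
      (2 * c) • (1 : 𝔄) + a := by
  simp only [mul_add, add_mul, mul_sub, sub_mul, smul_mul_assoc, mul_smul_comm, mul_one, one_mul,
    mul_assoc, hpa, hap, smul_sub, smul_add, smul_smul]
  module

omit [PartialOrder 𝔄] [StarOrderedRing 𝔄] in
theorem ri_C (a b C p q : 𝔄) (x : ℝ) (hb : b = 1 - a - C) 
    (h1 : p * (x • (1 : 𝔄) + a) = 1)
    (h4 : (x • (1 : 𝔄) + b) * q = 1) : p * (C * q) = (1 + 2 * x) • (p * q) - p - q := by
  have e1 : p * (x • (1 : 𝔄) + a) * q + p * ((x • (1 : 𝔄) + b) * q) = q + p := by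
    rw [h1, h4, one_mul, mul_one]
  have e2 : p * (x • (1 : 𝔄) + a) * q + p * ((x • (1 : 𝔄) + b) * q) =
      (1 + 2 * x) • (p * q) - p * (C * q) := by
    subst hb
    simp only [mul_add, add_mul, mul_sub, sub_mul, smul_mul_assoc, mul_smul_comm, mul_one, one_mul,
      mul_assoc]
    module
  rw [e1] at e2
  have e3 : p * (C * q) = (1 + 2 * x) • (p * q) - (q + p) := by
    rw [e2]; abel
  rw [e3]; abel

omit [PartialOrder 𝔄] [StarOrderedRing 𝔄] in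
theorem ri_SS (C p q : 𝔄) (x k : ℝ) :
    (x • (p + q) - k • (1 : 𝔄)) * C * (x • (p + q) - k • (1 : 𝔄)) =
      (x ^ 2) • (p * (C * p)) + (x ^ 2) • (q * (C * q)) + (x ^ 2) • (p * (C * q)) +
      (x ^ 2) • (q * (C * p)) - (k * x) • (p * C) - (k * x) • (q * C) - (k * x) • (C * p)
      - (k * x) • (C * q) + (k ^ 2) • C := by
  simp only [mul_add, add_mul, mul_sub, sub_mul, smul_mul_assoc, mul_smul_comm, mul_one, one_mul,
    mul_assoc, smul_sub, smul_add, smul_smul]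
  module

omit [PartialOrder 𝔄] [StarOrderedRing 𝔄] in
theorem ri_pq (C p q : 𝔄) :
    (p - q) * C * (p - q) =
      p * (C * p) + q * (C * q) - p * (C * q) - q * (C * p) := by
  noncomm_ring

omit [PartialOrder 𝔄] [StarOrderedRing 𝔄] in
theorem ri_identity (a b C p q : 𝔄) (x : ℝ) (hx : 0 < x) (hb : b = 1 - a - C)
    (h1 : p * (x • (1 : 𝔄) + a) = 1) (h2 : (x • (1 : 𝔄) + a) * p = 1)
    (h3 : q * (x • (1 : 𝔄) + b) = 1) (h4 : (x • (1 : 𝔄) + b) * q = 1) :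
    (((1 + 2 * x)⁻¹) ^ 2) • (1 : 𝔄) - ((1 - x • p) * b * (1 - x • p) +
      (1 - x • q) * a * (1 - x • q)) =
    ((1 - 1 / ((2 * x + 1) * (4 * x + 1))) / 2 * x ^ 2) • ((p - q) * C * (p - q)) +
    ((1 + 1 / ((2 * x + 1) * (4 * x + 1))) / 2) •
      ((x • (p + q) - ((2 * x + 1) * (4 * x + 1) / (4 * x ^ 2 + 3 * x + 1)) • (1 : 𝔄)) * C *
       (x • (p + q) - ((2 * x + 1) * (4 * x + 1) / (4 * x ^ 2 + 3 * x + 1)) • (1 : 𝔄))) +
    (1 + 4 * x * (4 * x ^ 2 + 5 * x + 2) / ((2 * x + 1) ^ 2 * (4 * x + 1)) -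
      (2 * x + 1) * (4 * x + 1) / (4 * x ^ 2 + 3 * x + 1)) • C +
    (1 / ((2 * x + 1) * (4 * x + 1)) * x ^ 2 * (1 + 2 * x)) • ((p - q) * (p - q)) +
    (4 * x * (4 * x ^ 2 + 5 * x + 2) / ((2 * x + 1) ^ 2 * (4 * x + 1))) •
      (((x + 1 / 2) • p - 1) * a * ((x + 1 / 2) • p - 1)) +
    (4 * x * (4 * x ^ 2 + 5 * x + 2) / ((2 * x + 1) ^ 2 * (4 * x + 1))) •
      (((x + 1 / 2) • q - 1) * b * ((x + 1 / 2) • q - 1)) := by
  have hpa : p * a = 1 - x • p := by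
    rw [mul_add, mul_smul_comm, mul_one] at h1
    rw [← h1]; abel
  have hap : a * p = 1 - x • p := by
    rw [add_mul, smul_mul_assoc, one_mul] at h2
    rw [← h2]; abel
  have hqb : q * b = 1 - x • q := by
    rw [mul_add, mul_smul_comm, mul_one] at h3
    rw [← h3]; abel
  have hbq : b * q = 1 - x • q := by
    rw [add_mul, smul_mul_assoc, one_mul] at h4
    rw [← h4]; abel
  have ha : a = 1 - b - C := by rw [hb]; abel
  have e1 := ri_T a C b p x hb hpa hap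
  have e2 := ri_T b C a q x ha hqb hbq
  have e3 := ri_E a p x (x + 1 / 2) hpa hap
  have e4 := ri_E b q x (x + 1 / 2) hqb hbq
  have e5 := ri_C a b C p q x hb h1 h4
  have e6 := ri_C b a C q p x ha h3 h2
  rw [e1, e2, e3, e4, ri_SS, ri_pq, e5, e6]
  have e7 : (p - q) * (p - q) = p * p + q * q - p * q - q * p := by noncomm_ring
  rw [e7, hb]
  have g1 : 2 * x + 1 ≠ 0 := by positivity
  have g2 : 4 * x + 1 ≠ 0 := by positivity
  have g3 : 4 * x ^ 2 + 3 * x + 1 ≠ 0 := by positivity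
  have g4 : 1 + 2 * x ≠ 0 := by positivity
  match_scalars <;> (field_simp; ring)

theorem ri_smul_nonneg (t : ℝ) (w : 𝔄) (ht : 0 ≤ t) (hw : 0 ≤ w) : 0 ≤ t • w := by
  exact smul_nonneg ht hw



/-- L1: the resolvent inequality. -/
theorem resolvent_ineq (a b p q : 𝔄) (x : ℝ) (hx : 0 < x) (ha : 0 ≤ a) (hb : 0 ≤ b)
    (hab : a + b ≤ 1) (hp : IsSelfAdjoint p) (hq : IsSelfAdjoint q)
    (h1 : p * (x • (1 : 𝔄) + a) = 1) (h2 : (x • (1 : 𝔄) + a) * p = 1)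
    (h3 : q * (x • (1 : 𝔄) + b) = 1) (h4 : (x • (1 : 𝔄) + b) * q = 1) :
    (1 - x • p) * b * (1 - x • p) + (1 - x • q) * a * (1 - x • q)
      ≤ (((1 + 2 * x)⁻¹) ^ 2) • (1 : 𝔄) := by
  rw [← sub_nonneg, ri_identity a b (1 - a - b) p q x hx (by abel) h1 h2 h3 h4]
  have hC : 0 ≤ 1 - a - b := by
    rw [sub_sub]; exact sub_nonneg.2 hab
  have hpq : IsSelfAdjoint (p - q) := hp.sub hq
  have hone : IsSelfAdjoint (1 : 𝔄) := .one _
  have hsm : ∀ (t : ℝ) (w : 𝔄), IsSelfAdjoint w → IsSelfAdjoint (t • w) := fun t w hw =>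
    (IsSelfAdjoint.all t).smul hw
  have k1 : 0 < (2 * x + 1) * (4 * x + 1) := by positivity
  have k2 : 1 / ((2 * x + 1) * (4 * x + 1)) ≤ 1 := by
    rw [div_le_one k1]; nlinarith
  have k3 : 0 ≤ 1 + 4 * x * (4 * x ^ 2 + 5 * x + 2) / ((2 * x + 1) ^ 2 * (4 * x + 1)) -
      (2 * x + 1) * (4 * x + 1) / (4 * x ^ 2 + 3 * x + 1) := by
    have e : 1 + 4 * x * (4 * x ^ 2 + 5 * x + 2) / ((2 * x + 1) ^ 2 * (4 * x + 1)) -
      (2 * x + 1) * (4 * x + 1) / (4 * x ^ 2 + 3 * x + 1) =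
      (((2 * x + 1) ^ 2 * (4 * x + 1) + 4 * x * (4 * x ^ 2 + 5 * x + 2)) * (4 * x ^ 2 + 3 * x + 1) -
        (2 * x + 1) ^ 3 * (4 * x + 1) ^ 2) /
        ((2 * x + 1) ^ 2 * (4 * x + 1) * (4 * x ^ 2 + 3 * x + 1)) := by
      field_simp
    rw [e]
    apply div_nonneg _ (by positivity)
    ring_nf
    positivity
  have n1 : 0 ≤ (p - q) * (1 - a - b) * (p - q) := hpq.conjugate_nonneg hC
  have n2 : 0 ≤ (x • (p + q) - ((2 * x + 1) * (4 * x + 1) / (4 * x ^ 2 + 3 * x + 1)) • (1 : 𝔄)) *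
      (1 - a - b) *
      (x • (p + q) - ((2 * x + 1) * (4 * x + 1) / (4 * x ^ 2 + 3 * x + 1)) • (1 : 𝔄)) :=
    ((hsm _ _ (hp.add hq)).sub (hsm _ _ hone)).conjugate_nonneg hC
  have n3 : 0 ≤ (p - q) * (p - q) := hpq.mul_self_nonneg
  have n4 : 0 ≤ ((x + 1 / 2) • p - 1) * a * ((x + 1 / 2) • p - 1) :=
    ((hsm _ _ hp).sub hone).conjugate_nonneg ha
  have n5 : 0 ≤ ((x + 1 / 2) • q - 1) * b * ((x + 1 / 2) • q - 1) :=
    ((hsm _ _ hq).sub hone).conjugate_nonneg hb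
  have m1 := ri_smul_nonneg ((1 - 1 / ((2 * x + 1) * (4 * x + 1))) / 2 * x ^ 2) _
    (by have := sub_nonneg.2 k2; positivity) n1
  have m2 := ri_smul_nonneg ((1 + 1 / ((2 * x + 1) * (4 * x + 1))) / 2) _ (by positivity) n2
  have m3 := ri_smul_nonneg _ _ k3 hC
  have m4 := ri_smul_nonneg (1 / ((2 * x + 1) * (4 * x + 1)) * x ^ 2 * (1 + 2 * x)) _
    (by positivity) n3
  have m5 := ri_smul_nonneg (4 * x * (4 * x ^ 2 + 5 * x + 2) / ((2 * x + 1) ^ 2 * (4 * x + 1))) _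
    (by positivity) n4
  have m6 := ri_smul_nonneg (4 * x * (4 * x ^ 2 + 5 * x + 2) / ((2 * x + 1) ^ 2 * (4 * x + 1))) _
    (by positivity) n5
  exact add_nonneg (add_nonneg (add_nonneg (add_nonneg (add_nonneg m1 m2) m3) m4) m5) m6

theorem rep_10365 (μ : Measure ℝ) (t : ℝ) (ht : t ∈ Ioo (0 : ℝ) 1)
    (hμ : ∀ x ∈ Ici (0 : ℝ), (IntegrableOn (fun s => Real.rpowIntegrand₀₁ t s x) (Ioi 0) μ)
      ∧ x ^ t = ∫ s in Ioi 0, Real.rpowIntegrand₀₁ t s x ∂μ) (a : 𝔄) (ha : 0 ≤ a) :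
    IntegrableOn (fun s => cfc (Real.rpowIntegrand₀₁ t s) a) (Ioi 0) μ ∧
      a ^ t = ∫ s in Ioi 0, cfc (Real.rpowIntegrand₀₁ t s) a ∂μ := by
  have hspec : ∀ z ∈ spectrum ℝ a, 0 ≤ z := fun z hz => spectrum_nonneg_of_nonneg ha hz
  let f := Real.rpowIntegrand₀₁ t
  let maxr := sSup (spectrum ℝ a)
  have hbdd : BddAbove (spectrum ℝ a) := (spectrum.isCompact (𝕜 := ℝ) a).bddAbove
  have maxr_nonneg : 0 ≤ maxr := Real.sSup_nonneg hspec
  let bound (s : ℝ) := ‖f s maxr‖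
  have hf : ContinuousOn (Function.uncurry f) (Ioi (0 : ℝ) ×ˢ spectrum ℝ a) :=
    Real.continuousOn_rpowIntegrand₀₁_uncurry ht (spectrum ℝ a) (fun z hz => hspec z hz)
  have hbound : ∀ᵐ s ∂μ.restrict (Ioi 0), ∀ z ∈ spectrum ℝ a, ‖f s z‖ ≤ bound s := by
    filter_upwards [ae_restrict_mem measurableSet_Ioi] with s hs
    intro z hz
    have hz' : 0 ≤ z := hspec z hz
    unfold bound f
    rw [Real.norm_of_nonneg (Real.rpowIntegrand₀₁_nonneg ht.1 (le_of_lt hs) hz'),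
        Real.norm_of_nonneg (Real.rpowIntegrand₀₁_nonneg ht.1 (le_of_lt hs) maxr_nonneg)]
    exact Real.rpowIntegrand₀₁_monotoneOn ht (le_of_lt hs) hz' maxr_nonneg (le_csSup hbdd hz)
  have hbound_finite_integral : HasFiniteIntegral bound (μ.restrict (Ioi 0)) := by
    rw [hasFiniteIntegral_norm_iff]
    exact (hμ maxr maxr_nonneg).1.2
  refine ⟨?_, ?_⟩
  · exact integrableOn_cfc measurableSet_Ioi _ bound a hf hbound hbound_finite_integral
      ha.isSelfAdjoint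
  · calc a ^ t = cfc (fun r => ∫ s in Ioi 0, Real.rpowIntegrand₀₁ t s r ∂μ) a := by
          rw [CFC.rpow_eq_cfc_real ha]
          exact cfc_congr fun r hr => (hμ r (hspec r hr)).2
      _ = _ := cfc_setIntegral measurableSet_Ioi _ bound a hf hbound
                hbound_finite_integral ha.isSelfAdjoint

theorem res_10365 (a : 𝔄) (ha : 0 ≤ a) (t : ℝ) (ht : t ∈ Ioo (0 : ℝ) 1) (s : ℝ) (hs : 0 < s) :
    ∃ p : 𝔄, IsSelfAdjoint p ∧ p * (s • (1 : 𝔄) + a) = 1 ∧ (s • (1 : 𝔄) + a) * p = 1 ∧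
      cfc (Real.rpowIntegrand₀₁ t s) a = (s ^ (t - 1)) • (1 - s • p) := by
  have hspec : ∀ z ∈ spectrum ℝ a, 0 ≤ z := fun z hz => spectrum_nonneg_of_nonneg ha hz
  have hsa := ha.isSelfAdjoint
  have hne : ∀ z ∈ spectrum ℝ a, s + z ≠ 0 := fun z hz => by
    have := hspec z hz
    positivity
  have hc1 : ContinuousOn (fun z : ℝ => (s + z)⁻¹) (spectrum ℝ a) :=
    ContinuousOn.inv₀ (by fun_prop) hne
  have hc2 : ContinuousOn (fun z : ℝ => s + z) (spectrum ℝ a) := by fun_prop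
  have he : s • (1 : 𝔄) + a = cfc (fun z : ℝ => s + z) a := by
    rw [cfc_const_add s (fun z => z) a, cfc_id' ℝ a, Algebra.algebraMap_eq_smul_one]
  refine ⟨cfc (fun z : ℝ => (s + z)⁻¹) a, IsSelfAdjoint.cfc, ?_, ?_, ?_⟩
  · rw [he, ← cfc_mul _ _ a hc1 hc2]
    rw [← cfc_one ℝ a]
    apply cfc_congr
    intro z hz
    exact inv_mul_cancel₀ (hne z hz)
  · rw [he, ← cfc_mul _ _ a hc2 hc1]
    rw [← cfc_one ℝ a]
    apply cfc_congr
    intro z hz
    exact mul_inv_cancel₀ (hne z hz)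
  · have h1 : Real.rpowIntegrand₀₁ t s = fun z => s ^ (t - 1) * (1 - s * (s + z)⁻¹) := by
      rw [Real.rpowIntegrand₀₁_eq_sub (by have := ht.2; exact ne_of_lt this) hs]
      funext z
      have : s ^ t = s ^ (t - 1) * s := by
        rw [← Real.rpow_add_one hs.ne']
        congr 1
        ring
      rw [this]
      ring
    have hc3 : ContinuousOn (fun z : ℝ => s * (s + z)⁻¹) (spectrum ℝ a) :=
      continuousOn_const.mul hc1
    rw [h1, cfc_const_mul (s ^ (t - 1)) (fun z : ℝ => 1 - s * (s + z)⁻¹) a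
        (continuousOn_const.sub hc3),
      cfc_sub (fun _ => (1 : ℝ)) (fun z : ℝ => s * (s + z)⁻¹) a continuousOn_const hc3,
      cfc_const_mul s (fun z : ℝ => (s + z)⁻¹) a hc1, cfc_const_one ℝ a]

/-- L2: integrating the resolvent inequality. -/
theorem rpow_conj_le (a b : 𝔄) (ha : 0 ≤ a) (hb : 0 ≤ b) (hab : a + b ≤ 1)
    (t : ℝ) (ht0 : 0 < t) (ht1 : t < 1) :
    a ^ t * b * a ^ t + b ^ t * a * b ^ t ≤ (((1 / 2 : ℝ) ^ t) ^ 2) • (1 : 𝔄) := by
  have ht : t ∈ Ioo (0 : ℝ) 1 := ⟨ht0, ht1⟩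
  obtain ⟨μ, hμ⟩ := Real.exists_measure_rpow_eq_integral_rpowIntegrand₀₁ ht
  obtain ⟨hFi, hX⟩ := rep_10365 μ t ht hμ a ha
  obtain ⟨hGi, hY⟩ := rep_10365 μ t ht hμ b hb
  obtain ⟨hri, hR⟩ := hμ (1 / 2) (by norm_num : (1 / 2 : ℝ) ∈ Ici (0 : ℝ))
  set X := a ^ t with hXdef
  set Y := b ^ t with hYdef
  set R : ℝ := (1 / 2 : ℝ) ^ t with hRdef
  have hRpos : 0 < R := Real.rpow_pos_of_pos (by norm_num) _
  set F : ℝ → 𝔄 := fun s => cfc (Real.rpowIntegrand₀₁ t s) a with hFdef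
  set G : ℝ → 𝔄 := fun s => cfc (Real.rpowIntegrand₀₁ t s) b with hGdef
  set ρ : ℝ → ℝ := fun s => Real.rpowIntegrand₀₁ t s (1 / 2) with hρdef
  set Z : 𝔄 := X * b * X + Y * a * Y with hZdef
  have hXsa : IsSelfAdjoint X := by
    rw [hXdef, CFC.rpow_eq_cfc_real ha]
    exact IsSelfAdjoint.cfc
  have hYsa : IsSelfAdjoint Y := by
    rw [hYdef, CFC.rpow_eq_cfc_real hb]
    exact IsSelfAdjoint.cfc
  have key : ∀ s ∈ Ioi (0 : ℝ), 0 ≤ (R ^ 2 * ρ s) • (1 : 𝔄) + ρ s • Z -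
      R • (F s * (b * X) + (X * b) * F s + (G s * (a * Y) + (Y * a) * G s)) := by
    intro s hs
    have hs0 : 0 < s := hs
    obtain ⟨p, hp, p1, p2, p3⟩ := res_10365 a ha t ht s hs0
    obtain ⟨q, hq, q1, q2, q3⟩ := res_10365 b hb t ht s hs0
    have hres := resolvent_ineq a b p q s hs0 ha hb hab hp hq p1 p2 q1 q2
    set c : ℝ := s ^ (t - 1) with hcdef
    have hc : 0 < c := Real.rpow_pos_of_pos hs0 _
    have hρ : ρ s = c * (1 + 2 * s)⁻¹ := by
      rw [hρdef]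
      simp only
      rw [Real.rpowIntegrand₀₁_eq_pow_div ht hs0.le (by norm_num)]
      rw [← hcdef]
      field_simp
      ring
    have hρpos : 0 < ρ s := by
      rw [hρ]
      positivity
    have hFsa : IsSelfAdjoint (F s) := IsSelfAdjoint.cfc
    have hGsa : IsSelfAdjoint (G s) := IsSelfAdjoint.cfc
    have h1 : F s * b * F s + G s * a * G s ≤ (ρ s ^ 2) • (1 : 𝔄) := by
      have h2 := smul_le_smul_of_nonneg_left hres (by positivity : (0 : ℝ) ≤ c ^ 2)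
      have h3 : F s * b * F s + G s * a * G s =
          c ^ 2 • ((1 - s • p) * b * (1 - s • p) + (1 - s • q) * a * (1 - s • q)) := by
        have e1 : F s = c • (1 - s • p) := p3
        have e2 : G s = c • (1 - s • q) := q3
        rw [e1, e2]
        simp only [smul_mul_assoc, mul_smul_comm, smul_smul, smul_add]
        rw [pow_two]
      rw [h3]
      refine h2.trans (le_of_eq ?_)
      rw [smul_smul, hρ]
      congr 1
      ring
    have h4 : 0 ≤ (R • F s - ρ s • X) * b * (R • F s - ρ s • X) +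
        (R • G s - ρ s • Y) * a * (R • G s - ρ s • Y) := by
      apply add_nonneg
      · exact IsSelfAdjoint.conjugate_nonneg hb
          (((IsSelfAdjoint.all R).smul hFsa).sub ((IsSelfAdjoint.all (ρ s)).smul hXsa))
      · exact IsSelfAdjoint.conjugate_nonneg ha
          (((IsSelfAdjoint.all R).smul hGsa).sub ((IsSelfAdjoint.all (ρ s)).smul hYsa))
    have h5 : (R • F s - ρ s • X) * b * (R • F s - ρ s • X) +
        (R • G s - ρ s • Y) * a * (R • G s - ρ s • Y) =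
        R ^ 2 • (F s * b * F s + G s * a * G s) + ρ s ^ 2 • Z -
        (ρ s * R) • (F s * (b * X) + (X * b) * F s + (G s * (a * Y) + (Y * a) * G s)) := by
      rw [hZdef]
      simp only [sub_mul, mul_sub, smul_mul_assoc, mul_smul_comm, mul_assoc]
      module
    rw [h5] at h4
    have h6 : 0 ≤ R ^ 2 • ((ρ s ^ 2) • (1 : 𝔄)) + ρ s ^ 2 • Z -
        (ρ s * R) • (F s * (b * X) + (X * b) * F s + (G s * (a * Y) + (Y * a) * G s)) := by
      refine h4.trans ?_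
      apply sub_le_sub_right
      apply add_le_add_left
      exact smul_le_smul_of_nonneg_left h1 (by positivity)
    have h7 := smul_nonneg (inv_nonneg.2 hρpos.le) h6
    refine h7.trans (le_of_eq ?_)
    have e3 : (ρ s)⁻¹ * ρ s = 1 := inv_mul_cancel₀ hρpos.ne'
    have e4 : (ρ s)⁻¹ * R ^ 2 * ρ s ^ 2 = R ^ 2 * ρ s := by
      field_simp
    have e5 : (ρ s)⁻¹ * ρ s ^ 2 = ρ s := by
      field_simp
    have e6 : (ρ s)⁻¹ * (ρ s * R) = R := by
      field_simp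
    rw [smul_sub, smul_add, smul_smul, smul_smul, smul_smul, smul_smul, e4, e5, e6]
  have hint := integral_nonneg_of_ae (ae_restrict_of_forall_mem (μ := μ) measurableSet_Ioi key)
  have i1 : Integrable (fun s => (R ^ 2 * ρ s) • (1 : 𝔄)) (μ.restrict (Ioi 0)) :=
    (hri.const_mul (R ^ 2)).smul_const 1
  have i2 : Integrable (fun s => ρ s • Z) (μ.restrict (Ioi 0)) := hri.smul_const Z
  have i3 : Integrable (fun s => F s * (b * X)) (μ.restrict (Ioi 0)) := hFi.mul_const _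
  have i4 : Integrable (fun s => (X * b) * F s) (μ.restrict (Ioi 0)) := hFi.const_mul _
  have i5 : Integrable (fun s => G s * (a * Y)) (μ.restrict (Ioi 0)) := hGi.mul_const _
  have i6 : Integrable (fun s => (Y * a) * G s) (μ.restrict (Ioi 0)) := hGi.const_mul _
  have i12 : Integrable (fun s => (R ^ 2 * ρ s) • (1 : 𝔄) + ρ s • Z) (μ.restrict (Ioi 0)) :=
    i1.add i2
  have i34 : Integrable (fun s => F s * (b * X) + (X * b) * F s) (μ.restrict (Ioi 0)) := i3.add i4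
  have i56 : Integrable (fun s => G s * (a * Y) + (Y * a) * G s) (μ.restrict (Ioi 0)) := i5.add i6
  have i36 : Integrable (fun s => F s * (b * X) + (X * b) * F s + (G s * (a * Y) + (Y * a) * G s))
    (μ.restrict (Ioi 0)) := i34.add i56
  have i7 : Integrable (fun s => R • (F s * (b * X) + (X * b) * F s +
    (G s * (a * Y) + (Y * a) * G s))) (μ.restrict (Ioi 0)) := i36.smul R
  rw [integral_sub i12 i7, integral_add i1 i2,
    integral_smul, integral_add i34 i56, integral_add i3 i4, integral_add i5 i6,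
    integral_smul_const, integral_smul_const, integral_const_mul,
    integral_mul_const_of_integrable hFi, integral_const_mul_of_integrable hFi,
    integral_mul_const_of_integrable hGi, integral_const_mul_of_integrable hGi,
    ← hX, ← hY, ← hR] at hint
  have h8 : (R ^ 2 * R) • (1 : 𝔄) + R • Z -
      R • (X * (b * X) + X * b * X + (Y * (a * Y) + Y * a * Y)) = (R ^ 2 * R) • (1 : 𝔄) - R • Z := by
    rw [hZdef]
    simp only [mul_assoc]
    module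
  rw [h8] at hint
  have h9 := smul_nonneg (inv_nonneg.2 hRpos.le) hint
  have h10 : R⁻¹ • ((R ^ 2 * R) • (1 : 𝔄) - R • Z) = R ^ 2 • (1 : 𝔄) - Z := by
    rw [smul_sub, smul_smul, smul_smul, inv_mul_cancel₀ hRpos.ne', one_smul]
    congr 2
    field_simp
  rw [h10] at h9
  exact sub_nonneg.1 h9

theorem j10367_smul (c : ℝ≥0) (a : 𝔄) (ha : 0 ≤ a) (t : ℝ) (ht : 0 < t) :
    (c • a) ^ t = (c ^ t) • (a ^ t) := by
  have hcont : ∀ s : Set ℝ≥0, ContinuousOn (fun x : ℝ≥0 => x ^ t) s := fun s =>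
    (NNReal.continuous_rpow_const ht.le).continuousOn
  rw [CFC.rpow_def, CFC.rpow_def, ← cfc_comp_smul c (fun x : ℝ≥0 => x ^ t) a (hcont _) ha,
    ← cfc_smul (c ^ t) (fun x : ℝ≥0 => x ^ t) a (hcont _)]
  congr 1
  funext x
  simp only [smul_eq_mul]
  exact NNReal.mul_rpow

/-- L2s: scaled version. -/
theorem rpow_conj_le' (a b : 𝔄) (ha : 0 ≤ a) (hb : 0 ≤ b) (σ : ℝ) (hσ : 0 < σ)
    (hab : a + b ≤ σ • (1 : 𝔄))
    (t : ℝ) (ht0 : 0 < t) (ht1 : t < 1) :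
    a ^ t * b * a ^ t + b ^ t * a * b ^ t
      ≤ (σ * (((1 / 2 : ℝ) * σ) ^ t) ^ 2) • (1 : 𝔄) := by
  set c : ℝ≥0 := ⟨σ⁻¹, by positivity⟩ with hc
  have hcs : ∀ x : 𝔄, c • x = σ⁻¹ • x := fun x => rfl
  have hct : ∀ x : 𝔄, (c ^ t) • x = (σ⁻¹ ^ t : ℝ) • x := fun x => by
    rw [NNReal.smul_def, NNReal.coe_rpow]
    rfl
  have ha' : 0 ≤ c • a := by rw [hcs]; exact smul_nonneg (by positivity) ha
  have hb' : 0 ≤ c • b := by rw [hcs]; exact smul_nonneg (by positivity) hb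
  have hab' : c • a + c • b ≤ 1 := by
    rw [← smul_add, hcs]
    have h1 := smul_le_smul_of_nonneg_left hab (by positivity : (0:ℝ) ≤ σ⁻¹)
    rwa [smul_smul, inv_mul_cancel₀ hσ.ne', one_smul] at h1
  have key := rpow_conj_le (c • a) (c • b) ha' hb' hab' t ht0 ht1
  rw [j10367_smul c a ha t ht0, j10367_smul c b hb t ht0] at key
  simp only [hcs, hct] at key
  set u : ℝ := (σ⁻¹ ^ t : ℝ) with hu
  have hu0 : 0 < u := by rw [hu]; positivity
  have e1 : (u • a ^ t) * (σ⁻¹ • b) * (u • a ^ t) = (u ^ 2 * σ⁻¹) • (a ^ t * b * a ^ t) := by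
    simp only [smul_mul_assoc, mul_smul_comm, smul_smul]
    congr 1
    ring
  have e2 : (u • b ^ t) * (σ⁻¹ • a) * (u • b ^ t) = (u ^ 2 * σ⁻¹) • (b ^ t * a * b ^ t) := by
    simp only [smul_mul_assoc, mul_smul_comm, smul_smul]
    congr 1
    ring
  rw [e1, e2, ← smul_add] at key
  have h2 := smul_le_smul_of_nonneg_left key (by positivity : (0:ℝ) ≤ σ * (σ ^ t) ^ 2)
  rw [smul_smul, smul_smul] at h2
  have hut : σ ^ t * u = 1 := by
    rw [hu, ← Real.mul_rpow hσ.le (by positivity), mul_inv_cancel₀ hσ.ne', Real.one_rpow]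
  have e3 : σ * (σ ^ t) ^ 2 * (u ^ 2 * σ⁻¹) = 1 := by
    have : σ * (σ ^ t) ^ 2 * (u ^ 2 * σ⁻¹) = (σ * σ⁻¹) * (σ ^ t * u) ^ 2 := by ring
    rw [this, hut, mul_inv_cancel₀ hσ.ne']
    norm_num
  rw [e3, one_smul] at h2
  refine h2.trans (le_of_eq ?_)
  congr 1
  rw [Real.mul_rpow (by norm_num) hσ.le]
  ring

theorem one_10368 (a : 𝔄) (ha : 0 ≤ a) (c : ℝ≥0) (hc : 0 < c) (r : ℝ≥0) (hr1 : r ≤ 1) :
    a ^ (r : ℝ) ≤ (r * c ^ ((r:ℝ) - 1)) • a + ((1 - r) * c ^ (r:ℝ)) • (1 : 𝔄) := by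
  have h1 : ∀ x : ℝ≥0, x ^ (r:ℝ) ≤ (r * c ^ ((r:ℝ) - 1)) * x + (1 - r) * c ^ (r:ℝ) := by
    intro x
    have h2 := NNReal.geom_mean_le_arith_mean2_weighted r (1 - r) x c (by
      rw [add_tsub_cancel_of_le hr1])
    have h3 : ((1 - r : ℝ≥0) : ℝ) = 1 - (r:ℝ) := by
      rw [NNReal.coe_sub hr1]; rfl
    rw [h3] at h2
    have h4 : c ^ (1 - (r:ℝ)) * c ^ ((r:ℝ) - 1) = 1 := by
      rw [← NNReal.rpow_add hc.ne']; simp
    have h5 : c * c ^ ((r:ℝ) - 1) = c ^ (r:ℝ) := by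
      nth_rewrite 1 [← NNReal.rpow_one c]
      rw [← NNReal.rpow_add hc.ne']; congr 1; ring
    calc x ^ (r:ℝ) = x ^ (r:ℝ) * c ^ (1 - (r:ℝ)) * c ^ ((r:ℝ) - 1) := by
          rw [mul_assoc, h4, mul_one]
      _ ≤ (r * x + (1 - r) * c) * c ^ ((r:ℝ) - 1) := by gcongr
      _ = (r * c ^ ((r:ℝ) - 1)) * x + (1 - r) * (c * c ^ ((r:ℝ) - 1)) := by ring
      _ = _ := by rw [h5]
  have hcont : Continuous (fun x : ℝ≥0 => x ^ (r:ℝ)) :=
    NNReal.continuous_rpow_const r.2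
  rw [CFC.rpow_def]
  calc cfc (fun x : ℝ≥0 => x ^ (r:ℝ)) a
      ≤ cfc (fun x : ℝ≥0 => (r * c ^ ((r:ℝ) - 1)) * x + (1 - r) * c ^ (r:ℝ)) a := by
        apply cfc_mono
        · intro x _; exact h1 x
        · exact hcont.continuousOn
        · exact ((continuous_const.mul continuous_id).add continuous_const).continuousOn
    _ = (r * c ^ ((r:ℝ) - 1)) • a + ((1 - r) * c ^ (r:ℝ)) • (1 : 𝔄) := by
        rw [cfc_add (a := a) (fun x : ℝ≥0 => (r * c ^ ((r:ℝ) - 1)) * x)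
          (fun _ : ℝ≥0 => (1 - r) * c ^ (r:ℝ)) (by fun_prop) (by fun_prop),
          cfc_const_mul (r * c ^ ((r:ℝ) - 1)) (fun x : ℝ≥0 => x) a (by fun_prop),
          cfc_id' ℝ≥0 a, cfc_const _ a, Algebra.algebraMap_eq_smul_one]



/-- L3: a scalar tangent bound. -/
theorem rpow_add_le (a b : 𝔄) (ha : 0 ≤ a) (hb : 0 ≤ b) (σ : ℝ) (hσ : 0 < σ)
    (hab : a + b ≤ σ • (1 : 𝔄)) (r : ℝ) (hr0 : 0 ≤ r) (hr1 : r ≤ 1) :
    a ^ r + b ^ r ≤ (2 * ((1 / 2 : ℝ) * σ) ^ r) • (1 : 𝔄) := by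
  lift r to ℝ≥0 using hr0
  have hr1' : r ≤ 1 := by exact_mod_cast hr1
  set c : ℝ≥0 := ⟨(1/2:ℝ) * σ, by positivity⟩ with hc
  have hcpos : 0 < c := by
    rw [← NNReal.coe_pos]; show (0:ℝ) < 1/2 * σ; positivity
  have h1 := one_10368 a ha c hcpos r hr1'
  have h2 := one_10368 b hb c hcpos r hr1'
  have h3 := add_le_add h1 h2
  have h4 : (r * c ^ ((r:ℝ) - 1)) • a + ((1 - r) * c ^ (r:ℝ)) • (1 : 𝔄) +
      ((r * c ^ ((r:ℝ) - 1)) • b + ((1 - r) * c ^ (r:ℝ)) • (1 : 𝔄)) =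
      (r * c ^ ((r:ℝ) - 1)) • (a + b) + (2 * ((1 - r) * c ^ (r:ℝ))) • (1 : 𝔄) := by
    rw [smul_add, two_mul, add_smul]; abel
  rw [h4] at h3
  refine h3.trans ?_
  have h5 : (r * c ^ ((r:ℝ) - 1)) • (a + b) ≤ (r * c ^ ((r:ℝ) - 1)) • (σ • (1 : 𝔄)) := by
    gcongr
  refine (add_le_add_left h5 _).trans (le_of_eq ?_)
  have h6 : ∀ (k : ℝ≥0) (x : 𝔄), k • x = (k : ℝ) • x := fun k x => rfl
  rw [h6, h6, smul_smul, ← add_smul]
  congr 1
  have hcr : (c : ℝ) = 1/2 * σ := rfl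
  have h7 : (((1 - r : ℝ≥0)) : ℝ) = 1 - (r:ℝ) := by
    rw [NNReal.coe_sub hr1']; rfl
  push_cast
  rw [h7, hcr]
  have h8 : (1/2 * σ) ^ ((r:ℝ) - 1) * σ = 2 * (1/2*σ) ^ (r:ℝ) := by
    have h9 : (1/2 * σ) ^ ((r:ℝ) - 1) = (1/2*σ) ^ (r:ℝ) / (1/2 * σ) := by
      rw [Real.rpow_sub_one (by positivity)]
    rw [h9]; field_simp
  linear_combination (r:ℝ) * h8

/-- L4a: Cauchy-Schwarz. -/
theorem norm_row_col_le (U V P Q : 𝔄) :
    ‖U * P + V * Q‖ ^ 2 ≤ ‖U * star U + V * star V‖ * ‖star P * P + star Q * Q‖ := by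
  set x : WithCStarModule 𝔄 (𝔄 × 𝔄) := (WithCStarModule.equiv 𝔄 (𝔄 × 𝔄)).symm (star P, star Q)
    with hx
  set y : WithCStarModule 𝔄 (𝔄 × 𝔄) := (WithCStarModule.equiv 𝔄 (𝔄 × 𝔄)).symm (U, V) with hy
  have h1 := CStarModule.norm_inner_le (A := 𝔄) (WithCStarModule 𝔄 (𝔄 × 𝔄)) (x := x) (y := y)
  have h2 : (inner 𝔄 x y : 𝔄) = U * P + V * Q := by
    rw [WithCStarModule.prod_inner]
    show U * star (star P) + V * star (star Q) = _
    rw [star_star, star_star]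
  have h3 : ‖x‖ ^ 2 = ‖star P * P + star Q * Q‖ := by
    rw [WithCStarModule.prod_norm_sq]
    show ‖star P * star (star P) + star Q * star (star Q)‖ = _
    rw [star_star, star_star]
  have h4 : ‖y‖ ^ 2 = ‖U * star U + V * star V‖ := by
    rw [WithCStarModule.prod_norm_sq]
    rfl
  rw [h2] at h1
  calc ‖U * P + V * Q‖ ^ 2 ≤ (‖x‖ * ‖y‖) ^ 2 := by gcongr
    _ = ‖U * star U + V * star V‖ * ‖star P * P + star Q * Q‖ := by
        rw [mul_pow, h3, h4, mul_comm]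

theorem aux_rpow_add (a : 𝔄) (ha : 0 ≤ a) (x y : ℝ) (hx : 0 ≤ x) (hy : 0 ≤ y) :
    a ^ (x + y) = a ^ x * a ^ y := by
  rw [CFC.rpow_def, CFC.rpow_def, CFC.rpow_def,
    ← cfc_mul (fun z : ℝ≥0 => z ^ x) (fun z : ℝ≥0 => z ^ y) a
      (NNReal.continuous_rpow_const hx).continuousOn
      (NNReal.continuous_rpow_const hy).continuousOn]
  refine cfc_congr (fun z _ => ?_)
  exact NNReal.rpow_add_of_nonneg z hx hy

theorem aux_star (a : 𝔄) (x : ℝ) : star (a ^ x) = a ^ x :=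
  (IsSelfAdjoint.of_nonneg CFC.rpow_nonneg).star_eq

theorem aux_norm_le (x : 𝔄) (hx : 0 ≤ x) (r : ℝ) (hr : 0 ≤ r) (h : x ≤ r • (1 : 𝔄)) : ‖x‖ ≤ r := by
  rw [CStarAlgebra.norm_le_iff_le_algebraMap x hr hx, Algebra.algebraMap_eq_smul_one]
  exact h

/-- L4: the inequality for exponents `t`, `1 - t` with `0 < t ≤ 1/2`. -/
theorem mixed_le (a b : 𝔄) (ha : 0 ≤ a) (hb : 0 ≤ b) (t : ℝ) (ht0 : 0 < t) (ht1 : t ≤ 1 / 2) :
    ‖a ^ t * b ^ (1 - t) + b ^ t * a ^ (1 - t)‖ ≤ ‖a + b‖ := by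
  rcases (norm_nonneg (a + b)).eq_or_lt with hs | hs
  · have h0 : a + b = 0 := norm_eq_zero.1 hs.symm
    have ha0 : a = 0 := le_antisymm (by rw [← h0]; exact le_add_of_nonneg_right hb) ha
    have hb0 : b = 0 := by rw [ha0, zero_add] at h0; exact h0
    have hz : (0 : 𝔄) ^ t = 0 := CFC.zero_rpow ht0.ne'
    rw [ha0, hb0, hz, zero_mul]
  · set s := ‖a + b‖ with hs_def
    have hab : a + b ≤ s • (1 : 𝔄) := by
      have hsa : IsSelfAdjoint (a + b) := IsSelfAdjoint.of_nonneg (add_nonneg ha hb)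
      have := hsa.le_algebraMap_norm_self
      rwa [Algebra.algebraMap_eq_smul_one] at this
    have ht2 : (0 : ℝ) ≤ 1 / 2 - t := by linarith
    have hh : ∀ x : 𝔄, 0 ≤ x → x ^ (1 / 2 : ℝ) * x ^ (1 / 2 : ℝ) = x := by
      intro x hx
      rw [← aux_rpow_add x hx _ _ (by norm_num) (by norm_num)]
      norm_num
      exact CFC.rpow_one x hx
    have hk : ∀ x : 𝔄, 0 ≤ x → x ^ (1 / 2 : ℝ) * x ^ (1 / 2 - t) = x ^ (1 - t) := by
      intro x hx
      rw [← aux_rpow_add x hx _ _ (by norm_num) ht2]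
      congr 1
      ring
    have hl : ∀ x : 𝔄, 0 ≤ x → x ^ (1 / 2 - t) * x ^ (1 / 2 - t) = x ^ (1 - 2 * t) := by
      intro x hx
      rw [← aux_rpow_add x hx _ _ ht2 ht2]
      congr 1
      ring
    have hm := norm_row_col_le (a ^ t * b ^ (1 / 2 : ℝ)) (b ^ t * a ^ (1 / 2 : ℝ))
      (b ^ (1 / 2 - t)) (a ^ (1 / 2 - t))
    have e1 : a ^ t * b ^ (1 / 2 : ℝ) * b ^ (1 / 2 - t) = a ^ t * b ^ (1 - t) := by
      rw [mul_assoc, hk b hb]
    have e2 : b ^ t * a ^ (1 / 2 : ℝ) * a ^ (1 / 2 - t) = b ^ t * a ^ (1 - t) := by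
      rw [mul_assoc, hk a ha]
    have e3 : a ^ t * b ^ (1 / 2 : ℝ) * star (a ^ t * b ^ (1 / 2 : ℝ)) = a ^ t * b * a ^ t := by
      rw [star_mul, aux_star, aux_star, mul_assoc, ← mul_assoc (b ^ (1 / 2 : ℝ)), hh b hb, mul_assoc]
    have e4 : b ^ t * a ^ (1 / 2 : ℝ) * star (b ^ t * a ^ (1 / 2 : ℝ)) = b ^ t * a * b ^ t := by
      rw [star_mul, aux_star, aux_star, mul_assoc, ← mul_assoc (a ^ (1 / 2 : ℝ)), hh a ha, mul_assoc]
    rw [e1, e2, e3, e4, aux_star, aux_star, hl b hb, hl a ha] at hm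
    have hn1 : 0 ≤ a ^ t * b * a ^ t + b ^ t * a * b ^ t := by
      rw [← e3, ← e4]
      exact add_nonneg (mul_star_self_nonneg _) (mul_star_self_nonneg _)
    have hn2 : 0 ≤ b ^ (1 - 2 * t) + a ^ (1 - 2 * t) :=
      add_nonneg CFC.rpow_nonneg CFC.rpow_nonneg
    have h1 : ‖a ^ t * b * a ^ t + b ^ t * a * b ^ t‖ ≤ s * (((1 / 2 : ℝ) * s) ^ t) ^ 2 :=
      aux_norm_le _ hn1 _ (by positivity)
        (rpow_conj_le' a b ha hb s hs hab t ht0 (by linarith))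
    have h2 : ‖b ^ (1 - 2 * t) + a ^ (1 - 2 * t)‖ ≤ 2 * ((1 / 2 : ℝ) * s) ^ (1 - 2 * t) :=
      aux_norm_le _ hn2 _ (by positivity) (by
        rw [add_comm]
        exact rpow_add_le a b ha hb s hs hab (1 - 2 * t) (by linarith) (by linarith))
    have hpos : 0 < (1 / 2 : ℝ) * s := by positivity
    have h3 : s * (((1 / 2 : ℝ) * s) ^ t) ^ 2 * (2 * ((1 / 2 : ℝ) * s) ^ (1 - 2 * t)) = s ^ 2 := by
      have e5 : (((1 / 2 : ℝ) * s) ^ t) ^ 2 * ((1 / 2 : ℝ) * s) ^ (1 - 2 * t) = (1 / 2 : ℝ) * s := by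
        rw [← Real.rpow_natCast, ← Real.rpow_mul hpos.le, ← Real.rpow_add hpos]
        have : t * ((2 : ℕ) : ℝ) + (1 - 2 * t) = 1 := by push_cast; ring
        rw [this, Real.rpow_one]
      calc _ = s * 2 * ((((1 / 2 : ℝ) * s) ^ t) ^ 2 * ((1 / 2 : ℝ) * s) ^ (1 - 2 * t)) := by ring
        _ = s ^ 2 := by rw [e5]; ring
    have h4 : ‖a ^ t * b ^ (1 - t) + b ^ t * a ^ (1 - t)‖ ^ 2 ≤ s ^ 2 := by
      rw [← h3]
      exact hm.trans (mul_le_mul h1 h2 (norm_nonneg _) (by positivity))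
    exact le_of_sq_le_sq h4 hs.le

theorem mixed_le_aux (a b : 𝔄) (ha : 0 ≤ a) (hb : 0 ≤ b) (p q : ℝ) (hp : 0 < p) (hq : 0 < q)
    (hpq : p ≤ q) :
    ‖a ^ p * b ^ q + b ^ p * a ^ q‖ ≤ ‖a ^ (p + q) + b ^ (p + q)‖ := by
  have hs : 0 < p + q := by linarith
  have h := mixed_le (a ^ (p + q)) (b ^ (p + q)) CFC.rpow_nonneg CFC.rpow_nonneg (p / (p + q))
    (by positivity) (by rw [div_le_iff₀ hs]; linarith)
  have e1 : (p + q) * (p / (p + q)) = p := by field_simp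
  have e2 : (p + q) * (1 - p / (p + q)) = q := by field_simp; ring
  have h0 : 0 ≤ p / (p + q) := by positivity
  have h1 : 0 ≤ 1 - p / (p + q) := by
    rw [sub_nonneg, div_le_one hs]; linarith
  rw [CFC.rpow_rpow_of_exponent_nonneg a _ _ hs.le h0 ha,
    CFC.rpow_rpow_of_exponent_nonneg a _ _ hs.le h1 ha,
    CFC.rpow_rpow_of_exponent_nonneg b _ _ hs.le h0 hb,
    CFC.rpow_rpow_of_exponent_nonneg b _ _ hs.le h1 hb, e1, e2] at h
  exact h

/-- L5: all exponents. -/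
theorem mixed_le_all (a b : 𝔄) (ha : 0 ≤ a) (hb : 0 ≤ b) (p q : ℝ) (hp : 0 < p) (hq : 0 < q) :
    ‖a ^ p * b ^ q + b ^ p * a ^ q‖ ≤ ‖a ^ (p + q) + b ^ (p + q)‖ := by
  rcases le_total p q with hpq | hpq
  · exact mixed_le_aux a b ha hb p q hp hq hpq
  · have h := mixed_le_aux a b ha hb q p hq hp hpq
    have hsa : ∀ (c : 𝔄) (y : ℝ), star (c ^ y) = c ^ y := fun c y =>
      (IsSelfAdjoint.of_nonneg (CFC.rpow_nonneg (a := c) (y := y))).star_eq
    have e : star (a ^ q * b ^ p + b ^ q * a ^ p) = a ^ p * b ^ q + b ^ p * a ^ q := by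
      rw [star_add, star_mul, star_mul, hsa, hsa, hsa, hsa, add_comm]
    rw [← e, norm_star, add_comm p q]
    exact h

end CStar

section Mat

open scoped Matrix.Norms.L2Operator MatrixOrder

/-- the spectral power of a PSD matrix is the power of the continuous functional calculus -/
theorem matrix_rpow_eq {n : ℕ} (A : Matrix (Fin n) (Fin n) ℂ) (hA : A.PosSemidef) (p : ℝ)
    (hp : 0 < p) :
    (hA.isHermitian.eigenvectorUnitary : Matrix (Fin n) (Fin n) ℂ)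
            * Matrix.diagonal (fun i => Complex.ofReal (hA.isHermitian.eigenvalues i ^ p))
            * star (hA.isHermitian.eigenvectorUnitary : Matrix (Fin n) (Fin n) ℂ) = A ^ p := by
  have h1 : A ^ p = cfc (fun x : ℝ => x ^ p) A :=
    CFC.rpow_eq_cfc_real (a := A) (y := p) (Matrix.nonneg_iff_posSemidef.mpr hA)
  rw [h1, hA.isHermitian.cfc_eq, Matrix.IsHermitian.cfc, Unitary.conjStarAlgAut_apply]
  rfl

end Mat

/-- The power `A ^ r` of a positive semidefinite matrix `A` defined by the spectral theorem: the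
eigenvalues are raised to the power `r` in an orthonormal eigenbasis of `A` (this is literally the
expression used in the frozen statement). -/
noncomputable def specPow {n : ℕ} {A : Matrix (Fin n) (Fin n) ℂ} (hA : A.PosSemidef) (r : ℝ) :
    Matrix (Fin n) (Fin n) ℂ :=
  (hA.isHermitian.eigenvectorUnitary : Matrix (Fin n) (Fin n) ℂ)
    * Matrix.diagonal (fun i => Complex.ofReal (hA.isHermitian.eigenvalues i ^ r))
    * star (hA.isHermitian.eigenvectorUnitary : Matrix (Fin n) (Fin n) ℂ)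

open scoped Matrix.Norms.L2Operator in
/-- Bourin's inequality for the operator norm: for all positive semidefinite complex matrices and
all exponents `p, q > 0` (first part), and for all positive elements of an arbitrary unital
C*-algebra (second part). -/
theorem result :
    (∀ (n : ℕ) (A B : Matrix (Fin n) (Fin n) ℂ) (hA : A.PosSemidef) (hB : B.PosSemidef)
      (p q : ℝ), 0 < p → 0 < q →
      ‖specPow hA p * specPow hB q + specPow hB p * specPow hA q‖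
        ≤ ‖specPow hA (p + q) + specPow hB (p + q)‖) ∧
    (∀ (𝔄 : Type) [CStarAlgebra 𝔄] [PartialOrder 𝔄] [StarOrderedRing 𝔄] (a b : 𝔄),
      0 ≤ a → 0 ≤ b → ∀ p q : ℝ, 0 < p → 0 < q →
      ‖a ^ p * b ^ q + b ^ p * a ^ q‖ ≤ ‖a ^ (p + q) + b ^ (p + q)‖) := by
  refine ⟨?_, fun 𝔄 _ _ _ a b ha hb p q hp hq => mixed_le_all a b ha hb p q hp hq⟩
  intro n A B hA hB p q hp hq
  have e := fun (M : Matrix (Fin n) (Fin n) ℂ) (hM : M.PosSemidef) (r : ℝ) (hr : 0 < r) =>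
    matrix_rpow_eq M hM r hr
  unfold specPow
  rw [e A hA p hp, e B hB q hq, e B hB p hp, e A hA q hq, e A hA (p + q) (by positivity),
    e B hB (p + q) (by positivity)]
  open scoped MatrixOrder in
  exact mixed_le_all A B (Matrix.nonneg_iff_posSemidef.mpr hA) (Matrix.nonneg_iff_posSemidef.mpr hB)
    p q hp hq

end Pool.Agent.Results.MP_4777ae_an.OperatorNorm
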