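import Mathlib

set_option autoImplicit false

namespace Pool.Agent.Results.MP_4777ae_an.WellConditioned

section Defs

open scoped ComplexOrder MatrixOrder
open Matrix

/-- the coordinate projection onto the first `m` coordinates -/
noncomputable def E (n m : ℕ) : Matrix (Fin n) (Fin n) ℂ :=
  Matrix.diagonal (fun i : Fin n => if (i : ℕ) < m then (1 : ℂ) else 0)

/-- the real quadratic form of a matrix -/
noncomputable def qf {n : ℕ} (a : Matrix (Fin n) (Fin n) ℂ) (x : Fin n → ℂ) : ℝ :=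
  (star x ⬝ᵥ (a *ᵥ x)).re

end Defs

section S_g0_scalar

open scoped ComplexOrder MatrixOrder
open Matrix
/-- L1 -/
theorem g0_scalar (a : ℝ) (h0 : 0 ≤ a) (h1 : a ≤ 3 / 2) (u y : ℂ) :
    0 ≤ (1 + a ^ 4) * ‖u‖ ^ 2 - 4 * a * (star u * y).re + (4 * a - 2 * a ^ 2) * ‖y‖ ^ 2 := by
  have hre : (star u * y).re ≤ ‖u‖ * ‖y‖ := by
    refine (Complex.re_le_norm _).trans ?_
    rw [norm_mul, norm_star]
  set U : ℝ := ‖u‖ with hU
  set Y : ℝ := ‖y‖ with hY
  have hU0 : 0 ≤ U := norm_nonneg _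
  have hY0 : 0 ≤ Y := norm_nonneg _
  have h2 : 4 * a * (star u * y).re ≤ 4 * a * (U * Y) :=
    mul_le_mul_of_nonneg_left hre (by linarith)
  have h3 : 0 ≤ 2 + a - a ^ 3 := by
    have h4 : a ^ 2 ≤ 9 / 4 := by nlinarith
    have h5 : a ^ 3 ≤ a * (9 / 4) := by
      have := mul_le_mul_of_nonneg_left h4 h0
      nlinarith [this]
    linarith
  have h6 : 0 ≤ 2 * a * (1 - a) ^ 2 * (2 + a - a ^ 3) := by positivity
  have h7 : (1 + a ^ 4) * (4 * a - 2 * a ^ 2) - 4 * a ^ 2 =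
      2 * a * (1 - a) ^ 2 * (2 + a - a ^ 3) := by ring
  have h8 : 0 ≤ (1 + a ^ 4) *
      ((1 + a ^ 4) * U ^ 2 - 4 * a * (U * Y) + (4 * a - 2 * a ^ 2) * Y ^ 2) := by
    have e : (1 + a ^ 4) *
        ((1 + a ^ 4) * U ^ 2 - 4 * a * (U * Y) + (4 * a - 2 * a ^ 2) * Y ^ 2) =
        ((1 + a ^ 4) * U - 2 * a * Y) ^ 2 +
          ((1 + a ^ 4) * (4 * a - 2 * a ^ 2) - 4 * a ^ 2) * Y ^ 2 := by ring
    rw [e, h7]
    have := sq_nonneg ((1 + a ^ 4) * U - 2 * a * Y)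
    have := mul_nonneg h6 (sq_nonneg Y)
    linarith
  have h9 : 0 < 1 + a ^ 4 := by positivity
  have h10 := nonneg_of_mul_nonneg_right h8 h9
  linarith

end S_g0_scalar

section S_g0_matrix

open scoped ComplexOrder MatrixOrder
open Matrix
/-- L2 -/
theorem g0_matrix {n : ℕ} (a : Matrix (Fin n) (Fin n) ℂ) (ha : a.PosSemidef) (r : ℝ) (hr : 0 < r)
    (hb : ∀ x : Fin n → ℂ, qf a x ≤ 3 / 2 * r * ∑ i, ‖x i‖ ^ 2) (u y : Fin n → ℂ) :
    0 ≤ r ^ 2 * ∑ i, ‖u i‖ ^ 2 + (r ^ 2)⁻¹ * qf (a ^ 4) u - 4 * r * (star u ⬝ᵥ (a *ᵥ y)).re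
      + 4 * r * qf a y - 2 * qf (a ^ 2) y := by
  classical
  obtain ⟨V, hV1, hV2, μ, hμ, haV⟩ : ∃ V : Matrix (Fin n) (Fin n) ℂ, V * Vᴴ = 1 ∧ Vᴴ * V = 1 ∧
      ∃ μ : Fin n → ℝ, (∀ i, 0 ≤ μ i) ∧ a = V * diagonal (fun i => (μ i : ℂ)) * Vᴴ := by
    refine ⟨(ha.isHermitian.eigenvectorUnitary : Matrix (Fin n) (Fin n) ℂ), ?_, ?_,
      ha.isHermitian.eigenvalues, fun i => ha.eigenvalues_nonneg i, ?_⟩
    · have := (Matrix.mem_unitaryGroup_iff (A := (ha.isHermitian.eigenvectorUnitary : Matrix (Fin n) (Fin n) ℂ))).1 (ha.isHermitian.eigenvectorUnitary).2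
      rwa [Matrix.star_eq_conjTranspose] at this
    · have := (Matrix.mem_unitaryGroup_iff' (A := (ha.isHermitian.eigenvectorUnitary : Matrix (Fin n) (Fin n) ℂ))).1 (ha.isHermitian.eigenvectorUnitary).2
      rwa [Matrix.star_eq_conjTranspose] at this
    · have := ha.isHermitian.spectral_theorem
      rw [Unitary.conjStarAlgAut_apply] at this
      exact this
  have hpow : ∀ k : ℕ, a ^ k = V * diagonal (fun i => (μ i : ℂ) ^ k) * Vᴴ := by
    intro k
    induction k with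
    | zero => simp [hV1]
    | succ k ih =>
      rw [pow_succ, ih]
      conv_lhs => rw [haV]
      have : V * diagonal (fun i => (μ i : ℂ) ^ k) * Vᴴ * (V * diagonal (fun i => (μ i : ℂ)) * Vᴴ)
        = V * diagonal (fun i => (μ i : ℂ) ^ k) * (Vᴴ * V) * diagonal (fun i => (μ i : ℂ)) * Vᴴ := by
        simp only [Matrix.mul_assoc]
      rw [this, hV2, Matrix.mul_one, Matrix.mul_assoc V, diagonal_mul_diagonal]
      simp only [pow_succ]
  have hform : ∀ (k : ℕ) (x z : Fin n → ℂ), star x ⬝ᵥ (a ^ k *ᵥ z)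
      = ∑ i, (μ i : ℂ) ^ k * (star ((Vᴴ *ᵥ x) i) * (Vᴴ *ᵥ z) i) := by
    intro k x z
    rw [hpow k, ← Matrix.mulVec_mulVec, ← Matrix.mulVec_mulVec, Matrix.dotProduct_mulVec]
    have : star x ᵥ* V = star (Vᴴ *ᵥ x) := by
      rw [Matrix.star_mulVec, Matrix.conjTranspose_conjTranspose]
    rw [this]
    unfold dotProduct
    refine Finset.sum_congr rfl fun i _ => ?_
    rw [Matrix.mulVec_diagonal]
    simp only [Pi.star_apply]
    ring
  have hre : ∀ (k : ℕ) (x z : Fin n → ℂ), (star x ⬝ᵥ (a ^ k *ᵥ z)).re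
      = ∑ i, (μ i) ^ k * (star ((Vᴴ *ᵥ x) i) * (Vᴴ *ᵥ z) i).re := by
    intro k x z
    rw [hform k x z, Complex.re_sum]
    refine Finset.sum_congr rfl fun i _ => ?_
    rw [← Complex.ofReal_pow, Complex.re_ofReal_mul]
  have hnn : ∀ w : ℂ, (star w * w).re = ‖w‖ ^ 2 := by
    intro w
    have : star w * w = ((‖w‖ ^ 2 : ℝ) : ℂ) := by
      have := Complex.conj_mul' w
      simpa using this
    rw [this, Complex.ofReal_re]
  have hqf : ∀ (k : ℕ) (x : Fin n → ℂ), qf (a ^ k) x = ∑ i, (μ i) ^ k * ‖(Vᴴ *ᵥ x) i‖ ^ 2 := by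
    intro k x
    unfold qf
    rw [hre]
    refine Finset.sum_congr rfl fun i _ => ?_
    rw [hnn]
  have hns : ∀ x : Fin n → ℂ, ∑ i, ‖x i‖ ^ 2 = ∑ i, ‖(Vᴴ *ᵥ x) i‖ ^ 2 := by
    intro x
    have h0 := hqf 0 x
    simp only [pow_zero, one_mul] at h0
    rw [← h0]
    unfold qf
    rw [Matrix.one_mulVec]
    unfold dotProduct
    rw [Complex.re_sum]
    refine Finset.sum_congr rfl fun i _ => ?_
    rw [Pi.star_apply, hnn]
  have hμb : ∀ i, μ i ≤ 3 / 2 * r := by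
    intro i
    have h1 := hb (V *ᵥ Pi.single i 1)
    have h2 : Vᴴ *ᵥ (V *ᵥ Pi.single i (1 : ℂ)) = Pi.single i 1 := by
      rw [Matrix.mulVec_mulVec, hV2, Matrix.one_mulVec]
    have h3 := hqf 1 (V *ᵥ Pi.single i 1)
    rw [pow_one] at h3
    rw [h3, hns, h2] at h1
    have h4 : ∑ j, ‖(Pi.single i (1 : ℂ) : Fin n → ℂ) j‖ ^ 2 = 1 := by
      rw [Finset.sum_eq_single i]
      · simp
      · intro b _ hb'
        simp [Pi.single_apply, hb']
      · simp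
    have h5 : ∑ j, μ j ^ 1 * ‖(Pi.single i (1 : ℂ) : Fin n → ℂ) j‖ ^ 2 = μ i := by
      rw [Finset.sum_eq_single i]
      · simp
      · intro b _ hb'
        simp [Pi.single_apply, hb']
      · simp
    rw [h4, h5] at h1
    linarith
  have e1 : (star u ⬝ᵥ (a *ᵥ y)).re = ∑ i, (μ i) ^ 1 * (star ((Vᴴ *ᵥ u) i) * (Vᴴ *ᵥ y) i).re := by
    have := hre 1 u y
    rwa [pow_one] at this
  have e2 : qf a y = ∑ i, (μ i) ^ 1 * ‖(Vᴴ *ᵥ y) i‖ ^ 2 := by
    have := hqf 1 y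
    rwa [pow_one] at this
  rw [hns u, hqf 4 u, e1, e2, hqf 2 y]
  rw [Finset.mul_sum, Finset.mul_sum, Finset.mul_sum, Finset.mul_sum, Finset.mul_sum,
    ← Finset.sum_add_distrib, ← Finset.sum_sub_distrib, ← Finset.sum_add_distrib,
    ← Finset.sum_sub_distrib]
  refine Finset.sum_nonneg fun i _ => ?_
  have hs := g0_scalar (μ i / r) (div_nonneg (hμ i) hr.le) (by rw [div_le_iff₀ hr]; exact hμb i)
    ((Vᴴ *ᵥ u) i) ((Vᴴ *ᵥ y) i)
  have hs2 := mul_nonneg (sq_nonneg r) hs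
  refine hs2.trans_eq ?_
  field_simp
  ring

end S_g0_matrix

section S_bound_of_H4

open scoped ComplexOrder MatrixOrder
open Matrix
theorem bound_of_H4_sq {n : ℕ} (h : Matrix (Fin n) (Fin n) ℂ) (hh : h.IsHermitian)
    (x : Fin n → ℂ) : qf (h * h) x = ∑ i, ‖(h *ᵥ x) i‖ ^ 2 := by
  unfold qf
  have e1 : star x ⬝ᵥ ((h * h) *ᵥ x) = star (h *ᵥ x) ⬝ᵥ (h *ᵥ x) := by
    rw [star_mulVec, hh.eq, ← dotProduct_mulVec, mulVec_mulVec]
  rw [e1]
  simp only [dotProduct, Complex.re_sum, Pi.star_apply]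
  refine Finset.sum_congr rfl fun i _ => ?_
  have := Complex.normSq_eq_conj_mul_self (z := (h *ᵥ x) i)
  rw [show star ((h *ᵥ x) i) = (starRingEnd ℂ) ((h *ᵥ x) i) from rfl, ← this, Complex.ofReal_re,
    Complex.normSq_eq_norm_sq]

theorem bound_of_H4_cs {n : ℕ} (u v : Fin n → ℂ) (t : ℝ) (ht : 0 < t) :
    (star u ⬝ᵥ v).re ≤ t / 2 * ∑ i, ‖u i‖ ^ 2 + 1 / (2 * t) * ∑ i, ‖v i‖ ^ 2 := by
  simp only [dotProduct, Complex.re_sum, Pi.star_apply]
  rw [Finset.mul_sum, Finset.mul_sum, ← Finset.sum_add_distrib]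
  refine Finset.sum_le_sum fun i _ => ?_
  have h1 : (star (u i) * v i).re ≤ ‖u i‖ * ‖v i‖ := by
    refine (Complex.re_le_norm _).trans ?_
    rw [norm_mul, norm_star]
  refine h1.trans ?_
  have h2 : t / 2 * ‖u i‖ ^ 2 + 1 / (2 * t) * ‖v i‖ ^ 2 - ‖u i‖ * ‖v i‖
      = 1 / (2 * t) * (t * ‖u i‖ - ‖v i‖) ^ 2 := by
    field_simp
    ring
  have h3 : 0 ≤ 1 / (2 * t) * (t * ‖u i‖ - ‖v i‖) ^ 2 := by positivity
  linarith



/-- L3 -/
theorem bound_of_H4 {n : ℕ} (a b : Matrix (Fin n) (Fin n) ℂ) (ha : a.PosSemidef)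
    (hb : b.PosSemidef) (ρ : Fin n → ℝ) (h0 : ∀ i, 0 ≤ ρ i) (r : ℝ) (hr : 0 < r)
    (hρ : ∀ i, ρ i ≤ 5 / 4 * r)
    (H4 : ∀ x : Fin n → ℂ, 1 / 2 * (qf (a ^ 4) x + qf (b ^ 4) x) ≤ ∑ i, ρ i ^ 4 * ‖x i‖ ^ 2)
    (x : Fin n → ℂ) :
    qf a x ≤ 3 / 2 * r * ∑ i, ‖x i‖ ^ 2 := by
  have hah := ha.isHermitian
  have hbh := hb.isHermitian
  set N : ℝ := ∑ i, ‖x i‖ ^ 2 with hN
  have hN0 : 0 ≤ N := Finset.sum_nonneg fun i _ => by positivity
  set s : ℝ := 3 / 2 * r with hs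
  have hs0 : 0 < s := by positivity
  have e4 : ∀ c : Matrix (Fin n) (Fin n) ℂ, c ^ 4 = (c ^ 2) * (c ^ 2) := by
    intro c; rw [← pow_add]
  have h4a : qf (a ^ 4) x = ∑ i, ‖((a ^ 2) *ᵥ x) i‖ ^ 2 := by
    rw [e4]; exact bound_of_H4_sq _ (hah.pow 2) x
  have h4b : 0 ≤ qf (b ^ 4) x := by
    rw [e4, bound_of_H4_sq _ (hbh.pow 2) x]
    exact Finset.sum_nonneg fun i _ => by positivity
  have hS : ∑ i, ρ i ^ 4 * ‖x i‖ ^ 2 ≤ (5 / 4 * r) ^ 4 * N := by
    rw [hN, Finset.mul_sum]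
    refine Finset.sum_le_sum fun i _ => ?_
    refine mul_le_mul_of_nonneg_right ?_ (by positivity)
    exact pow_le_pow_left₀ (h0 i) (hρ i) 4
  have h5 : ∑ i, ‖((a ^ 2) *ᵥ x) i‖ ^ 2 ≤ s ^ 4 * N := by
    have h6 := H4 x
    rw [h4a] at h6
    have h7 : 2 * ((5 / 4 * r) ^ 4 * N) ≤ s ^ 4 * N := by
      have h8 : 0 ≤ r ^ 4 * N := by positivity
      have e1 : 2 * ((5 / 4 * r) ^ 4 * N) = 1250 / 256 * (r ^ 4 * N) := by ring
      have e2 : s ^ 4 * N = 81 / 16 * (r ^ 4 * N) := by rw [hs]; ring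
      rw [e1, e2]
      nlinarith
    linarith
  have h9 : ∑ i, ‖(a *ᵥ x) i‖ ^ 2 ≤ s ^ 2 * N := by
    have e1 := bound_of_H4_sq a hah x
    rw [← e1]
    have h10 := bound_of_H4_cs x ((a ^ 2) *ᵥ x) (s ^ 2) (by positivity)
    have e2 : qf (a * a) x = (star x ⬝ᵥ ((a ^ 2) *ᵥ x)).re := by
      unfold qf; rw [pow_two]
    rw [e2]
    refine h10.trans ?_
    have h11 : 1 / (2 * s ^ 2) * ∑ i, ‖((a ^ 2) *ᵥ x) i‖ ^ 2 ≤ 1 / (2 * s ^ 2) * (s ^ 4 * N) :=
      mul_le_mul_of_nonneg_left h5 (by positivity)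
    have e3 : 1 / (2 * s ^ 2) * (s ^ 4 * N) = s ^ 2 / 2 * N := by
      field_simp
    rw [e3] at h11
    have e4 : s ^ 2 / 2 * ∑ i, ‖x i‖ ^ 2 = s ^ 2 / 2 * N := rfl
    rw [e4]
    linarith
  have h12 := bound_of_H4_cs x (a *ᵥ x) s hs0
  have h13 : 1 / (2 * s) * ∑ i, ‖(a *ᵥ x) i‖ ^ 2 ≤ 1 / (2 * s) * (s ^ 2 * N) :=
    mul_le_mul_of_nonneg_left h9 (by positivity)
  have e5 : 1 / (2 * s) * (s ^ 2 * N) = s / 2 * N := by
    field_simp
  rw [e5] at h13
  have e6 : s / 2 * ∑ i, ‖x i‖ ^ 2 = s / 2 * N := rfl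
  rw [e6] at h12
  have e7 : qf a x = (star x ⬝ᵥ (a *ᵥ x)).re := rfl
  rw [e7]
  linarith

end S_bound_of_H4

section S_layer_low

open scoped ComplexOrder MatrixOrder
open Matrix
theorem quad_aux {n : ℕ} (α M : Matrix (Fin n) (Fin n) ℂ) (hα : α.IsHermitian)
    (y : Fin n → ℂ) :
    star y ⬝ᵥ ((α * M * α) *ᵥ y) = star (α *ᵥ y) ⬝ᵥ (M *ᵥ (α *ᵥ y)) := by
  rw [star_mulVec, hα.eq, ← mulVec_mulVec, ← mulVec_mulVec, dotProduct_mulVec]

theorem qf_sq {n : ℕ} (α : Matrix (Fin n) (Fin n) ℂ) (hα : α.IsHermitian)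
    (y : Fin n → ℂ) : qf (α ^ 2) y = ∑ i, ‖(α *ᵥ y) i‖ ^ 2 := by
  have h := quad_aux α 1 hα y
  rw [mul_one, one_mulVec] at h
  unfold qf
  rw [sq, h]
  simp only [dotProduct, Pi.star_apply, Complex.re_sum]
  refine Finset.sum_congr rfl fun i _ => ?_
  rw [Complex.star_def, ← Complex.normSq_eq_conj_mul_self, Complex.ofReal_re,
    Complex.normSq_eq_norm_sq]

theorem qf_E {n : ℕ} (α : Matrix (Fin n) (Fin n) ℂ) (hα : α.IsHermitian) (m : ℕ)
    (y : Fin n → ℂ) : qf (α * E n m * α) y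
      = ∑ i : Fin n, if (i : ℕ) < m then ‖(α *ᵥ y) i‖ ^ 2 else 0 := by
  have h := quad_aux α (E n m) hα y
  unfold qf
  rw [h]
  simp only [dotProduct, Pi.star_apply, Complex.re_sum]
  refine Finset.sum_congr rfl fun i _ => ?_
  unfold E
  rw [mulVec_diagonal]
  split_ifs with hi
  · rw [one_mul, Complex.star_def, ← Complex.normSq_eq_conj_mul_self, Complex.ofReal_re,
      Complex.normSq_eq_norm_sq]
  · simp

theorem one_bound {n : ℕ} (α : Matrix (Fin n) (Fin n) ℂ) (hα : α.PosSemidef) (r : ℝ)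
    (hr : 0 < r) (hb : ∀ x : Fin n → ℂ, qf α x ≤ 3 / 2 * r * ∑ i, ‖x i‖ ^ 2)
    (m : ℕ) (y u : Fin n → ℂ) (hu : ∀ i : Fin n, u i = if (i : ℕ) < m then y i else y i / 2) :
    2 * qf (α * E n m * α) y ≤ r ^ 2 * ∑ i, ‖u i‖ ^ 2 + (r ^ 2)⁻¹ * qf (α ^ 4) u
      + ∑ i : Fin n, (if (i : ℕ) < m then 0 else 1 / 2 * r ^ 2 * ‖y i‖ ^ 2) := by
  have h1 := g0_matrix α hα r hr hb u y
  rw [qf_sq α hα.isHermitian] at h1
  rw [qf_E α hα.isHermitian]
  have h2 : ∑ i : Fin n, (2 * (if (i : ℕ) < m then ‖(α *ᵥ y) i‖ ^ 2 else 0)) 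
      ≤ ∑ i : Fin n, (2 * ‖(α *ᵥ y) i‖ ^ 2
        + 4 * r * ((starRingEnd ℂ (u i)) * (α *ᵥ y) i).re
        - 4 * r * ((starRingEnd ℂ (y i)) * (α *ᵥ y) i).re
        + (if (i : ℕ) < m then 0 else 1 / 2 * r ^ 2 * ‖y i‖ ^ 2)) := by
    refine Finset.sum_le_sum fun i _ => ?_
    rw [hu i]
    split_ifs with hi
    · linarith
    · have e1 : ‖(α *ᵥ y) i‖ ^ 2 = ((α *ᵥ y) i).re ^ 2 + ((α *ᵥ y) i).im ^ 2 := by
        rw [← Complex.normSq_eq_norm_sq, Complex.normSq_apply]; ring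
      have e2 : ‖y i‖ ^ 2 = (y i).re ^ 2 + (y i).im ^ 2 := by
        rw [← Complex.normSq_eq_norm_sq, Complex.normSq_apply]; ring
      have e3 : (y i / 2).re = (y i).re / 2 := by
        rw [show (2 : ℂ) = ((2 : ℝ) : ℂ) by norm_num, Complex.div_ofReal_re]
      have e4 : (y i / 2).im = (y i).im / 2 := by
        rw [show (2 : ℂ) = ((2 : ℝ) : ℂ) by norm_num, Complex.div_ofReal_im]
      rw [e1, e2]
      simp only [Complex.mul_re, Complex.conj_re, Complex.conj_im, e3, e4]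
      nlinarith [sq_nonneg (((α *ᵥ y) i).re - r * (y i).re / 2),
        sq_nonneg (((α *ᵥ y) i).im - r * (y i).im / 2)]
  have h3 : (star u ⬝ᵥ (α *ᵥ y)).re = ∑ i, ((starRingEnd ℂ (u i)) * (α *ᵥ y) i).re := by
    simp only [dotProduct, Pi.star_apply, Complex.re_sum, Complex.star_def]
  have h4 : qf α y = ∑ i, ((starRingEnd ℂ (y i)) * (α *ᵥ y) i).re := by
    unfold qf
    simp only [dotProduct, Pi.star_apply, Complex.re_sum, Complex.star_def]
  rw [h3, h4] at h1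
  simp only [Finset.sum_add_distrib, Finset.sum_sub_distrib, ← Finset.mul_sum] at h2
  linarith



/-- L4 -/
theorem layer_low {n : ℕ} (a b : Matrix (Fin n) (Fin n) ℂ) (ha : a.PosSemidef)
    (hb : b.PosSemidef) (ρ : Fin n → ℝ) (h0 : ∀ i, 0 ≤ ρ i)
    (H4 : ∀ x : Fin n → ℂ, 1 / 2 * (qf (a ^ 4) x + qf (b ^ 4) x) ≤ ∑ i, ρ i ^ 4 * ‖x i‖ ^ 2)
    (j : Fin n) (hj : 0 < ρ j) (hρ : ∀ i, j ≤ i → ρ i ≤ ρ j)
    (hba : ∀ x : Fin n → ℂ, qf a x ≤ 3 / 2 * ρ j * ∑ i, ‖x i‖ ^ 2)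
    (hbb : ∀ x : Fin n → ℂ, qf b x ≤ 3 / 2 * ρ j * ∑ i, ‖x i‖ ^ 2)
    (m : ℕ) (hjm : (j : ℕ) < m) (y : Fin n → ℂ) (hy : ∀ i, i < j → y i = 0) :
    qf (a * E n m * a + b * E n m * b) y
      - ∑ i : Fin n, (if (i : ℕ) < m then ρ i ^ 2 else 0) * ‖y i‖ ^ 2
      ≤ ρ j ^ 2 * ∑ i, ‖y i‖ ^ 2 := by
  set r : ℝ := ρ j with hr
  obtain ⟨u, hu⟩ : ∃ u : Fin n → ℂ, ∀ i : Fin n, u i = if (i : ℕ) < m then y i else y i / 2 :=
    ⟨fun i => if (i : ℕ) < m then y i else y i / 2, fun i => rfl⟩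
  have h1 := one_bound a ha r hj hba m y u hu
  have h2 := one_bound b hb r hj hbb m y u hu
  have h3 := H4 u
  have hadd : qf (a * E n m * a + b * E n m * b) y
      = qf (a * E n m * a) y + qf (b * E n m * b) y := by
    unfold qf
    rw [add_mulVec, dotProduct_add, Complex.add_re]
  rw [hadd]
  have h4 : (r ^ 2)⁻¹ * (1 / 2 * (qf (a ^ 4) u + qf (b ^ 4) u))
      ≤ (r ^ 2)⁻¹ * ∑ i, ρ i ^ 4 * ‖u i‖ ^ 2 :=
    mul_le_mul_of_nonneg_left h3 (by positivity)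
  have h5 : ∑ i : Fin n, (r ^ 2 * ‖u i‖ ^ 2 + (r ^ 2)⁻¹ * (ρ i ^ 4 * ‖u i‖ ^ 2)
      + (if (i : ℕ) < m then 0 else 1 / 2 * r ^ 2 * ‖y i‖ ^ 2))
      ≤ ∑ i : Fin n, ((if (i : ℕ) < m then ρ i ^ 2 else 0) * ‖y i‖ ^ 2
        + r ^ 2 * ‖y i‖ ^ 2) := by
    refine Finset.sum_le_sum fun i _ => ?_
    rcases lt_or_ge i j with hij | hij
    · have e0 : y i = 0 := hy i hij
      rw [hu i]
      simp [e0]
    · have hle : ρ i ≤ r := hρ i hij
      have hsq : ρ i ^ 2 ≤ r ^ 2 := pow_le_pow_left₀ (h0 i) hle 2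
      have hq : (r ^ 2)⁻¹ * ρ i ^ 4 ≤ ρ i ^ 2 := by
        rw [inv_mul_le_iff₀ (by positivity)]
        nlinarith [sq_nonneg (ρ i)]
      rw [hu i]
      split_ifs with hi
      · have := mul_le_mul_of_nonneg_right hq (sq_nonneg ‖y i‖)
        nlinarith
      · have e5 : ‖y i / 2‖ ^ 2 = ‖y i‖ ^ 2 / 4 := by
          rw [norm_div]; norm_num; ring
        rw [e5]
        have := mul_le_mul_of_nonneg_right (hq.trans hsq) (sq_nonneg ‖y i‖)
        nlinarith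
  simp only [Finset.sum_add_distrib, ← Finset.mul_sum] at h5
  have h6 : (r ^ 2)⁻¹ * (qf (a ^ 4) u + qf (b ^ 4) u)
      = 2 * ((r ^ 2)⁻¹ * (1 / 2 * (qf (a ^ 4) u + qf (b ^ 4) u))) := by ring
  have h7 : (r ^ 2)⁻¹ * (qf (a ^ 4) u + qf (b ^ 4) u)
      = (r ^ 2)⁻¹ * qf (a ^ 4) u + (r ^ 2)⁻¹ * qf (b ^ 4) u := by ring
  linarith

end S_layer_low

section S_trace_F

open scoped ComplexOrder MatrixOrder
open Matrix
theorem qf_single {n : ℕ} (a : Matrix (Fin n) (Fin n) ℂ) (j : Fin n) : qf a (Pi.single j 1) = (a j j).re := by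
  unfold qf
  have : (star (Pi.single j (1:ℂ)) : Fin n → ℂ) = Pi.single j 1 := by
    funext i
    by_cases h : i = j
    · subst h; simp
    · simp [Pi.single_eq_of_ne h]
  rw [this]
  simp [Matrix.mulVec_single]

theorem dot_single {n : ℕ} (a : Matrix (Fin n) (Fin n) ℂ) (u : Fin n → ℂ) (j : Fin n) :
    (star u ⬝ᵥ (a *ᵥ (Pi.single j 1))) = ∑ i, star (u i) * a i j := by
  simp [dotProduct, Matrix.mulVec_single]

theorem herm_sq_diag {n : ℕ} (d : Matrix (Fin n) (Fin n) ℂ) (hd : d.IsHermitian) (j : Fin n) :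
    ((d * d) j j).re = ∑ i, ‖d i j‖ ^ 2 := by
  rw [Matrix.mul_apply, Complex.re_sum]
  refine Finset.sum_congr rfl (fun i _ => ?_)
  rw [← hd.apply j i]
  rw [Complex.star_def, ← Complex.normSq_eq_norm_sq, mul_comm, Complex.mul_conj]
  simp

theorem key_j {n : ℕ} (a b : Matrix (Fin n) (Fin n) ℂ) (ha : a.PosSemidef)
    (hb : b.PosSemidef) (ρ : Fin n → ℝ) (h0 : ∀ i, 0 ≤ ρ i)
    (H4 : ∀ x : Fin n → ℂ, 1 / 2 * (qf (a ^ 4) x + qf (b ^ 4) x) ≤ ∑ i, ρ i ^ 4 * ‖x i‖ ^ 2)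
    (j : Fin n) (hr : 0 < ρ j)
    (hba : ∀ x : Fin n → ℂ, qf a x ≤ 3 / 2 * ρ j * ∑ i, ‖x i‖ ^ 2)
    (hbb : ∀ x : Fin n → ℂ, qf b x ≤ 3 / 2 * ρ j * ∑ i, ‖x i‖ ^ 2) :
    2 * ∑ i, ρ j ^ 4 / (ρ j ^ 4 + ρ i ^ 4) * ‖(a + b) i j‖ ^ 2 ≤
      4 * ρ j * (a j j + b j j).re - 2 * (((a * a) j j).re + ((b * b) j j).re) := by
  set r := ρ j with hrdef
  set u : Fin n → ℂ := fun i => ((r ^ 3 / (r ^ 4 + ρ i ^ 4) : ℝ) : ℂ) * (a + b) i j with hu
  have hA := g0_matrix a ha r hr hba u (Pi.single j 1)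
  have hB := g0_matrix b hb r hr hbb u (Pi.single j 1)
  rw [qf_single, qf_single, dot_single] at hA hB
  have hH := H4 u
  have hr2 : 0 < r ^ 2 := by positivity
  have hinv : 0 < (r ^ 2)⁻¹ := inv_pos.2 hr2
  have hH2 : (r ^ 2)⁻¹ * (qf (a ^ 4) u + qf (b ^ 4) u) ≤ (r ^ 2)⁻¹ * (2 * ∑ i, ρ i ^ 4 * ‖u i‖ ^ 2) := by
    apply mul_le_mul_of_nonneg_left _ hinv.le
    linarith
  have hre : (∑ i, star (u i) * a i j).re + (∑ i, star (u i) * b i j).re =
      ∑ i, r ^ 3 / (r ^ 4 + ρ i ^ 4) * ‖(a + b) i j‖ ^ 2 := by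
    rw [← Complex.add_re, ← Finset.sum_add_distrib, Complex.re_sum]
    refine Finset.sum_congr rfl (fun i _ => ?_)
    rw [← mul_add, show a i j + b i j = (a + b) i j from rfl]
    simp only [hu]
    rw [star_mul', Complex.star_def, Complex.conj_ofReal, mul_assoc,
      ← Complex.normSq_eq_conj_mul_self, Complex.normSq_eq_norm_sq]
    rw [← Complex.ofReal_mul, Complex.ofReal_re]
  have hun : ∀ i, ‖u i‖ ^ 2 = (r ^ 3 / (r ^ 4 + ρ i ^ 4)) ^ 2 * ‖(a + b) i j‖ ^ 2 := by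
    intro i
    simp only [hu]
    rw [norm_mul, mul_pow, Complex.norm_real, Real.norm_eq_abs, sq_abs]
  have hsum : 2 * (r ^ 2 * ∑ i, ‖u i‖ ^ 2) + (r ^ 2)⁻¹ * (2 * ∑ i, ρ i ^ 4 * ‖u i‖ ^ 2)
      - 4 * r * (∑ i, r ^ 3 / (r ^ 4 + ρ i ^ 4) * ‖(a + b) i j‖ ^ 2) =
      - (2 * ∑ i, r ^ 4 / (r ^ 4 + ρ i ^ 4) * ‖(a + b) i j‖ ^ 2) := by
    simp only [Finset.mul_sum]
    rw [← Finset.sum_add_distrib, ← Finset.sum_sub_distrib, ← Finset.sum_neg_distrib]
    refine Finset.sum_congr rfl (fun i _ => ?_)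
    rw [hun i]
    have hD : 0 < r ^ 4 + ρ i ^ 4 := by
      have : 0 ≤ ρ i ^ 4 := by positivity
      have : 0 < r ^ 4 := by positivity
      linarith
    have hrne : r ≠ 0 := hr.ne'
    field_simp
    ring
  have hsq : ∀ c : Matrix (Fin n) (Fin n) ℂ, c ^ 2 = c * c := fun c => sq c
  rw [hsq a] at hA
  rw [hsq b] at hB
  have e1 : (a j j + b j j).re = (a j j).re + (b j j).re := Complex.add_re _ _
  rw [e1]
  have e2 : 4 * r * (∑ i, star (u i) * a i j).re + 4 * r * (∑ i, star (u i) * b i j).re =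
      4 * r * (∑ i, r ^ 3 / (r ^ 4 + ρ i ^ 4) * ‖(a + b) i j‖ ^ 2) := by
    rw [← hre]; ring
  have e3 : (r ^ 2)⁻¹ * qf (a ^ 4) u + (r ^ 2)⁻¹ * qf (b ^ 4) u ≤ (r ^ 2)⁻¹ * (2 * ∑ i, ρ i ^ 4 * ‖u i‖ ^ 2) := by
    rw [← mul_add]; exact hH2
  linarith

/-- L5 -/
theorem trace_F {n : ℕ} (a b : Matrix (Fin n) (Fin n) ℂ) (ha : a.PosSemidef)
    (hb : b.PosSemidef) (ρ : Fin n → ℝ) (h0 : ∀ i, 0 ≤ ρ i) (hanti : Antitone ρ)
    (H4 : ∀ x : Fin n → ℂ, 1 / 2 * (qf (a ^ 4) x + qf (b ^ 4) x) ≤ ∑ i, ρ i ^ 4 * ‖x i‖ ^ 2)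
    (m : ℕ) (hpos : ∀ j : Fin n, (j : ℕ) < m → 0 < ρ j)
    (hba : ∀ j : Fin n, (j : ℕ) < m → ∀ x : Fin n → ℂ, qf a x ≤ 3 / 2 * ρ j * ∑ i, ‖x i‖ ^ 2)
    (hbb : ∀ j : Fin n, (j : ℕ) < m → ∀ x : Fin n → ℂ, qf b x ≤ 3 / 2 * ρ j * ∑ i, ‖x i‖ ^ 2) :
    0 ≤ ∑ j : Fin n, (if (j : ℕ) < m then
      ρ j * (a j j + b j j).re - 1 / 2 * (((a + b) * (a + b)) j j).re
        - 1 / 4 * (((a - b) * (a - b)) j j).re else 0) := by
  classical
  have hd : (a + b).IsHermitian := ha.1.add hb.1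
  set N : Fin n → Fin n → ℝ := fun i j => ‖(a + b) i j‖ ^ 2 with hN
  have hNsym : ∀ i j, N i j = N j i := by
    intro i j
    simp only [hN]
    rw [← hd.apply i j, norm_star]
  have hN0 : ∀ i j, 0 ≤ N i j := fun i j => by simp only [hN]; positivity
  set w : Fin n → Fin n → ℝ := fun i j => ρ j ^ 4 / (ρ j ^ 4 + ρ i ^ 4) with hw
  have hkey : ∀ j : Fin n, (j : ℕ) < m → 2 * ∑ i, w i j * N i j ≤
      4 * ρ j * (a j j + b j j).re - 2 * (((a * a) j j).re + ((b * b) j j).re) := fun j hj =>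
    key_j a b ha hb ρ h0 H4 j (hpos j hj) (hba j hj) (hbb j hj)
  set T : Fin n → Fin n → ℝ := fun i j => if (j : ℕ) < m then N i j * (2 * w i j - 1) else 0 with hT
  have hTT : 0 ≤ ∑ i, ∑ j, (T i j + T j i) := by
    refine Finset.sum_nonneg (fun i _ => Finset.sum_nonneg (fun j _ => ?_))
    simp only [hT]
    by_cases hj : (j : ℕ) < m <;> by_cases hi : (i : ℕ) < m
    · rw [if_pos hj, if_pos hi, hNsym j i]
      have h1 : w i j + w j i = 1 := by
        simp only [hw]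
        have hp : 0 < ρ j ^ 4 := by have := hpos j hj; positivity
        have hq : 0 < ρ i ^ 4 := by have := hpos i hi; positivity
        rw [add_comm (ρ i ^ 4) (ρ j ^ 4), ← add_div]
        exact div_self (by linarith)
      have : N i j * (2 * w i j - 1) + N i j * (2 * w j i - 1) = 0 := by
        rw [← mul_add, show 2 * w i j - 1 + (2 * w j i - 1) = 2 * (w i j + w j i) - 2 by ring, h1]; ring
      linarith
    · rw [if_pos hj, if_neg hi, add_zero]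
      apply mul_nonneg (hN0 i j)
      have hle : ρ i ≤ ρ j := hanti (by
        have : (j : ℕ) ≤ (i : ℕ) := by omega
        exact this)
      have hp : 0 < ρ j ^ 4 := by have := hpos j hj; positivity
      have hq : 0 ≤ ρ i ^ 4 := by positivity
      have hle4 : ρ i ^ 4 ≤ ρ j ^ 4 := pow_le_pow_left₀ (h0 i) hle 4
      have : 1 / 2 ≤ w i j := by
        simp only [hw]
        rw [div_le_div_iff₀ (by norm_num) (by linarith)]
        linarith
      linarith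
    · rw [if_neg hj, if_pos hi, zero_add]
      apply mul_nonneg (hN0 j i)
      have hle : ρ j ≤ ρ i := hanti (by
        have : (i : ℕ) ≤ (j : ℕ) := by omega
        exact this)
      have hp : 0 < ρ i ^ 4 := by have := hpos i hi; positivity
      have hq : 0 ≤ ρ j ^ 4 := by positivity
      have hle4 : ρ j ^ 4 ≤ ρ i ^ 4 := pow_le_pow_left₀ (h0 j) hle 4
      have : 1 / 2 ≤ w j i := by
        simp only [hw]
        rw [div_le_div_iff₀ (by norm_num) (by linarith)]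
        linarith
      linarith
    · rw [if_neg hj, if_neg hi]; simp
  have hTsum : 0 ≤ ∑ j, ∑ i, T i j := by
    have h1 : ∑ i, ∑ j, (T i j + T j i) = ∑ i, ∑ j, T i j + ∑ i, ∑ j, T j i := by
      rw [← Finset.sum_add_distrib]
      exact Finset.sum_congr rfl (fun i _ => Finset.sum_add_distrib)
    have h2 : ∑ i, ∑ j, T i j = ∑ j, ∑ i, T i j := Finset.sum_comm
    have h3 : ∑ i, ∑ j, T j i = ∑ j, ∑ i, T i j := rfl
    rw [h1, h2, h3] at hTT
    linarith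
  -- termwise comparison
  have hterm : ∀ j : Fin n, (1 / 4 : ℝ) * ∑ i, T i j ≤ (if (j : ℕ) < m then
      ρ j * (a j j + b j j).re - 1 / 2 * (((a + b) * (a + b)) j j).re
        - 1 / 4 * (((a - b) * (a - b)) j j).re else 0) := by
    intro j
    by_cases hj : (j : ℕ) < m
    · rw [if_pos hj]
      have hT' : ∑ i, T i j = 2 * ∑ i, w i j * N i j - ∑ i, N i j := by
        rw [Finset.mul_sum, ← Finset.sum_sub_distrib]
        refine Finset.sum_congr rfl (fun i _ => ?_)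
        simp only [hT]
        rw [if_pos hj]; ring
      rw [hT']
      have h1 := hkey j hj
      have h2 := herm_sq_diag (a + b) hd j
      have h3 : (((a + b) * (a + b)) j j).re + (((a - b) * (a - b)) j j).re =
          2 * (((a * a) j j).re + ((b * b) j j).re) := by
        have : (a + b) * (a + b) + (a - b) * (a - b) = 2 • (a * a + b * b) := by
          noncomm_ring
        have h4 := congrArg (fun c : Matrix (Fin n) (Fin n) ℂ => (c j j).re) this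
        simp only [Matrix.add_apply, Complex.add_re, Matrix.smul_apply, nsmul_eq_mul] at h4
        rw [h4]
        simp
      have h5 : ∑ i, N i j = (((a + b) * (a + b)) j j).re := h2.symm
      rw [h5]
      linarith
    · rw [if_neg hj]
      have : ∑ i, T i j = 0 := Finset.sum_eq_zero (fun i _ => by simp only [hT]; rw [if_neg hj])
      rw [this]; simp
  calc (0:ℝ) ≤ (1 / 4 : ℝ) * ∑ j, ∑ i, T i j := by positivity
    _ = ∑ j, (1 / 4 : ℝ) * ∑ i, T i j := Finset.mul_sum _ _ _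
    _ ≤ _ := Finset.sum_le_sum (fun j _ => hterm j)

end S_trace_F

section S_layer_high

open scoped ComplexOrder MatrixOrder
open Matrix
theorem lh_nonneg {n k : ℕ} (W : Matrix (Fin n) (Fin n) ℂ) (hW : W.PosSemidef)
    (Y : Matrix (Fin n) (Fin k) ℂ) : 0 ≤ (Matrix.trace (Yᴴ * W * Y)).re := by
  have h := (hW.conjTranspose_mul_mul_same Y).trace_nonneg
  exact (Complex.le_def.1 h).1

theorem lh_le {n k : ℕ} (W : Matrix (Fin n) (Fin n) ℂ) (hW : W.PosSemidef)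
    (X : Matrix (Fin n) (Fin k) ℂ) (hX : Xᴴ * X = 1) :
    (Matrix.trace (Xᴴ * W * X)).re ≤ (Matrix.trace W).re := by
  have h1 := lh_nonneg W hW (1 - X * Xᴴ)
  have h2 : (1 - X * Xᴴ)ᴴ = 1 - X * Xᴴ := by
    rw [conjTranspose_sub, conjTranspose_one, conjTranspose_mul, conjTranspose_conjTranspose]
  have h5 : X * Xᴴ * (X * Xᴴ) = X * Xᴴ := by
    rw [Matrix.mul_assoc, ← Matrix.mul_assoc Xᴴ X Xᴴ, hX, Matrix.one_mul]
  have h3 : (1 - X * Xᴴ) * (1 - X * Xᴴ) = 1 - X * Xᴴ := by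
    rw [Matrix.sub_mul, Matrix.mul_sub, Matrix.mul_sub, h5, Matrix.one_mul, Matrix.one_mul,
      Matrix.mul_one]
    abel
  have h4 : Matrix.trace ((1 - X * Xᴴ)ᴴ * W * (1 - X * Xᴴ)) =
      Matrix.trace W - Matrix.trace (Xᴴ * W * X) := by
    rw [h2, Matrix.trace_mul_cycle, h3, Matrix.sub_mul, Matrix.trace_sub, Matrix.one_mul,
      Matrix.trace_mul_cycle Xᴴ W X]
  rw [h4, Complex.sub_re] at h1
  linarith

theorem lh_E_psd (n m : ℕ) : (E n m).PosSemidef := by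
  unfold E
  apply Matrix.PosSemidef.diagonal
  intro i
  change (0 : ℂ) ≤ if (i : ℕ) < m then (1 : ℂ) else 0
  split_ifs
  · exact zero_le_one
  · exact le_refl _

theorem lh_C_psd {n : ℕ} (m : ℕ) (C : Matrix (Fin n) (Fin n) ℂ) (hC : C.IsHermitian) :
    (C * E n m * C).PosSemidef := by
  have h := (lh_E_psd n m).conjTranspose_mul_mul_same C
  rwa [hC.eq] at h

theorem lh_trace {n : ℕ} (m : ℕ) (C : Matrix (Fin n) (Fin n) ℂ) :
    (Matrix.trace (C * E n m * C)).re =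
      ∑ j : Fin n, (if (j : ℕ) < m then ((C * C) j j).re else 0) := by
  rw [Matrix.trace_mul_cycle, Matrix.trace, Complex.re_sum]
  refine Finset.sum_congr rfl (fun j _ => ?_)
  rw [Matrix.diag_apply, E, Matrix.mul_diagonal]
  split_ifs
  · rw [mul_one]
  · rw [mul_zero]
    rfl



/-- L6 -/
theorem layer_high {n : ℕ} (a b : Matrix (Fin n) (Fin n) ℂ) (ha : a.IsHermitian)
    (hb : b.IsHermitian) (ρ : Fin n → ℝ) (m : ℕ)
    (hF : 0 ≤ ∑ j : Fin n, (if (j : ℕ) < m then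
      ρ j * (a j j + b j j).re - 1 / 2 * (((a + b) * (a + b)) j j).re
        - 1 / 4 * (((a - b) * (a - b)) j j).re else 0))
    {k : ℕ} (X : Matrix (Fin n) (Fin k) ℂ) (hX : Xᴴ * X = 1) :
    (Matrix.trace (Xᴴ * (a * E n m * a + b * E n m * b -
      Matrix.diagonal (fun i : Fin n => (((if (i : ℕ) < m then ρ i ^ 2 else 0 : ℝ)) : ℂ))) * X)).re
      ≤ ∑ i : Fin n, (if (i : ℕ) < m then ρ i ^ 2 else 0) := by
  obtain ⟨R, hR⟩ : ∃ R : Matrix (Fin n) (Fin n) ℂ, R = Matrix.diagonal (fun i => ((ρ i : ℝ) : ℂ)) :=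
    ⟨_, rfl⟩
  have hRH : R.IsHermitian := by
    rw [hR]
    apply Matrix.isHermitian_diagonal_of_self_adjoint
    ext i
    simp
  have hRPR : Matrix.diagonal (fun i : Fin n => (((if (i : ℕ) < m then ρ i ^ 2 else 0 : ℝ)) : ℂ)) =
      R * E n m * R := by
    rw [hR, E, Matrix.diagonal_mul_diagonal, Matrix.diagonal_mul_diagonal]
    congr 1
    funext i
    split_ifs
    · push_cast
      ring
    · simp
  rw [hRPR]
  obtain ⟨P, hP⟩ : ∃ P : Matrix (Fin n) (Fin n) ℂ, P = E n m := ⟨_, rfl⟩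
  obtain ⟨W0, hW0⟩ : ∃ W0 : Matrix (Fin n) (Fin n) ℂ,
    W0 = a * E n m * a + b * E n m * b - R * E n m * R := ⟨_, rfl⟩
  have hid : W0 + W0 + (a + b - R - R) * E n m * (a + b - R - R) =
      (a + b - R) * E n m * (a + b - R) + (a + b - R) * E n m * (a + b - R) +
        (a - b) * E n m * (a - b) := by
    rw [hW0]
    rw [← hP]
    noncomm_ring
  rw [← hW0]
  have h3 := lh_nonneg _ (lh_C_psd m (a + b - R - R) (((ha.add hb).sub hRH).sub hRH)) X
  have h1 := lh_le _ (lh_C_psd m (a + b - R) ((ha.add hb).sub hRH)) X hX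
  have h2 := lh_le _ (lh_C_psd m (a - b) (ha.sub hb)) X hX
  have hid2 : (Matrix.trace (Xᴴ * W0 * X)).re + (Matrix.trace (Xᴴ * W0 * X)).re +
      (Matrix.trace (Xᴴ * ((a + b - R - R) * E n m * (a + b - R - R)) * X)).re =
      (Matrix.trace (Xᴴ * ((a + b - R) * E n m * (a + b - R)) * X)).re +
      (Matrix.trace (Xᴴ * ((a + b - R) * E n m * (a + b - R)) * X)).re +
      (Matrix.trace (Xᴴ * ((a - b) * E n m * (a - b)) * X)).re := by
    have h := congrArg (fun Y => (Matrix.trace (Xᴴ * Y * X)).re) hid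
    simp only [Matrix.mul_add, Matrix.add_mul, Matrix.trace_add, Complex.add_re] at h ⊢
    exact h
  rw [lh_trace] at h1 h2
  have hkey : 2 * (∑ j : Fin n, (if (j : ℕ) < m then (((a + b - R) * (a + b - R)) j j).re else 0)) +
      (∑ j : Fin n, (if (j : ℕ) < m then (((a - b) * (a - b)) j j).re else 0)) +
      4 * (∑ j : Fin n, (if (j : ℕ) < m then
      ρ j * (a j j + b j j).re - 1 / 2 * (((a + b) * (a + b)) j j).re
        - 1 / 4 * (((a - b) * (a - b)) j j).re else 0)) =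
      2 * ∑ i : Fin n, (if (i : ℕ) < m then ρ i ^ 2 else 0) := by
    rw [Finset.mul_sum, Finset.mul_sum, Finset.mul_sum, ← Finset.sum_add_distrib,
      ← Finset.sum_add_distrib]
    refine Finset.sum_congr rfl (fun j _ => ?_)
    split_ifs
    · have e : ((a + b - R) * (a + b - R)) j j = ((a + b) * (a + b)) j j -
          (a j j + b j j) * (ρ j : ℂ) - (ρ j : ℂ) * (a j j + b j j) + (ρ j : ℂ) * (ρ j : ℂ) := by
        have e1 : (a + b - R) * (a + b - R) = (a + b) * (a + b) - (a + b) * R - R * (a + b) + R * R := by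
          noncomm_ring
        rw [e1, hR]
        simp only [Matrix.add_apply, Matrix.sub_apply, Matrix.mul_diagonal, Matrix.diagonal_mul,
          Matrix.diagonal_apply_eq]
      rw [e]
      simp only [Complex.add_re, Complex.sub_re, Complex.mul_re, Complex.ofReal_re,
        Complex.ofReal_im, Complex.add_im]
      ring
    · ring
  linarith

end S_layer_high

section S_ky_fan_sub

open scoped ComplexOrder MatrixOrder
open Matrix
/-- L7 -/
theorem ky_fan_sub_le {n k : ℕ} (X : Matrix (Fin n) (Fin k) ℂ) (hX : Xᴴ * X = 1) : k ≤ n := by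
  have hinj : Function.Injective X.mulVecLin := by
    rw [injective_iff_map_eq_zero]
    intro v hv
    have hv' : X *ᵥ v = 0 := hv
    calc v = (1 : Matrix (Fin k) (Fin k) ℂ) *ᵥ v := (one_mulVec v).symm
      _ = Xᴴ *ᵥ (X *ᵥ v) := by rw [← hX, mulVec_mulVec]
      _ = 0 := by rw [hv', mulVec_zero]
  have := LinearMap.finrank_le_finrank_of_injective hinj
  simpa using this

theorem ky_fan_sub_vec {n k : ℕ} (X : Matrix (Fin n) (Fin (k + 1)) ℂ) :
    ∃ w : EuclideanSpace ℂ (Fin (k + 1)), ‖w‖ = 1 ∧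
      ∀ i : Fin n, (i : ℕ) < k → ∑ l, X i l * w l = 0 := by
  classical
  let L : (Fin (k + 1) → ℂ) →ₗ[ℂ] (Fin k → ℂ) :=
    Matrix.mulVecLin (Matrix.of fun (i : Fin k) (l : Fin (k + 1)) =>
      if h : (i : ℕ) < n then X ⟨i, h⟩ l else 0)
  have hk : LinearMap.ker L ≠ ⊥ := LinearMap.ker_ne_bot_of_finrank_lt (by simp)
  obtain ⟨v, hv, hv0⟩ := Submodule.exists_mem_ne_zero_of_ne_bot hk
  let v' : EuclideanSpace ℂ (Fin (k + 1)) := WithLp.toLp 2 v
  have hv'0 : v' ≠ 0 := by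
    intro h
    apply hv0
    funext l
    have := congrArg (fun z : EuclideanSpace ℂ (Fin (k + 1)) => z l) h
    simpa [v'] using this
  have hn0 : ‖v'‖ ≠ 0 := norm_ne_zero_iff.2 hv'0
  refine ⟨((‖v'‖⁻¹ : ℝ) : ℂ) • v', ?_, ?_⟩
  · rw [norm_smul, Complex.norm_real, norm_inv, norm_norm, inv_mul_cancel₀ hn0]
  · intro i hi
    have h1 : (L v) ⟨i, hi⟩ = 0 := by
      rw [LinearMap.mem_ker.1 hv]
      rfl
    have h2 : (L v) ⟨i, hi⟩ = ∑ l, X i l * v l := by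
      simp [L, Matrix.mulVec, dotProduct]
    have h3 : ∑ l, X i l * (((‖v'‖⁻¹ : ℝ) : ℂ) • v') l = ((‖v'‖⁻¹ : ℝ) : ℂ) * ∑ l, X i l * v l := by
      rw [Finset.mul_sum]
      refine Finset.sum_congr rfl fun l _ => ?_
      show X i l * (((‖v'‖⁻¹ : ℝ) : ℂ) * v l) = _
      ring
    rw [h3, ← h2, h1, mul_zero]

theorem ky_fan_sub_unitary {k : ℕ} (w : EuclideanSpace ℂ (Fin (k + 1))) (hw : ‖w‖ = 1) :
    ∃ W : Matrix (Fin (k + 1)) (Fin (k + 1)) ℂ, Wᴴ * W = 1 ∧ W * Wᴴ = 1 ∧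
      ∀ l, W l (Fin.last k) = w l := by
  have hv : Orthonormal ℂ (Set.restrict ({Fin.last k} : Set (Fin (k + 1)))
      (fun _ : Fin (k + 1) => w)) := by
    constructor
    · intro i
      exact hw
    · intro i j hij
      exact absurd (Subsingleton.elim i j) hij
  obtain ⟨b, hb⟩ := hv.exists_orthonormalBasis_extension_of_card_eq (by simp)
  have h1 : (Matrix.of fun l j => (b j) l : Matrix (Fin (k + 1)) (Fin (k + 1)) ℂ)ᴴ *
      (Matrix.of fun l j => (b j) l) = 1 := by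
    ext i j
    have h2 := orthonormal_iff_ite.1 b.orthonormal i j
    rw [Matrix.mul_apply, Matrix.one_apply, ← h2, EuclideanSpace.inner_eq_star_dotProduct]
    simp only [dotProduct, Matrix.conjTranspose_apply, Matrix.of_apply]
    refine Finset.sum_congr rfl fun l _ => ?_
    simp [mul_comm]
  refine ⟨Matrix.of fun l j => (b j) l, h1, mul_eq_one_comm.1 h1, fun l => ?_⟩
  simp only [Matrix.of_apply]
  rw [hb (Fin.last k) rfl]

theorem ky_fan_sub {n k : ℕ} (T : Matrix (Fin n) (Fin n) ℂ) (c : Fin n → ℝ)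
    (h : ∀ j : Fin n, (j : ℕ) < k → ∀ y : Fin n → ℂ, (∀ i, i < j → y i = 0) →
      qf T y ≤ c j * ∑ i, ‖y i‖ ^ 2)
    (X : Matrix (Fin n) (Fin k) ℂ) (hX : Xᴴ * X = 1) :
    (Matrix.trace (Xᴴ * T * X)).re ≤ ∑ j : Fin n, (if (j : ℕ) < k then c j else 0) := by
  classical
  induction k with
  | zero =>
    simp [Matrix.trace]
  | succ k ih =>
    have hkn : k + 1 ≤ n := ky_fan_sub_le X hX
    obtain ⟨w, hw1, hw2⟩ := ky_fan_sub_vec X
    obtain ⟨W, hW1, hW2, hW3⟩ := ky_fan_sub_unitary w hw1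
    set Y : Matrix (Fin n) (Fin (k + 1)) ℂ := X * W with hY
    have hYY : Yᴴ * Y = 1 := by
      rw [hY, conjTranspose_mul, Matrix.mul_assoc, ← Matrix.mul_assoc Xᴴ X W, hX, Matrix.one_mul,
        hW1]
    have htr : Matrix.trace (Xᴴ * T * X) = Matrix.trace (Yᴴ * T * Y) := by
      rw [hY, conjTranspose_mul]
      have e1 : Wᴴ * Xᴴ * T * (X * W) = Wᴴ * (Xᴴ * T * X * W) := by
        simp only [Matrix.mul_assoc]
      rw [e1, Matrix.trace_mul_comm Wᴴ, Matrix.mul_assoc (Xᴴ * T * X), hW2, Matrix.mul_one]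
    rw [htr]
    set Z : Matrix (Fin n) (Fin k) ℂ := Y.submatrix id Fin.castSucc with hZ
    have hZZ : Zᴴ * Z = 1 := by
      ext i j
      have h1 := congrFun (congrFun hYY i.castSucc) j.castSucc
      rw [Matrix.one_apply] at h1 ⊢
      have h2 : (Zᴴ * Z) i j = (Yᴴ * Y) i.castSucc j.castSucc := rfl
      rw [h2, h1]
      simp
    have h3 := ih (fun j hj y hy => h j (by omega) y hy) Z hZZ
    have h4 : Matrix.trace (Yᴴ * T * Y) = Matrix.trace (Zᴴ * T * Z) +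
        (Yᴴ * T * Y) (Fin.last k) (Fin.last k) := by
      simp only [Matrix.trace, Matrix.diag]
      rw [Fin.sum_univ_castSucc]
      rfl
    rw [h4, Complex.add_re]
    have h5 : ((Yᴴ * T * Y) (Fin.last k) (Fin.last k)).re = qf T (fun i => Y i (Fin.last k)) := by
      unfold qf
      congr 1
      rw [Matrix.mul_assoc, Matrix.mul_apply]
      simp only [dotProduct]
      refine Finset.sum_congr rfl fun i _ => ?_
      rfl
    have h6 : ∀ i : Fin n, (i : ℕ) < k → Y i (Fin.last k) = 0 := by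
      intro i hi
      rw [hY, Matrix.mul_apply]
      simp only [hW3]
      exact hw2 i hi
    have h7 := h ⟨k, by omega⟩ (by simp) (fun i => Y i (Fin.last k)) (by
      intro i hi
      exact h6 i (by simpa [Fin.lt_def] using hi))
    have h8 : ∑ i, ‖Y i (Fin.last k)‖ ^ 2 = 1 := by
      have h9 := congrFun (congrFun hYY (Fin.last k)) (Fin.last k)
      rw [Matrix.one_apply_eq, Matrix.mul_apply] at h9
      have h10 : ∀ i, Yᴴ (Fin.last k) i * Y i (Fin.last k) = ((‖Y i (Fin.last k)‖ ^ 2 : ℝ) : ℂ) := by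
        intro i
        rw [Matrix.conjTranspose_apply]
        have := Complex.conj_mul' (Y i (Fin.last k))
        push_cast
        exact this
      simp only [h10] at h9
      rw [← Complex.ofReal_sum] at h9
      exact_mod_cast h9
    rw [h8, mul_one] at h7
    have h11 : ∑ j : Fin n, (if (j : ℕ) < k + 1 then c j else 0) =
        (∑ j : Fin n, (if (j : ℕ) < k then c j else 0)) + c ⟨k, by omega⟩ := by
      have h12 : ∀ j : Fin n, (if (j : ℕ) < k + 1 then c j else 0) =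
          (if (j : ℕ) < k then c j else 0) + (if j = ⟨k, by omega⟩ then c j else 0) := by
        intro j
        rcases lt_trichotomy (j : ℕ) k with hlt | heq | hgt
        · have hne : j ≠ ⟨k, by omega⟩ := by
            intro h
            rw [h] at hlt
            simp at hlt
          rw [if_pos (by omega), if_pos hlt, if_neg hne, add_zero]
        · have he : j = ⟨k, by omega⟩ := Fin.ext heq
          rw [if_pos (by omega), if_neg (by omega), if_pos he, zero_add]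
        · have hne : j ≠ ⟨k, by omega⟩ := by
            intro h
            rw [h] at hgt
            simp at hgt
          rw [if_neg (by omega), if_neg (by omega), if_neg hne, add_zero]
      rw [Finset.sum_congr rfl fun j _ => h12 j, Finset.sum_add_distrib, Finset.sum_ite_eq']
      simp
    rw [h11, h5]
    exact add_le_add h3 h7

end S_ky_fan_sub

section S_core

open scoped ComplexOrder MatrixOrder
open Matrix
/-- extension of `h` by zero -/
noncomputable def core_H {n : ℕ} (h : Fin n → ℝ) (m : ℕ) : ℝ := if hm : m < n then h ⟨m, hm⟩ else 0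

/-- the weights -/
noncomputable def core_w {n : ℕ} (h : Fin n → ℝ) (m : ℕ) : ℝ := core_H h m - core_H h (m + 1)

lemma core_w_nonneg {n : ℕ} (h : Fin n → ℝ) (hh0 : ∀ i, 0 ≤ h i) (hhanti : Antitone h) (m : ℕ) :
    0 ≤ core_w h m := by
  unfold core_w core_H
  by_cases h1 : m + 1 < n
  · have h2 : m < n := by omega
    rw [dif_pos h1, dif_pos h2]
    have : h ⟨m + 1, h1⟩ ≤ h ⟨m, h2⟩ := hhanti (by simp [Fin.le_def])
    linarith
  · rw [dif_neg h1]
    by_cases h2 : m < n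
    · rw [dif_pos h2]
      have := hh0 ⟨m, h2⟩
      linarith
    · rw [dif_neg h2]; simp

lemma core_tele (f : ℕ → ℝ) (i n : ℕ) (hi : i ≤ n) :
    ∑ m ∈ Finset.range n, (f m - f (m + 1)) * (if i < m + 1 then 1 else 0) = f i - f n := by
  induction n with
  | zero =>
    obtain rfl : i = 0 := by omega
    simp
  | succ n ih =>
    rw [Finset.sum_range_succ]
    rcases Nat.lt_or_ge n i with h | h
    · obtain rfl : i = n + 1 := by omega
      have h1 : ∑ m ∈ Finset.range n, (f m - f (m + 1)) * (if n + 1 < m + 1 then (1 : ℝ) else 0) = 0 := by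
        apply Finset.sum_eq_zero
        intro m hm
        rw [Finset.mem_range] at hm
        rw [if_neg (by omega), mul_zero]
      rw [h1]
      simp
    · rw [ih h, if_pos (by omega)]
      ring

lemma core_h_eq {n : ℕ} (h : Fin n → ℝ) (i : Fin n) :
    ∑ m ∈ Finset.range n, core_w h m * (if (i : ℕ) < m + 1 then 1 else 0) = h i := by
  unfold core_w
  rw [core_tele (core_H h) i n i.2.le]
  unfold core_H
  rw [dif_pos i.2, dif_neg (lt_irrefl n)]
  simp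

/-- the layer -/
noncomputable def core_T {n : ℕ} (a b : Matrix (Fin n) (Fin n) ℂ) (ρ : Fin n → ℝ) (m : ℕ) :
    Matrix (Fin n) (Fin n) ℂ :=
  a * E n m * a + b * E n m * b -
      Matrix.diagonal (fun i : Fin n => (((if (i : ℕ) < m then ρ i ^ 2 else 0 : ℝ)) : ℂ))

lemma core_diag_eq {n : ℕ} (h : Fin n → ℝ) :
    Matrix.diagonal (fun i => ((h i : ℝ) : ℂ)) =
      ∑ m ∈ Finset.range n, ((core_w h m : ℝ) : ℂ) • E n (m + 1) := by
  ext i j
  rw [Matrix.sum_apply]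
  by_cases hij : i = j
  · subst hij
    rw [Matrix.diagonal_apply_eq]
    have h1 : ((∑ m ∈ Finset.range n, core_w h m * (if (i : ℕ) < m + 1 then 1 else 0) : ℝ) : ℂ)
        = (h i : ℂ) := by rw [core_h_eq h i]
    rw [← h1, Complex.ofReal_sum]
    apply Finset.sum_congr rfl
    intro m _
    rw [Matrix.smul_apply, E, Matrix.diagonal_apply_eq, smul_eq_mul, Complex.ofReal_mul]
    congr 1
    split_ifs <;> simp
  · rw [Matrix.diagonal_apply_ne _ hij]
    symm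
    apply Finset.sum_eq_zero
    intro m _
    rw [Matrix.smul_apply, E, Matrix.diagonal_apply_ne _ hij, smul_zero]

lemma core_diag_eq2 {n : ℕ} (ρ h : Fin n → ℝ) :
    Matrix.diagonal (fun i => ((ρ i ^ 2 * h i : ℝ) : ℂ)) =
      ∑ m ∈ Finset.range n, ((core_w h m : ℝ) : ℂ) •
        Matrix.diagonal (fun i : Fin n => (((if (i : ℕ) < m + 1 then ρ i ^ 2 else 0 : ℝ)) : ℂ)) := by
  ext i j
  rw [Matrix.sum_apply]
  by_cases hij : i = j
  · subst hij
    rw [Matrix.diagonal_apply_eq]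
    have h1 : ((ρ i ^ 2 * ∑ m ∈ Finset.range n,
        core_w h m * (if (i : ℕ) < m + 1 then 1 else 0) : ℝ) : ℂ)
        = ((ρ i ^ 2 * h i : ℝ) : ℂ) := by rw [core_h_eq h i]
    rw [← h1, Finset.mul_sum, Complex.ofReal_sum]
    apply Finset.sum_congr rfl
    intro m _
    rw [Matrix.smul_apply, Matrix.diagonal_apply_eq, smul_eq_mul, ← Complex.ofReal_mul]
    congr 1
    split_ifs <;> ring
  · rw [Matrix.diagonal_apply_ne _ hij]
    symm
    apply Finset.sum_eq_zero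
    intro m _
    rw [Matrix.smul_apply, Matrix.diagonal_apply_ne _ hij, smul_zero]

lemma core_mat_eq {n : ℕ} (a b : Matrix (Fin n) (Fin n) ℂ) (ρ h : Fin n → ℝ) :
    a * Matrix.diagonal (fun i => ((h i : ℝ) : ℂ)) * a
      + b * Matrix.diagonal (fun i => ((h i : ℝ) : ℂ)) * b
      - Matrix.diagonal (fun i => ((ρ i ^ 2 * h i : ℝ) : ℂ)) =
    ∑ m ∈ Finset.range n, ((core_w h m : ℝ) : ℂ) • core_T a b ρ (m + 1) := by
  rw [core_diag_eq h, core_diag_eq2 ρ h]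
  simp only [Finset.mul_sum, Finset.sum_mul, Matrix.mul_smul, Matrix.smul_mul]
  rw [← Finset.sum_add_distrib, ← Finset.sum_sub_distrib]
  apply Finset.sum_congr rfl
  intro m _
  rw [core_T, smul_sub, smul_add]

lemma core_qf_sub {n : ℕ} (A : Matrix (Fin n) (Fin n) ℂ) (d : Fin n → ℝ) (y : Fin n → ℂ) :
    qf (A - Matrix.diagonal (fun i => ((d i : ℝ) : ℂ))) y = qf A y - ∑ i, d i * ‖y i‖ ^ 2 := by
  unfold qf
  rw [Matrix.sub_mulVec, dotProduct_sub, Complex.sub_re]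
  congr 1
  simp only [dotProduct, Matrix.mulVec_diagonal, Pi.star_apply, Complex.re_sum]
  apply Finset.sum_congr rfl
  intro i _
  have : star (y i) * ((d i : ℂ) * y i) = ((d i * ‖y i‖ ^ 2 : ℝ) : ℂ) := by
    have h1 : star (y i) * y i = ((‖y i‖ ^ 2 : ℝ) : ℂ) := by
      rw [Complex.star_def, ← Complex.normSq_eq_conj_mul_self, Complex.normSq_eq_norm_sq]
    rw [Complex.ofReal_mul, ← h1]
    ring
  rw [this, Complex.ofReal_re]

/-- L8 -/
theorem core {n k : ℕ} (a b : Matrix (Fin n) (Fin n) ℂ) (ha : a.PosSemidef)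
    (hb : b.PosSemidef) (ρ h : Fin n → ℝ) (h0 : ∀ i, 0 ≤ ρ i) (hanti : Antitone ρ)
    (hh0 : ∀ i, 0 ≤ h i) (hhanti : Antitone h)
    (H4 : ∀ x : Fin n → ℂ, 1 / 2 * (qf (a ^ 4) x + qf (b ^ 4) x) ≤ ∑ i, ρ i ^ 4 * ‖x i‖ ^ 2)
    (hpos : ∀ j : Fin n, (j : ℕ) < k → 0 < ρ j)
    (hratio : ∀ i j : Fin n, (j : ℕ) < k → ρ i ≤ 5 / 4 * ρ j)
    (X : Matrix (Fin n) (Fin k) ℂ) (hX : Xᴴ * X = 1) :
    (Matrix.trace (Xᴴ * (a * Matrix.diagonal (fun i => ((h i : ℝ) : ℂ)) * a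
      + b * Matrix.diagonal (fun i => ((h i : ℝ) : ℂ)) * b
      - Matrix.diagonal (fun i => ((ρ i ^ 2 * h i : ℝ) : ℂ))) * X)).re
      ≤ ∑ j : Fin n, (if (j : ℕ) < k then ρ j ^ 2 * h j else 0) := by
  have hswap : ∀ x : Fin n → ℂ, 1 / 2 * (qf (b ^ 4) x + qf (a ^ 4) x) ≤ ∑ i, ρ i ^ 4 * ‖x i‖ ^ 2 :=
    fun x => by have := H4 x; linarith
  have hba : ∀ j : Fin n, (j : ℕ) < k → ∀ x : Fin n → ℂ,
      qf a x ≤ 3 / 2 * ρ j * ∑ i, ‖x i‖ ^ 2 := fun j hj x =>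
    bound_of_H4 a b ha hb ρ h0 (ρ j) (hpos j hj) (fun i => hratio i j hj) H4 x
  have hbb : ∀ j : Fin n, (j : ℕ) < k → ∀ x : Fin n → ℂ,
      qf b x ≤ 3 / 2 * ρ j * ∑ i, ‖x i‖ ^ 2 := fun j hj x =>
    bound_of_H4 b a hb ha ρ h0 (ρ j) (hpos j hj) (fun i => hratio i j hj) hswap x
  have hlayer : ∀ m : ℕ, (Matrix.trace (Xᴴ * core_T a b ρ (m + 1) * X)).re ≤
      ∑ j : Fin n, (if (j : ℕ) < k then (if (j : ℕ) < m + 1 then ρ j ^ 2 else 0) else 0) := by
    intro m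
    rcases Nat.lt_or_ge (m + 1) k with hmk | hmk
    · have hF := trace_F a b ha hb ρ h0 hanti H4 (m + 1) (fun j hj => hpos j (by omega))
        (fun j hj => hba j (by omega)) (fun j hj => hbb j (by omega))
      have h1 := layer_high a b ha.isHermitian hb.isHermitian ρ (m + 1) hF X hX
      refine h1.trans (le_of_eq ?_)
      apply Finset.sum_congr rfl
      intro j _
      by_cases hj : (j : ℕ) < m + 1
      · rw [if_pos hj, if_pos (by omega)]
      · rw [if_neg hj, ite_self]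
    · have h1 := ky_fan_sub (core_T a b ρ (m + 1)) (fun j => ρ j ^ 2) (fun j hj y hy => by
        have h2 := layer_low a b ha hb ρ h0 H4 j (hpos j hj) (fun i hi => hanti hi) (hba j hj)
          (hbb j hj) (m + 1) (by omega) y hy
        rw [core_T, core_qf_sub]
        exact h2) X hX
      refine h1.trans (le_of_eq ?_)
      apply Finset.sum_congr rfl
      intro j _
      by_cases hj : (j : ℕ) < k
      · rw [if_pos hj, if_pos hj, if_pos (by omega)]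
      · rw [if_neg hj, if_neg hj]
  rw [core_mat_eq]
  have htr : (Matrix.trace (Xᴴ * (∑ m ∈ Finset.range n, ((core_w h m : ℝ) : ℂ) •
      core_T a b ρ (m + 1)) * X)).re =
      ∑ m ∈ Finset.range n, core_w h m * (Matrix.trace (Xᴴ * core_T a b ρ (m + 1) * X)).re := by
    simp only [Matrix.mul_sum, Matrix.sum_mul, Matrix.mul_smul, Matrix.smul_mul, Matrix.trace_sum,
      Matrix.trace_smul, Complex.re_sum, smul_eq_mul, Complex.re_ofReal_mul]
  rw [htr]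
  calc ∑ m ∈ Finset.range n, core_w h m * (Matrix.trace (Xᴴ * core_T a b ρ (m + 1) * X)).re
      ≤ ∑ m ∈ Finset.range n, core_w h m *
        ∑ j : Fin n, (if (j : ℕ) < k then (if (j : ℕ) < m + 1 then ρ j ^ 2 else 0) else 0) := by
        apply Finset.sum_le_sum
        intro m _
        exact mul_le_mul_of_nonneg_left (hlayer m) (core_w_nonneg h hh0 hhanti m)
    _ = ∑ j : Fin n, (if (j : ℕ) < k then ρ j ^ 2 * h j else 0) := by
        simp only [Finset.mul_sum]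
        rw [Finset.sum_comm]
        apply Finset.sum_congr rfl
        intro j _
        by_cases hj : (j : ℕ) < k
        · simp only [if_pos hj]
          rw [← core_h_eq h j, Finset.mul_sum]
          apply Finset.sum_congr rfl
          intro m _
          split_ifs <;> ring
        · simp only [if_neg hj, mul_zero, Finset.sum_const_zero]

end S_core

section S_cs_frames

open scoped ComplexOrder MatrixOrder
open Matrix
theorem cs_tr {n k : ℕ} (A B : Matrix (Fin n) (Fin k) ℂ) :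
    Matrix.trace (Aᴴ * B) = ∑ j, ∑ i, star (A i j) * B i j := by
  unfold Matrix.trace
  refine Finset.sum_congr rfl fun j _ => ?_
  rw [Matrix.diag_apply, Matrix.mul_apply]
  rfl

theorem cs_tr_self {n k : ℕ} (A : Matrix (Fin n) (Fin k) ℂ) :
    (Matrix.trace (Aᴴ * A)).re = ∑ j, ∑ i, ‖A i j‖ ^ 2 := by
  rw [cs_tr, Complex.re_sum]
  refine Finset.sum_congr rfl fun j _ => ?_
  rw [Complex.re_sum]
  refine Finset.sum_congr rfl fun i _ => ?_
  rw [Complex.star_def, ← Complex.normSq_eq_conj_mul_self, Complex.ofReal_re,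
    Complex.normSq_eq_norm_sq]

theorem cs_fam {n k : ℕ} (A B : Fin 2 → Matrix (Fin n) (Fin k) ℂ) :
    ‖∑ b, Matrix.trace ((A b)ᴴ * B b)‖ ^ 2 ≤
      (∑ b, (Matrix.trace ((A b)ᴴ * A b)).re) * (∑ b, (Matrix.trace ((B b)ᴴ * B b)).re) := by
  have h1 : ‖∑ b, Matrix.trace ((A b)ᴴ * B b)‖ ≤
      ∑ x : Fin 2 × Fin k × Fin n, ‖A x.1 x.2.2 x.2.1‖ * ‖B x.1 x.2.2 x.2.1‖ := by
    rw [Fintype.sum_prod_type]
    refine (norm_sum_le _ _).trans (Finset.sum_le_sum fun b _ => ?_)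
    rw [Fintype.sum_prod_type, cs_tr]
    refine (norm_sum_le _ _).trans (Finset.sum_le_sum fun j _ => ?_)
    refine (norm_sum_le _ _).trans (Finset.sum_le_sum fun i _ => ?_)
    rw [norm_mul, norm_star]
  have h2 := Finset.sum_mul_sq_le_sq_mul_sq (Finset.univ : Finset (Fin 2 × Fin k × Fin n))
    (fun x => ‖A x.1 x.2.2 x.2.1‖) (fun x => ‖B x.1 x.2.2 x.2.1‖)
  have h3 : ∀ C : Fin 2 → Matrix (Fin n) (Fin k) ℂ, ∑ b, (Matrix.trace ((C b)ᴴ * C b)).re =
      ∑ x : Fin 2 × Fin k × Fin n, ‖C x.1 x.2.2 x.2.1‖ ^ 2 := by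
    intro C
    rw [Fintype.sum_prod_type]
    refine Finset.sum_congr rfl fun b _ => ?_
    rw [Fintype.sum_prod_type, cs_tr_self]
  rw [h3 A, h3 B]
  exact (pow_le_pow_left₀ (norm_nonneg _) h1 2).trans h2

/-- L9 -/
theorem cs_frames {n k : ℕ} (L₁ L₂ M₁ M₂ : Matrix (Fin n) (Fin n) ℂ)
    (X Y : Matrix (Fin n) (Fin k) ℂ) :
    ‖Matrix.trace (Xᴴ * (L₁ * M₁ + L₂ * M₂) * Y)‖ ^ 2
      ≤ (Matrix.trace (Xᴴ * (L₁ * L₁ᴴ + L₂ * L₂ᴴ) * X)).re
        * (Matrix.trace (Yᴴ * (M₁ᴴ * M₁ + M₂ᴴ * M₂) * Y)).re := by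
  have h := cs_fam ![L₁ᴴ * X, L₂ᴴ * X] ![M₁ * Y, M₂ * Y]
  simp only [Fin.sum_univ_two, Matrix.cons_val_zero, Matrix.cons_val_one] at h
  have e1 : Matrix.trace (Xᴴ * (L₁ * M₁ + L₂ * M₂) * Y) =
      Matrix.trace ((L₁ᴴ * X)ᴴ * (M₁ * Y)) + Matrix.trace ((L₂ᴴ * X)ᴴ * (M₂ * Y)) := by
    rw [← Matrix.trace_add]
    congr 1
    simp only [Matrix.conjTranspose_mul, Matrix.conjTranspose_conjTranspose, Matrix.mul_add,
      Matrix.add_mul, Matrix.mul_assoc]
  have e2 : Matrix.trace (Xᴴ * (L₁ * L₁ᴴ + L₂ * L₂ᴴ) * X) =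
      Matrix.trace ((L₁ᴴ * X)ᴴ * (L₁ᴴ * X)) + Matrix.trace ((L₂ᴴ * X)ᴴ * (L₂ᴴ * X)) := by
    rw [← Matrix.trace_add]
    congr 1
    simp only [Matrix.conjTranspose_mul, Matrix.conjTranspose_conjTranspose, Matrix.mul_add,
      Matrix.add_mul, Matrix.mul_assoc]
  have e3 : Matrix.trace (Yᴴ * (M₁ᴴ * M₁ + M₂ᴴ * M₂) * Y) =
      Matrix.trace ((M₁ * Y)ᴴ * (M₁ * Y)) + Matrix.trace ((M₂ * Y)ᴴ * (M₂ * Y)) := by
    rw [← Matrix.trace_add]
    congr 1
    simp only [Matrix.conjTranspose_mul, Matrix.mul_add, Matrix.add_mul, Matrix.mul_assoc]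
  rw [e1, e2, e3, Complex.add_re, Complex.add_re]
  exact h

end S_cs_frames

section S_T_le

section CStar

variable {𝔄 : Type*} [CStarAlgebra 𝔄] [PartialOrder 𝔄] [StarOrderedRing 𝔄]

theorem T_le_add (a : 𝔄) (x y : ℝ) (hx : 0 < x) (hy : 0 < y) :
    a ^ x * a ^ y = a ^ (x + y) := by
  have h := CFC.nnrpow_add (a := a) (x := ⟨x, hx.le⟩) (y := ⟨y, hy.le⟩) hx hy
  rw [CFC.nnrpow_eq_rpow (a := a) (x := ⟨x, hx.le⟩) hx,
    CFC.nnrpow_eq_rpow (a := a) (x := ⟨y, hy.le⟩) hy,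
    CFC.nnrpow_eq_rpow (a := a) (x := ⟨x, hx.le⟩ + ⟨y, hy.le⟩) (add_pos (by exact hx) (by exact hy))] at h
  exact h.symm

theorem T_le_smul (a : 𝔄) (ha : 0 ≤ a) (x : ℝ) (hx : 0 < x) :
    ((2 : ℝ) • a) ^ x = ((2 : ℝ) ^ x) • a ^ x := by
  have ha2 : 0 ≤ (2 : ℝ) • a := smul_nonneg (by norm_num) ha
  rw [CFC.rpow_eq_cfc_real ha2, CFC.rpow_eq_cfc_real ha]
  have hc : Continuous (fun t : ℝ => t ^ x) := Real.continuous_rpow_const hx.le
  rw [← cfc_comp_smul (2 : ℝ) (fun t : ℝ => t ^ x) a hc.continuousOn,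
    ← cfc_const_mul ((2 : ℝ) ^ x) (fun t : ℝ => t ^ x) a hc.continuousOn]
  refine cfc_congr fun t ht => ?_
  have ht0 : 0 ≤ t := spectrum_nonneg_of_nonneg ha ht
  simp only [smul_eq_mul]
  exact Real.mul_rpow (by norm_num) ht0

theorem T_le_half (a b : 𝔄) (ha : 0 ≤ a) (hb : 0 ≤ b) (t : ℝ) (ht0 : 0 < t) (ht1 : t < 1 / 2) :
    a + a ^ t * b ^ (1 - 2 * t) * a ^ t ≤
      ((2 : ℝ) • a) ^ t * (a + b) ^ (1 - 2 * t) * ((2 : ℝ) • a) ^ t := by
  have hr : 0 < 1 - 2 * t := by linarith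
  have ha2 : 0 ≤ (2 : ℝ) • a := smul_nonneg (by norm_num) ha
  have hb2 : 0 ≤ (2 : ℝ) • b := smul_nonneg (by norm_num) hb
  have hconc : (1 / 2 : ℝ) • ((2 : ℝ) • a) ^ (1 - 2 * t) + (1 / 2 : ℝ) • ((2 : ℝ) • b) ^ (1 - 2 * t) ≤
      ((1 / 2 : ℝ) • (2 : ℝ) • a + (1 / 2 : ℝ) • (2 : ℝ) • b) ^ (1 - 2 * t) :=
    (CFC.concaveOn_rpow (A := 𝔄) (p := 1 - 2 * t) ⟨hr.le, by linarith⟩).2
      (show (2 : ℝ) • a ∈ Set.Ici 0 from ha2) (show (2 : ℝ) • b ∈ Set.Ici 0 from hb2)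
      (by norm_num) (by norm_num) (by norm_num)
  have hs : (1 / 2 : ℝ) • (2 : ℝ) • a + (1 / 2 : ℝ) • (2 : ℝ) • b = a + b := by
    rw [smul_smul, smul_smul]; norm_num
  rw [hs] at hconc
  have hc := conjugate_le_conjugate_of_nonneg hconc (c := ((2 : ℝ) • a) ^ t) CFC.rpow_nonneg
  refine le_trans (le_of_eq ?_) hc
  have h1 : ((2 : ℝ) • a) ^ t * ((2 : ℝ) • a) ^ (1 - 2 * t) * ((2 : ℝ) • a) ^ t = (2 : ℝ) • a := by
    rw [T_le_add _ _ _ ht0 hr, T_le_add _ _ _ (by linarith) ht0,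
      show t + (1 - 2 * t) + t = 1 by ring, CFC.rpow_one _ ha2]
  have h2 : ((2 : ℝ) • a) ^ t * ((2 : ℝ) • b) ^ (1 - 2 * t) * ((2 : ℝ) • a) ^ t =
      (2 : ℝ) • (a ^ t * b ^ (1 - 2 * t) * a ^ t) := by
    rw [T_le_smul a ha t ht0, T_le_smul b hb _ hr]
    simp only [smul_mul_assoc, mul_smul_comm, smul_smul]
    congr 1
    rw [← Real.rpow_add (by norm_num), ← Real.rpow_add (by norm_num),
      show t + ((1 - 2 * t) + t) = 1 by ring, Real.rpow_one]
  rw [mul_add, add_mul, mul_smul_comm, mul_smul_comm, smul_mul_assoc, smul_mul_assoc, h1, h2,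
    smul_smul, smul_smul]
  norm_num

/-- C1 -/
theorem T_le (a b : 𝔄) (ha : 0 ≤ a) (hb : 0 ≤ b) (t : ℝ) (ht0 : 0 < t) (ht1 : t < 1 / 2) :
    a ^ t * b ^ (1 - 2 * t) * a ^ t + b ^ t * a ^ (1 - 2 * t) * b ^ t ≤
      ((2 : ℝ) • a) ^ t * (a + b) ^ (1 - 2 * t) * ((2 : ℝ) • a) ^ t
      + ((2 : ℝ) • b) ^ t * (a + b) ^ (1 - 2 * t) * ((2 : ℝ) • b) ^ t - (a + b) := by
  have h1 := T_le_half a b ha hb t ht0 ht1
  have h2 := T_le_half b a hb ha t ht0 ht1
  rw [add_comm b a] at h2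
  rw [le_sub_iff_add_le]
  calc a ^ t * b ^ (1 - 2 * t) * a ^ t + b ^ t * a ^ (1 - 2 * t) * b ^ t + (a + b)
      = (a + a ^ t * b ^ (1 - 2 * t) * a ^ t) + (b + b ^ t * a ^ (1 - 2 * t) * b ^ t) := by abel
    _ ≤ _ := add_le_add h1 h2

end CStar

end S_T_le

section S_H4_le

section CStar

variable {𝔄 : Type*} [CStarAlgebra 𝔄] [PartialOrder 𝔄] [StarOrderedRing 𝔄]

/-- C2 -/
theorem H4_le (a b : 𝔄) (ha : 0 ≤ a) (hb : 0 ≤ b) (t : ℝ) (ht0 : 0 < t) (ht1 : t ≤ 1 / 4) :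
    (1 / 2 : ℝ) • ((((2 : ℝ) • a) ^ t) ^ 4 + (((2 : ℝ) • b) ^ t) ^ 4) ≤ (a + b) ^ (4 * t) := by
  have key : ∀ c : 𝔄, 0 ≤ c → (c ^ t) ^ 4 = c ^ (4 * t) := by
    intro c hc
    have h1 : ((c ^ t) ^ (4 : ℕ) : 𝔄) = (c ^ t) ^ ((4 : ℕ) : ℝ) :=
      (CFC.rpow_natCast (c ^ t) 4 CFC.rpow_nonneg).symm
    rw [h1, CFC.rpow_rpow_of_exponent_nonneg c t ((4 : ℕ) : ℝ) ht0.le (by positivity) hc]
    congr 1
    push_cast
    ring
  have ha2 : 0 ≤ (2 : ℝ) • a := smul_nonneg (by norm_num) ha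
  have hb2 : 0 ≤ (2 : ℝ) • b := smul_nonneg (by norm_num) hb
  rw [key _ ha2, key _ hb2]
  have hconc := CFC.concaveOn_rpow (A := 𝔄) (p := 4 * t) ⟨by linarith, by linarith⟩
  have h := hconc.2 ha2 hb2 (by norm_num : (0:ℝ) ≤ 1 / 2) (by norm_num : (0:ℝ) ≤ 1 / 2) (by norm_num)
  have e1 : (1 / 2 : ℝ) • ((2 : ℝ) • a) + (1 / 2 : ℝ) • ((2 : ℝ) • b) = a + b := by
    rw [smul_smul, smul_smul]
    norm_num
  rw [e1] at h
  rw [smul_add]
  exact h

end CStar

end S_H4_le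

section S_factor_ids

open scoped ComplexOrder MatrixOrder Matrix.Norms.L2Operator
open Matrix
section CStar

variable {𝔄 : Type*} [CStarAlgebra 𝔄] [PartialOrder 𝔄] [StarOrderedRing 𝔄]



theorem h445_rpow_add (a : 𝔄) {x y : ℝ} (hx : 0 < x) (hy : 0 < y) :
    a ^ x * a ^ y = a ^ (x + y) := by
  lift x to NNReal using hx.le
  lift y to NNReal using hy.le
  have hx' : (0 : NNReal) < x := by exact_mod_cast hx
  have hy' : (0 : NNReal) < y := by exact_mod_cast hy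
  rw [← CFC.nnrpow_eq_rpow hx', ← CFC.nnrpow_eq_rpow hy', ← CFC.nnrpow_add hx' hy',
    CFC.nnrpow_eq_rpow (add_pos hx' hy'), NNReal.coe_add]

/-- C3 -/
theorem factor_ids (a b : 𝔄) (ha : 0 ≤ a) (hb : 0 ≤ b) (t : ℝ) (ht0 : 0 < t) (ht1 : t ≤ 1 / 4) :
    a ^ t * b ^ (1 / 2 - t) * b ^ (1 / 2 : ℝ) = a ^ t * b ^ (1 - t) ∧
    a ^ t * b ^ (1 / 2 - t) * star (a ^ t * b ^ (1 / 2 - t)) = a ^ t * b ^ (1 - 2 * t) * a ^ t ∧
    star (b ^ (1 / 2 : ℝ)) * b ^ (1 / 2 : ℝ) = b ∧ 0 ≤ a ^ t ∧ IsSelfAdjoint (a ^ t) := by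
  have hat : (0 : 𝔄) ≤ a ^ t := CFC.rpow_nonneg
  have hbs : (0 : 𝔄) ≤ b ^ (1 / 2 - t) := CFC.rpow_nonneg
  have hbh : (0 : 𝔄) ≤ b ^ (1 / 2 : ℝ) := CFC.rpow_nonneg
  have ea : star (a ^ t) = a ^ t := (IsSelfAdjoint.of_nonneg hat).star_eq
  have eb : star (b ^ (1 / 2 - t)) = b ^ (1 / 2 - t) := (IsSelfAdjoint.of_nonneg hbs).star_eq
  have eh : star (b ^ (1 / 2 : ℝ)) = b ^ (1 / 2 : ℝ) := (IsSelfAdjoint.of_nonneg hbh).star_eq
  refine ⟨?_, ?_, ?_, hat, IsSelfAdjoint.of_nonneg hat⟩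
  · rw [mul_assoc, h445_rpow_add b (by linarith) (by norm_num)]
    congr 2
    ring
  · rw [star_mul, ea, eb]
    have h1 : b ^ (1 / 2 - t) * b ^ (1 / 2 - t) = b ^ (1 - 2 * t) := by
      rw [h445_rpow_add b (by linarith) (by linarith)]
      congr 1
      ring
    rw [← h1]
    simp only [mul_assoc]
  · rw [eh, h445_rpow_add b (by norm_num) (by norm_num)]
    have h2 : (1 / 2 + 1 / 2 : ℝ) = 1 := by norm_num
    rw [h2, CFC.rpow_one b hb]

end CStar

end S_factor_ids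

section S_diag_rpow

open scoped ComplexOrder MatrixOrder Matrix.Norms.L2Operator
open Matrix
/-- M1 -/
theorem diag_rpow {n : ℕ} (σ : Fin n → ℝ) (hσ : ∀ i, 0 ≤ σ i) (p : ℝ) (hp : 0 < p) :
    (Matrix.diagonal (fun i => ((σ i : ℝ) : ℂ)) : Matrix (Fin n) (Fin n) ℂ) ^ p
      = Matrix.diagonal (fun i => ((σ i ^ p : ℝ) : ℂ)) := by
  classical
  set v : Fin n → ℂ := fun i => ((σ i : ℝ) : ℂ) with hv
  have hnn : (0 : Matrix (Fin n) (Fin n) ℂ) ≤ Matrix.diagonal v := by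
    rw [Matrix.nonneg_iff_posSemidef, Matrix.posSemidef_diagonal_iff]
    intro i
    show (0 : ℂ) ≤ ((σ i : ℝ) : ℂ)
    exact_mod_cast hσ i
  have hsa : IsSelfAdjoint (Matrix.diagonal v) := IsSelfAdjoint.of_nonneg hnn
  rw [CFC.rpow_eq_cfc_real hnn]
  set S : Finset ℝ := Finset.univ.image σ with hS
  set P : Polynomial ℝ := Lagrange.interpolate S id (fun x => x ^ p) with hP
  have hPe : ∀ x ∈ S, P.eval x = x ^ p := by
    intro x hx
    exact Lagrange.eval_interpolate_at_node (v := id) (fun x => x ^ p) (Function.injective_id.injOn) hx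
  have hspec : spectrum ℝ (Matrix.diagonal v) ⊆ (S : Set ℝ) := by
    intro x hx
    have h1 : algebraMap ℝ ℂ x ∈ spectrum ℂ (Matrix.diagonal v) :=
      (spectrum.algebraMap_mem_iff ℂ).mpr hx
    rw [_root_.spectrum_diagonal] at h1
    obtain ⟨i, hi⟩ := h1
    have h2 : σ i = x := by
      have : ((σ i : ℝ) : ℂ) = ((x : ℝ) : ℂ) := hi
      exact_mod_cast this
    rw [← h2, hS]
    simp
  have h1 : cfc (fun x : ℝ => x ^ p) (Matrix.diagonal v) = cfc P.eval (Matrix.diagonal v) := by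
    refine cfc_congr ?_
    intro x hx
    exact (hPe x (hspec hx)).symm
  rw [h1, cfc_polynomial P _ hsa]
  have h2 : Polynomial.aeval (Matrix.diagonal v) P =
      Matrix.diagonal (Polynomial.aeval v P) := by
    have := Polynomial.aeval_algHom_apply (Matrix.diagonalAlgHom (n := Fin n) (α := ℂ) ℝ) v P
    exact this
  rw [h2]
  congr 1
  funext i
  rw [Polynomial.aeval_pi_apply]
  have h3 : Polynomial.aeval (v i) P = ((P.eval (σ i) : ℝ) : ℂ) := by
    have := Polynomial.aeval_algebraMap_apply ℂ (σ i) P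
    rw [hv]
    simpa using this
  show Polynomial.aeval (v i) P = _
  rw [h3, hPe (σ i) (by rw [hS]; simp)]

end S_diag_rpow

section S_conj_rpow

open scoped ComplexOrder MatrixOrder Matrix.Norms.L2Operator
open Matrix
/-- M2 -/
theorem conj_rpow {n : ℕ} (U A : Matrix (Fin n) (Fin n) ℂ)
    (hU : U ∈ Matrix.unitaryGroup (Fin n) ℂ) (hA : A.PosSemidef) (p : ℝ) (hp : 0 < p) :
    (Uᴴ * A * U) ^ p = Uᴴ * A ^ p * U := by
  have hA0 : 0 ≤ A := Matrix.nonneg_iff_posSemidef.mpr hA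
  have hB0 : 0 ≤ Uᴴ * A * U := Matrix.nonneg_iff_posSemidef.mpr (hA.conjTranspose_mul_mul_same U)
  have hUs : Uᴴ ∈ unitary (Matrix (Fin n) (Fin n) ℂ) := by
    have := Unitary.star_mem hU
    exact this
  set φ := Unitary.conjStarAlgAut ℝ (Matrix (Fin n) (Fin n) ℂ) ⟨Uᴴ, hUs⟩ with hφ
  have hφa : ∀ x, φ x = Uᴴ * x * U := by
    intro x
    rw [hφ, Unitary.conjStarAlgAut_apply]
    simp [Matrix.star_eq_conjTranspose]
  rw [CFC.rpow_eq_cfc_real hB0, CFC.rpow_eq_cfc_real hA0, ← hφa, ← hφa]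
  have hcont : Continuous φ := by
    have : (φ : Matrix (Fin n) (Fin n) ℂ → Matrix (Fin n) (Fin n) ℂ) = fun x => Uᴴ * x * U := by
      funext x; exact hφa x
    rw [this]
    fun_prop
  have hc : ContinuousOn (fun x : ℝ => x ^ p) (spectrum ℝ A) :=
    (Real.continuous_rpow_const hp.le).continuousOn
  have hA1 : IsSelfAdjoint A := IsSelfAdjoint.of_nonneg hA0
  have hB1 : IsSelfAdjoint (φ A) := by rw [hφa]; exact IsSelfAdjoint.of_nonneg hB0
  exact (StarAlgHomClass.map_cfc (S := ℝ) φ (fun x : ℝ => x ^ p) A hc hcont hA1 hB1).symm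

end S_conj_rpow

section S_diag_case

open scoped ComplexOrder MatrixOrder Matrix.Norms.L2Operator
open Matrix
theorem diag_case_qf_diag {n : ℕ} (d : Fin n → ℝ) (x : Fin n → ℂ) :
    qf (Matrix.diagonal (fun i => ((d i : ℝ) : ℂ))) x = ∑ i, d i * ‖x i‖ ^ 2 := by
  unfold qf
  rw [dotProduct, Complex.re_sum]
  refine Finset.sum_congr rfl fun i _ => ?_
  rw [Matrix.mulVec_diagonal, Pi.star_apply]
  have h1 : star (x i) * (((d i : ℝ) : ℂ) * x i) = ((d i * ‖x i‖ ^ 2 : ℝ) : ℂ) := by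
    have h2 : star (x i) * x i = ((‖x i‖ ^ 2 : ℝ) : ℂ) := by
      rw [Complex.star_def, Complex.conj_mul', Complex.ofReal_pow]
    calc star (x i) * (((d i : ℝ) : ℂ) * x i) = ((d i : ℝ) : ℂ) * (star (x i) * x i) := by ring
      _ = _ := by rw [h2]; push_cast; ring
  rw [h1, Complex.ofReal_re]

theorem diag_case_trace_mono {n k : ℕ} {M N : Matrix (Fin n) (Fin n) ℂ} (h : M ≤ N)
    (X : Matrix (Fin n) (Fin k) ℂ) :
    (Matrix.trace (Xᴴ * M * X)).re ≤ (Matrix.trace (Xᴴ * N * X)).re := by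
  have h1 : (N - M).PosSemidef := Matrix.le_iff.mp h
  have h2 : (Xᴴ * (N - M) * X).PosSemidef := h1.conjTranspose_mul_mul_same X
  have h3 : 0 ≤ Matrix.trace (Xᴴ * (N - M) * X) := h2.trace_nonneg
  have h4 : 0 ≤ (Matrix.trace (Xᴴ * (N - M) * X)).re := (Complex.le_def.mp h3).1
  rw [Matrix.mul_sub, Matrix.sub_mul, Matrix.trace_sub, Complex.sub_re] at h4
  linarith

theorem diag_case_qf_mono {n : ℕ} {M N : Matrix (Fin n) (Fin n) ℂ} (h : M ≤ N)
    (x : Fin n → ℂ) : qf M x ≤ qf N x := by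
  have h1 : (N - M).PosSemidef := Matrix.le_iff.mp h
  have h3 : 0 ≤ (star x ⬝ᵥ ((N - M) *ᵥ x)).re := h1.re_dotProduct_nonneg x
  rw [Matrix.sub_mulVec, dotProduct_sub, Complex.sub_re] at h3
  unfold qf
  linarith

/-- M3 -/
theorem diag_case {n k : ℕ} (A B : Matrix (Fin n) (Fin n) ℂ) (hA : A.PosSemidef)
    (hB : B.PosSemidef) (σ : Fin n → ℝ) (hσ0 : ∀ i, 0 ≤ σ i) (hσ : Antitone σ)
    (hS : A + B = Matrix.diagonal (fun i => ((σ i : ℝ) : ℂ))) (t : ℝ) (ht0 : 0 < t)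
    (ht1 : t ≤ 1 / 4) (hpos : ∀ j : Fin n, (j : ℕ) < k → 0 < σ j)
    (hratio : ∀ i j : Fin n, (j : ℕ) < k → σ i ^ t ≤ 5 / 4 * σ j ^ t)
    (X Y : Matrix (Fin n) (Fin k) ℂ) (hX : Xᴴ * X = 1) (hY : Yᴴ * Y = 1) :
    ‖Matrix.trace (Xᴴ * (A ^ t * B ^ (1 - t) + B ^ t * A ^ (1 - t)) * Y)‖
      ≤ ∑ j : Fin n, (if (j : ℕ) < k then σ j else 0) := by
  have hA' : 0 ≤ A := Matrix.nonneg_iff_posSemidef.mpr hA
  have hB' : 0 ≤ B := Matrix.nonneg_iff_posSemidef.mpr hB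
  have hr0 : 0 < 1 - 2 * t := by linarith
  obtain ⟨a1, a2, a3, a4, a5⟩ := factor_ids A B hA' hB' t ht0 ht1
  obtain ⟨b1, b2, b3, b4, b5⟩ := factor_ids B A hB' hA' t ht0 ht1
  set S : ℝ := ∑ j : Fin n, (if (j : ℕ) < k then σ j else 0) with hSdef
  have hS0 : 0 ≤ S := Finset.sum_nonneg fun j _ => by
    split_ifs
    · exact hσ0 j
    · exact le_rfl
  have hcs := cs_frames (A ^ t * B ^ (1 / 2 - t)) (B ^ t * A ^ (1 / 2 - t)) (B ^ (1 / 2 : ℝ))
    (A ^ (1 / 2 : ℝ)) X Y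
  rw [a1, b1] at hcs
  rw [Matrix.star_eq_conjTranspose] at a2 b2 a3 b3
  rw [a2, b2, a3, b3, add_comm B A, hS] at hcs
  have hY2 : (Matrix.trace (Yᴴ * Matrix.diagonal (fun i => ((σ i : ℝ) : ℂ)) * Y)).re ≤ S := by
    refine ky_fan_sub _ σ ?_ Y hY
    intro j _ y hy
    rw [diag_case_qf_diag, Finset.mul_sum]
    refine Finset.sum_le_sum fun i _ => ?_
    by_cases hij : i < j
    · rw [hy i hij]
      simp
    · exact mul_le_mul_of_nonneg_right (hσ (not_lt.mp hij)) (by positivity)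
  have hY0 : 0 ≤ (Matrix.trace (Yᴴ * Matrix.diagonal (fun i => ((σ i : ℝ) : ℂ)) * Y)).re := by
    have h0 : (0 : Matrix (Fin n) (Fin n) ℂ) ≤ Matrix.diagonal (fun i => ((σ i : ℝ) : ℂ)) := by
      rw [← hS]
      exact add_nonneg hA' hB'
    have h1 := diag_case_trace_mono h0 Y
    rw [Matrix.mul_zero, Matrix.zero_mul, Matrix.trace_zero, Complex.zero_re] at h1
    exact h1
  have hid : ∀ i, (σ i ^ t) ^ 2 * σ i ^ (1 - 2 * t) = σ i := by
    intro i
    rcases (hσ0 i).eq_or_lt with h | h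
    · rw [← h, Real.zero_rpow ht0.ne']
      simp
    · rw [← Real.rpow_natCast (σ i ^ t) 2, ← Real.rpow_mul h.le, ← Real.rpow_add h]
      have : t * ((2 : ℕ) : ℝ) + (1 - 2 * t) = 1 := by push_cast; ring
      rw [this, Real.rpow_one]
  have hX2 : (Matrix.trace (Xᴴ * (A ^ t * B ^ (1 - 2 * t) * A ^ t + B ^ t * A ^ (1 - 2 * t) * B ^ t)
      * X)).re ≤ S := by
    have hT := T_le A B hA' hB' t ht0 (by linarith)
    refine (diag_case_trace_mono hT X).trans ?_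
    have hrp : (A + B) ^ (1 - 2 * t) = Matrix.diagonal (fun i => ((σ i ^ (1 - 2 * t) : ℝ) : ℂ)) := by
      rw [hS]
      exact diag_rpow σ hσ0 _ hr0
    rw [hrp, hS]
    have hdd : (Matrix.diagonal (fun i => ((σ i : ℝ) : ℂ)) : Matrix (Fin n) (Fin n) ℂ) =
        Matrix.diagonal (fun i => (((σ i ^ t) ^ 2 * σ i ^ (1 - 2 * t) : ℝ) : ℂ)) := by
      congr 1
      funext i
      rw [hid i]
    rw [hdd]
    have ha : (((2 : ℝ) • A) ^ t).PosSemidef := Matrix.nonneg_iff_posSemidef.mp CFC.rpow_nonneg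
    have hb : (((2 : ℝ) • B) ^ t).PosSemidef := Matrix.nonneg_iff_posSemidef.mp CFC.rpow_nonneg
    have hcore := core (k := k) (((2 : ℝ) • A) ^ t) (((2 : ℝ) • B) ^ t) ha hb
      (fun i => σ i ^ t) (fun i => σ i ^ (1 - 2 * t))
      (fun i => Real.rpow_nonneg (hσ0 i) _)
      (fun i j hij => Real.rpow_le_rpow (hσ0 j) (hσ hij) ht0.le)
      (fun i => Real.rpow_nonneg (hσ0 i) _)
      (fun i j hij => Real.rpow_le_rpow (hσ0 j) (hσ hij) hr0.le)
      ?_ (fun j hj => Real.rpow_pos_of_pos (hpos j hj) _) hratio X hX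
    · refine hcore.trans (le_of_eq ?_)
      refine Finset.sum_congr rfl fun j _ => ?_
      split_ifs
      · exact hid j
      · rfl
    · intro x
      have h4 := H4_le A B hA' hB' t ht0 ht1
      rw [hS, diag_rpow σ hσ0 (4 * t) (by linarith)] at h4
      have h5 := diag_case_qf_mono h4 x
      rw [diag_case_qf_diag] at h5
      have h6 : qf ((1 / 2 : ℝ) • ((((2 : ℝ) • A) ^ t) ^ 4 + (((2 : ℝ) • B) ^ t) ^ 4)) x =
          1 / 2 * (qf ((((2 : ℝ) • A) ^ t) ^ 4) x + qf ((((2 : ℝ) • B) ^ t) ^ 4) x) := by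
        unfold qf
        rw [Matrix.smul_mulVec, Matrix.add_mulVec, dotProduct_smul, dotProduct_add,
          Complex.smul_re, Complex.add_re, smul_eq_mul]
      rw [h6] at h5
      refine h5.trans (le_of_eq ?_)
      refine Finset.sum_congr rfl fun i _ => ?_
      congr 1
      show σ i ^ (4 * t) = (σ i ^ t) ^ 4
      rw [← Real.rpow_natCast (σ i ^ t) 4, ← Real.rpow_mul (hσ0 i)]
      congr 1
      push_cast
      ring
  have hfin : ‖Matrix.trace (Xᴴ * (A ^ t * B ^ (1 - t) + B ^ t * A ^ (1 - t)) * Y)‖ ^ 2 ≤ S * S :=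
    hcs.trans (mul_le_mul hX2 hY2 hY0 hS0)
  by_contra hcon
  rw [not_le] at hcon
  have := mul_self_lt_mul_self hS0 hcon
  rw [← sq] at hfin this
  nlinarith [this, hfin]

end S_diag_case

section S_frames_bound

open scoped ComplexOrder MatrixOrder Matrix.Norms.L2Operator
open Matrix
theorem frames_bound_psd {n : ℕ} (A : Matrix (Fin n) (Fin n) ℂ) (p : ℝ) :
    (A ^ p).PosSemidef :=
  Matrix.nonneg_iff_posSemidef.1 CFC.rpow_nonneg

theorem frames_bound_main {n k : ℕ} (A B : Matrix (Fin n) (Fin n) ℂ) (hA : A.PosSemidef)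
    (hB : B.PosSemidef) (p q : ℝ) (hp : 0 < p) (hq : 0 < q) (hpq : p / (p + q) ≤ 1 / 4)
    (σ : Fin n → ℝ) (hσ : Antitone σ) (U : Matrix (Fin n) (Fin n) ℂ)
    (hU : U ∈ Matrix.unitaryGroup (Fin n) ℂ)
    (hS : A ^ (p + q) + B ^ (p + q) = U * Matrix.diagonal (fun i => ((σ i : ℝ) : ℂ)) * Uᴴ)
    (hpos : ∀ j : Fin n, (j : ℕ) < k → 0 < σ j)
    (hratio : ∀ i j : Fin n, (j : ℕ) < k →
      σ i ^ (p / (p + q)) ≤ 5 / 4 * σ j ^ (p / (p + q)))
    (X Y : Matrix (Fin n) (Fin k) ℂ) (hX : Xᴴ * X = 1) (hY : Yᴴ * Y = 1) :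
    ‖Matrix.trace (Xᴴ * (A ^ p * B ^ q + B ^ p * A ^ q) * Y)‖
      ≤ ∑ j : Fin n, (if (j : ℕ) < k then σ j else 0) := by
  have hUU : Uᴴ * U = 1 := Matrix.mem_unitaryGroup_iff'.1 hU
  have hUU' : U * Uᴴ = 1 := Matrix.mem_unitaryGroup_iff.1 hU
  have hpq0 : 0 < p + q := by linarith
  have hA0 : (0 : Matrix (Fin n) (Fin n) ℂ) ≤ A := Matrix.nonneg_iff_posSemidef.2 hA
  have hB0 : (0 : Matrix (Fin n) (Fin n) ℂ) ≤ B := Matrix.nonneg_iff_posSemidef.2 hB
  have ht0 : 0 < p / (p + q) := by positivity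
  have ht1 : 1 - p / (p + q) = q / (p + q) := by field_simp; ring
  have hq0 : 0 < q / (p + q) := by positivity
  have k1 : ∀ C : Matrix (Fin n) (Fin n) ℂ, 0 ≤ C →
      (Uᴴ * C ^ (p + q) * U) ^ (p / (p + q)) = Uᴴ * C ^ p * U := by
    intro C hC
    rw [conj_rpow U _ hU (frames_bound_psd C _) _ ht0,
      CFC.rpow_rpow_of_exponent_nonneg C (p + q) (p / (p + q)) hpq0.le ht0.le hC]
    congr 3
    field_simp
  have k2 : ∀ C : Matrix (Fin n) (Fin n) ℂ, 0 ≤ C →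
      (Uᴴ * C ^ (p + q) * U) ^ (1 - p / (p + q)) = Uᴴ * C ^ q * U := by
    intro C hC
    rw [ht1, conj_rpow U _ hU (frames_bound_psd C _) _ hq0,
      CFC.rpow_rpow_of_exponent_nonneg C (p + q) (q / (p + q)) hpq0.le hq0.le hC]
    congr 3
    field_simp
  have hPA : (Uᴴ * A ^ (p + q) * U).PosSemidef :=
    (frames_bound_psd A (p + q)).conjTranspose_mul_mul_same U
  have hPB : (Uᴴ * B ^ (p + q) * U).PosSemidef :=
    (frames_bound_psd B (p + q)).conjTranspose_mul_mul_same U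
  have hSum : Uᴴ * A ^ (p + q) * U + Uᴴ * B ^ (p + q) * U =
      Matrix.diagonal (fun i => ((σ i : ℝ) : ℂ)) := by
    rw [← Matrix.add_mul, ← Matrix.mul_add, hS]
    calc Uᴴ * (U * Matrix.diagonal (fun i => ((σ i : ℝ) : ℂ)) * Uᴴ) * U
        = (Uᴴ * U) * Matrix.diagonal (fun i => ((σ i : ℝ) : ℂ)) * (Uᴴ * U) := by
          simp only [Matrix.mul_assoc]
      _ = _ := by rw [hUU, Matrix.one_mul, Matrix.mul_one]
  have hσ0 : ∀ i, 0 ≤ σ i := by
    intro i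
    have h1 := hPA.add hPB
    rw [hSum, Matrix.posSemidef_diagonal_iff] at h1
    exact_mod_cast h1 i
  have hmain := diag_case (Uᴴ * A ^ (p + q) * U) (Uᴴ * B ^ (p + q) * U) hPA hPB σ hσ0 hσ hSum
    (p / (p + q)) ht0 hpq hpos hratio (Uᴴ * X) (Uᴴ * Y)
    (by
      rw [Matrix.conjTranspose_mul, Matrix.conjTranspose_conjTranspose]
      calc Xᴴ * U * (Uᴴ * X) = Xᴴ * (U * Uᴴ) * X := by simp only [Matrix.mul_assoc]
        _ = 1 := by rw [hUU', Matrix.mul_one, hX])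
    (by
      rw [Matrix.conjTranspose_mul, Matrix.conjTranspose_conjTranspose]
      calc Yᴴ * U * (Uᴴ * Y) = Yᴴ * (U * Uᴴ) * Y := by simp only [Matrix.mul_assoc]
        _ = 1 := by rw [hUU', Matrix.mul_one, hY])
  rw [k1 A hA0, k1 B hB0, k2 A hA0, k2 B hB0] at hmain
  have hfin : (Uᴴ * X)ᴴ * (Uᴴ * A ^ p * U * (Uᴴ * B ^ q * U) + Uᴴ * B ^ p * U * (Uᴴ * A ^ q * U)) *
      (Uᴴ * Y) = Xᴴ * (A ^ p * B ^ q + B ^ p * A ^ q) * Y := by
    have e1 : ∀ C D : Matrix (Fin n) (Fin n) ℂ, Uᴴ * C * U * (Uᴴ * D * U) = Uᴴ * (C * D) * U := by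
      intro C D
      calc Uᴴ * C * U * (Uᴴ * D * U) = Uᴴ * C * (U * Uᴴ) * D * U := by
            simp only [Matrix.mul_assoc]
        _ = _ := by rw [hUU', Matrix.mul_one]; simp only [Matrix.mul_assoc]
    rw [e1, e1, ← Matrix.add_mul, ← Matrix.mul_add, Matrix.conjTranspose_mul,
      Matrix.conjTranspose_conjTranspose]
    calc Xᴴ * U * (Uᴴ * (A ^ p * B ^ q + B ^ p * A ^ q) * U) * (Uᴴ * Y)
        = Xᴴ * (U * Uᴴ) * (A ^ p * B ^ q + B ^ p * A ^ q) * (U * Uᴴ) * Y := by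
          simp only [Matrix.mul_assoc]
      _ = _ := by rw [hUU', Matrix.mul_one, Matrix.mul_one]
  rw [hfin] at hmain
  exact hmain

/-- M4 -/
theorem frames_bound {n k : ℕ} (A B : Matrix (Fin n) (Fin n) ℂ) (hA : A.PosSemidef)
    (hB : B.PosSemidef) (p q : ℝ) (hp : 0 < p) (hq : 0 < q) (hpq : min p q / (p + q) ≤ 1 / 4)
    (σ : Fin n → ℝ) (hσ : Antitone σ) (U : Matrix (Fin n) (Fin n) ℂ)
    (hU : U ∈ Matrix.unitaryGroup (Fin n) ℂ)
    (hS : A ^ (p + q) + B ^ (p + q) = U * Matrix.diagonal (fun i => ((σ i : ℝ) : ℂ)) * Uᴴ)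
    (hpos : ∀ j : Fin n, (j : ℕ) < k → 0 < σ j)
    (hratio : ∀ i j : Fin n, (j : ℕ) < k →
      σ i ^ (min p q / (p + q)) ≤ 5 / 4 * σ j ^ (min p q / (p + q)))
    (X Y : Matrix (Fin n) (Fin k) ℂ) (hX : Xᴴ * X = 1) (hY : Yᴴ * Y = 1) :
    ‖Matrix.trace (Xᴴ * (A ^ p * B ^ q + B ^ p * A ^ q) * Y)‖
      ≤ ∑ j : Fin n, (if (j : ℕ) < k then σ j else 0) := by
  rcases le_total p q with hle | hle
  · rw [min_eq_left hle] at hpq hratio
    exact frames_bound_main A B hA hB p q hp hq hpq σ hσ U hU hS hpos hratio X Y hX hY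
  · rw [min_eq_right hle, add_comm p q] at hpq hratio
    rw [add_comm p q] at hS
    have h1 := frames_bound_main A B hA hB q p hq hp hpq σ hσ U hU hS hpos hratio Y X hY hX
    have h2 : (Xᴴ * (A ^ p * B ^ q + B ^ p * A ^ q) * Y)ᴴ =
        Yᴴ * (A ^ q * B ^ p + B ^ q * A ^ p) * X := by
      rw [Matrix.conjTranspose_mul, Matrix.conjTranspose_mul, Matrix.conjTranspose_add,
        Matrix.conjTranspose_mul, Matrix.conjTranspose_mul, Matrix.conjTranspose_conjTranspose,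
        (frames_bound_psd A p).1.eq, (frames_bound_psd A q).1.eq, (frames_bound_psd B p).1.eq,
        (frames_bound_psd B q).1.eq, add_comm (B ^ q * A ^ p), Matrix.mul_assoc]
    rw [← norm_star, ← Matrix.trace_conjTranspose, h2]
    exact h1

end S_frames_bound

section S_weak_maj_hull

open scoped ComplexOrder
open Matrix
theorem d1_tele (W : ℕ → ℝ) (i m : ℕ) :
    ∑ k ∈ Finset.range m, (if i < k + 1 then (W k - W (k + 1)) else 0)
      = if i < m then W i - W m else 0 := by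
  induction m with
  | zero => simp
  | succ m ih =>
    rw [Finset.sum_range_succ, ih]
    rcases lt_trichotomy i m with h | h | h
    · rw [if_pos h, if_pos (by omega), if_pos (by omega)]; ring
    · subst h
      simp
    · rw [if_neg (by omega), if_neg (by omega), if_neg (by omega)]; ring

theorem d1_abel {n : ℕ} (W s : Fin n → ℝ) :
    ∑ i, W i * s i = ∑ k ∈ Finset.range n,
      ((if h : k < n then W ⟨k, h⟩ else 0) - (if h : k + 1 < n then W ⟨k + 1, h⟩ else 0)) *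
        ∑ j : Fin n, (if (j : ℕ) < k + 1 then s j else 0) := by
  set W' : ℕ → ℝ := fun k => if h : k < n then W ⟨k, h⟩ else 0 with hW'
  have h1 : ∀ i : Fin n, W i = ∑ k ∈ Finset.range n,
      (if (i : ℕ) < k + 1 then (W' k - W' (k + 1)) else 0) := by
    intro i
    rw [d1_tele W' i n, if_pos i.2]
    simp [hW']
  have h2 : ∀ i : Fin n, W i * s i = ∑ k ∈ Finset.range n,
      (W' k - W' (k + 1)) * (if (i : ℕ) < k + 1 then s i else 0) := by
    intro i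
    conv_lhs => rw [h1 i]
    rw [Finset.sum_mul]
    refine Finset.sum_congr rfl fun k _ => ?_
    split_ifs <;> ring
  calc ∑ i, W i * s i = ∑ i : Fin n, ∑ k ∈ Finset.range n,
      (W' k - W' (k + 1)) * (if (i : ℕ) < k + 1 then s i else 0) :=
        Finset.sum_congr rfl fun i _ => h2 i
    _ = ∑ k ∈ Finset.range n, ∑ i : Fin n,
      ((W' k - W' (k + 1)) * (if (i : ℕ) < k + 1 then s i else 0)) := Finset.sum_comm
    _ = _ := by
      refine Finset.sum_congr rfl fun k _ => ?_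
      rw [Finset.mul_sum]

theorem d1_ineq {n : ℕ} (W s σ : Fin n → ℝ) (hW0 : ∀ i, 0 ≤ W i) (hW : Antitone W)
    (h : ∀ k : ℕ, k ≤ n → ∑ j : Fin n, (if (j : ℕ) < k then s j else 0)
      ≤ ∑ j : Fin n, (if (j : ℕ) < k then σ j else 0)) :
    ∑ i, W i * s i ≤ ∑ i, W i * σ i := by
  rw [d1_abel W s, d1_abel W σ]
  refine Finset.sum_le_sum fun k hk => ?_
  have hk' : k < n := Finset.mem_range.mp hk
  refine mul_le_mul_of_nonneg_left (h (k + 1) hk') ?_
  rw [dif_pos hk']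
  split_ifs with h2
  · rw [sub_nonneg]
    apply hW
    show k ≤ k + 1
    omega
  · rw [sub_zero]; exact hW0 _

/-- D1 -/
theorem weak_maj_hull {n : ℕ} (s σ : Fin n → ℝ) (hs0 : ∀ i, 0 ≤ s i) (hs : Antitone s)
    (hσ0 : ∀ i, 0 ≤ σ i) (hσ : Antitone σ)
    (h : ∀ k : ℕ, k ≤ n → ∑ j : Fin n, (if (j : ℕ) < k then s j else 0)
      ≤ ∑ j : Fin n, (if (j : ℕ) < k then σ j else 0)) :
    s ∈ convexHull ℝ {v : Fin n → ℝ | ∃ (π : Equiv.Perm (Fin n)) (ε : Fin n → ℝ),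
      (∀ i, ε i = 1 ∨ ε i = -1) ∧ v = fun i => ε i * σ (π i)} := by
  by_contra hcon
  set S : Set (Fin n → ℝ) := {v : Fin n → ℝ | ∃ (π : Equiv.Perm (Fin n)) (ε : Fin n → ℝ),
      (∀ i, ε i = 1 ∨ ε i = -1) ∧ v = fun i => ε i * σ (π i)} with hS
  have hfin : S.Finite := by
    refine Set.Finite.subset (Set.finite_range (fun p : Equiv.Perm (Fin n) × (Fin n → Bool) =>
      (fun i => (if p.2 i then (1 : ℝ) else -1) * σ (p.1 i) : Fin n → ℝ))) ?_
    rintro v ⟨π, ε, hε, rfl⟩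
    refine ⟨(π, fun i => decide (ε i = 1)), ?_⟩
    funext i
    rcases hε i with h1 | h1
    · simp [h1]
    · have h2 : ¬ ((-1 : ℝ) = 1) := by norm_num
      simp [h1, h2]
  have hcl : IsClosed (convexHull ℝ S) := hfin.isClosed_convexHull ℝ
  obtain ⟨f, u, hf, hu⟩ := geometric_hahn_banach_closed_point (convex_convexHull ℝ S) hcl hcon
  set w : Fin n → ℝ := fun i => f (Pi.single i 1) with hw
  have hfv : ∀ v : Fin n → ℝ, f v = ∑ i, w i * v i := by
    intro v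
    have h1 : v = ∑ i, v i • (Pi.single i (1 : ℝ) : Fin n → ℝ) := by
      funext j
      simp [Finset.sum_apply, Pi.single_apply]
    conv_lhs => rw [h1]
    rw [map_sum]
    refine Finset.sum_congr rfl fun i _ => ?_
    rw [map_smul, smul_eq_mul, mul_comm]
  set τ : Equiv.Perm (Fin n) := Tuple.sort (fun i => - |w i|) with hτ
  have hmono : Monotone ((fun i => - |w i|) ∘ τ) := Tuple.monotone_sort _
  have hanti : Antitone (fun i => |w (τ i)|) := by
    intro a b hab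
    have := hmono hab
    simp only [Function.comp] at this
    show |w (τ b)| ≤ |w (τ a)|
    linarith
  have hA : ∑ i, w i * s i ≤ ∑ i, |w (τ i)| * s i := by
    have h1 : ∑ i, w i * s i ≤ ∑ i, s i * |w i| := by
      refine Finset.sum_le_sum fun i _ => ?_
      have := le_abs_self (w i)
      nlinarith [hs0 i]
    have h2 : Monovary s (fun i => |w (τ i)|) := hs.monovary hanti
    have h3 := h2.sum_mul_comp_perm_le_sum_mul (σ := τ⁻¹)
    have h4 : ∀ i, τ (τ⁻¹ i) = i := fun i => by simp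
    simp only [h4] at h3
    refine h1.trans (h3.trans (le_of_eq ?_))
    exact Finset.sum_congr rfl fun i _ => mul_comm _ _
  have hB : ∑ i, |w (τ i)| * s i ≤ ∑ i, |w (τ i)| * σ i :=
    d1_ineq (fun i => |w (τ i)|) s σ (fun i => abs_nonneg _) hanti h
  set v : Fin n → ℝ := fun i => (if 0 ≤ w i then (1 : ℝ) else -1) * σ (τ⁻¹ i) with hv
  have hvS : v ∈ S := by
    refine ⟨τ⁻¹, fun i => if 0 ≤ w i then (1 : ℝ) else -1, fun i => ?_, rfl⟩
    by_cases h0 : 0 ≤ w i <;> simp [h0]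
  have hfvv : f v = ∑ i, |w (τ i)| * σ i := by
    rw [hfv, ← Equiv.sum_comp τ]
    refine Finset.sum_congr rfl fun i _ => ?_
    have h4 : τ⁻¹ (τ i) = i := by simp
    rw [hv]
    simp only [h4]
    by_cases h0 : 0 ≤ w (τ i)
    · rw [if_pos h0, abs_of_nonneg h0, one_mul]
    · rw [if_neg h0, abs_of_neg (not_le.mp h0)]; ring
  have h5 := hf v (subset_convexHull ℝ S hvS)
  have h6 := hfv s
  linarith

end S_weak_maj_hull

section S_ui_norm_le

open scoped ComplexOrder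
open Matrix
theorem unl_perm {n : ℕ} (π : Equiv.Perm (Fin n)) :
    (1 : Matrix (Fin n) (Fin n) ℂ).submatrix π id ∈ Matrix.unitaryGroup (Fin n) ℂ := by
  rw [Matrix.mem_unitaryGroup_iff]
  ext i k
  rw [Matrix.mul_apply]
  simp only [Matrix.submatrix_apply, Matrix.star_apply, Matrix.one_apply, id]
  rw [Finset.sum_eq_single (π i)]
  · by_cases h : i = k
    · subst h
      simp
    · have h2 : π k ≠ π i := fun h3 => h (π.injective h3).symm
      simp [h, h2]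
  · intro j _ hj
    rw [if_neg (Ne.symm hj), zero_mul]
  · intro h
    exact absurd (Finset.mem_univ _) h

theorem unl_diag {n : ℕ} (ε : Fin n → ℝ) (hε : ∀ i, ε i = 1 ∨ ε i = -1) :
    Matrix.diagonal (fun i => ((ε i : ℝ) : ℂ)) ∈ Matrix.unitaryGroup (Fin n) ℂ := by
  rw [Matrix.mem_unitaryGroup_iff, Matrix.star_eq_conjTranspose, Matrix.diagonal_conjTranspose,
    Matrix.diagonal_mul_diagonal, ← Matrix.diagonal_one]
  congr 1
  funext i
  rcases hε i with h | h <;> simp [h]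

theorem unl_eq {n : ℕ} (π : Equiv.Perm (Fin n)) (ε σ : Fin n → ℝ) :
    Matrix.diagonal (fun i => ((ε i * σ (π i) : ℝ) : ℂ)) =
      (Matrix.diagonal (fun i => ((ε i : ℝ) : ℂ)) * (1 : Matrix (Fin n) (Fin n) ℂ).submatrix π id) *
        Matrix.diagonal (fun i => ((σ i : ℝ) : ℂ)) * star ((1 : Matrix (Fin n) (Fin n) ℂ).submatrix π id) := by
  ext i k
  rw [Matrix.mul_apply]
  simp only [Matrix.mul_diagonal, Matrix.diagonal_mul, Matrix.submatrix_apply, Matrix.star_apply,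
    Matrix.one_apply, id]
  rw [Finset.sum_eq_single (π i)]
  · by_cases h : i = k
    · subst h
      simp
    · have h2 : π k ≠ π i := fun h3 => h (π.injective h3).symm
      simp [Matrix.diagonal_apply_ne _ h, h2]
  · intro j _ hj
    rw [if_neg (Ne.symm hj)]
    simp
  · intro h
    exact absurd (Finset.mem_univ _) h

/-- D2 -/
theorem ui_norm_le {n : ℕ} (N : Matrix (Fin n) (Fin n) ℂ → ℝ)
    (hN2 : ∀ (c : ℂ) (X : Matrix (Fin n) (Fin n) ℂ), N (c • X) = ‖c‖ * N X)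
    (hN3 : ∀ X Y, N (X + Y) ≤ N X + N Y)
    (hN4 : ∀ U ∈ Matrix.unitaryGroup (Fin n) ℂ, ∀ V ∈ Matrix.unitaryGroup (Fin n) ℂ,
        ∀ X, N (U * X * V) = N X)
    (s σ : Fin n → ℝ) (f S W V U : Matrix (Fin n) (Fin n) ℂ)
    (hW : W ∈ Matrix.unitaryGroup (Fin n) ℂ) (hV : V ∈ Matrix.unitaryGroup (Fin n) ℂ)
    (hU : U ∈ Matrix.unitaryGroup (Fin n) ℂ)
    (hf : f = W * Matrix.diagonal (fun i => ((s i : ℝ) : ℂ)) * V)
    (hS : S = U * Matrix.diagonal (fun i => ((σ i : ℝ) : ℂ)) * Uᴴ)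
    (hull : s ∈ convexHull ℝ {v : Fin n → ℝ | ∃ (π : Equiv.Perm (Fin n)) (ε : Fin n → ℝ),
      (∀ i, ε i = 1 ∨ ε i = -1) ∧ v = fun i => ε i * σ (π i)}) :
    N f ≤ N S := by
  have hsU : Uᴴ ∈ Matrix.unitaryGroup (Fin n) ℂ := Unitary.star_mem hU
  rw [hf, hS, hN4 W hW V hV, hN4 U hU Uᴴ hsU]
  have hmin : convexHull ℝ {v : Fin n → ℝ | ∃ (π : Equiv.Perm (Fin n)) (ε : Fin n → ℝ),
      (∀ i, ε i = 1 ∨ ε i = -1) ∧ v = fun i => ε i * σ (π i)} ⊆
      {v : Fin n → ℝ | N (Matrix.diagonal (fun i => ((v i : ℝ) : ℂ))) ≤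
        N (Matrix.diagonal (fun i => ((σ i : ℝ) : ℂ)))} := by
    refine convexHull_min ?_ ?_
    · rintro v ⟨π, ε, hε, rfl⟩
      show N (Matrix.diagonal (fun i => ((ε i * σ (π i) : ℝ) : ℂ))) ≤ _
      rw [unl_eq, hN4 _ (mul_mem (unl_diag ε hε) (unl_perm π)) _ (Unitary.star_mem (unl_perm π))]
    · intro v hv w hw a b ha hb hab
      have e : Matrix.diagonal (fun i => (((a • v + b • w) i : ℝ) : ℂ)) =
          (a : ℂ) • Matrix.diagonal (fun i => ((v i : ℝ) : ℂ)) + (b : ℂ) • Matrix.diagonal (fun i => ((w i : ℝ) : ℂ)) := by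
        ext i k
        by_cases h : i = k
        · subst h
          simp
        · simp [h]
      show N (Matrix.diagonal (fun i => (((a • v + b • w) i : ℝ) : ℂ))) ≤ _
      rw [e]
      refine (hN3 _ _).trans ?_
      rw [hN2, hN2, Complex.norm_real, Complex.norm_real, Real.norm_of_nonneg ha, Real.norm_of_nonneg hb]
      have h1 := mul_le_mul_of_nonneg_left hv ha
      have h2 := mul_le_mul_of_nonneg_left hw hb
      refine (add_le_add h1 h2).trans (le_of_eq ?_)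
      rw [← add_mul, hab, one_mul]
  exact hmin hull

end S_ui_norm_le

section S_svd_antitone

open scoped ComplexOrder
open Matrix
/-- D3 -/
theorem svd_antitone {n : ℕ} (f : Matrix (Fin n) (Fin n) ℂ) :
    ∃ (s : Fin n → ℝ) (W V : Matrix (Fin n) (Fin n) ℂ), (∀ i, 0 ≤ s i) ∧ Antitone s ∧
      W ∈ Matrix.unitaryGroup (Fin n) ℂ ∧ V ∈ Matrix.unitaryGroup (Fin n) ℂ ∧
      f = W * Matrix.diagonal (fun i => ((s i : ℝ) : ℂ)) * V := by
  classical
  have hH : (fᴴ * f).IsHermitian := Matrix.isHermitian_conjTranspose_mul_self f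
  have hP : (fᴴ * f).PosSemidef := Matrix.posSemidef_conjTranspose_mul_self f
  have hμ0 : ∀ i, 0 ≤ hH.eigenvalues i := hP.eigenvalues_nonneg
  obtain ⟨σ, hσ⟩ : ∃ σ : Equiv.Perm (Fin n), Monotone ((fun i => - hH.eigenvalues i) ∘ σ) :=
    ⟨Tuple.sort _, Tuple.monotone_sort _⟩
  have hcol : ∀ (c : OrthonormalBasis (Fin n) ℂ (EuclideanSpace ℂ (Fin n))),
      (Matrix.of (fun i j => (c j) i))ᴴ * (Matrix.of (fun i j => (c j) i)) =
        (1 : Matrix (Fin n) (Fin n) ℂ) := by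
    intro c
    ext i j
    rw [Matrix.mul_apply]
    have h := orthonormal_iff_ite.mp c.orthonormal i j
    rw [PiLp.inner_apply] at h
    simp only [Matrix.conjTranspose_apply, Matrix.of_apply, Matrix.one_apply]
    rw [← h]
    apply Finset.sum_congr rfl
    intro k _
    simp [RCLike.inner_apply, mul_comm]
  let b : OrthonormalBasis (Fin n) ℂ (EuclideanSpace ℂ (Fin n)) := hH.eigenvectorBasis.reindex σ.symm
  have hb : ∀ j, b j = hH.eigenvectorBasis (σ j) := by intro j; simp [b]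
  obtain ⟨V0, hV0d⟩ : ∃ V0 : Matrix (Fin n) (Fin n) ℂ, V0 = Matrix.of (fun i j => (b j) i) := ⟨_, rfl⟩
  have hV0 : V0ᴴ * V0 = 1 := by rw [hV0d]; exact hcol b
  have hV0' : V0 * V0ᴴ = 1 := mul_eq_one_comm.mp hV0
  have heig : (fᴴ * f) * V0 = V0 * Matrix.diagonal (fun j => ((hH.eigenvalues (σ j) : ℝ) : ℂ)) := by
    ext i j
    have h := congrFun (hH.mulVec_eigenvectorBasis (σ j)) i
    rw [Matrix.mul_diagonal, hV0d]
    simp only [Matrix.of_apply, hb]
    rw [Matrix.mul_apply]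
    simp only [Matrix.mulVec, dotProduct, Pi.smul_apply, Complex.real_smul] at h
    simp only [Matrix.of_apply, hb]
    rw [h]; ring
  obtain ⟨M, hM⟩ : ∃ M : Matrix (Fin n) (Fin n) ℂ, M = f * V0 := ⟨_, rfl⟩
  have hMM : Mᴴ * M = Matrix.diagonal (fun j => ((hH.eigenvalues (σ j) : ℝ) : ℂ)) := by
    rw [hM, Matrix.conjTranspose_mul, Matrix.mul_assoc, ← Matrix.mul_assoc fᴴ, heig,
      ← Matrix.mul_assoc, hV0, Matrix.one_mul]
  obtain ⟨s, hs⟩ : ∃ s : Fin n → ℝ, s = fun j => Real.sqrt (hH.eigenvalues (σ j)) := ⟨_, rfl⟩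
  have hs0 : ∀ j, 0 ≤ s j := by intro j; rw [hs]; exact Real.sqrt_nonneg _
  have hs2 : ∀ j, s j * s j = hH.eigenvalues (σ j) := by
    intro j; rw [hs]; exact Real.mul_self_sqrt (hμ0 _)
  have hanti : Antitone s := by
    intro i j hij
    rw [hs]
    apply Real.sqrt_le_sqrt
    have := hσ hij
    simp only [Function.comp_apply, neg_le_neg_iff] at this
    exact this
  let w : Fin n → EuclideanSpace ℂ (Fin n) := fun j => WithLp.toLp 2 (fun i => M i j)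
  have hw : ∀ i j, inner ℂ (w i) (w j) = if i = j then ((s j * s j : ℝ) : ℂ) else 0 := by
    intro i j
    have h := congrFun (congrFun hMM i) j
    rw [Matrix.mul_apply, Matrix.diagonal_apply] at h
    rw [PiLp.inner_apply]
    have e : ∀ k, inner ℂ ((w i) k) ((w j) k) = Mᴴ i k * M k j := by
      intro k
      simp [w, RCLike.inner_apply, Matrix.conjTranspose_apply, mul_comm]
    simp only [e]
    rw [h]
    split_ifs with hij
    · subst hij; rw [hs2]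
    · rfl
  let v : Fin n → EuclideanSpace ℂ (Fin n) := fun j => (((s j)⁻¹ : ℝ) : ℂ) • w j
  have hv : Orthonormal ℂ (({j | s j ≠ 0} : Set (Fin n)).domRestrict v) := by
    rw [orthonormal_iff_ite]
    rintro ⟨i, hi⟩ ⟨j, hj⟩
    show inner ℂ (v i) (v j) = _
    simp only [v, inner_smul_left, inner_smul_right, hw, Complex.conj_ofReal,
      Subtype.mk.injEq]
    split_ifs with hij
    · subst hij
      have : s i ≠ 0 := hi
      rw [← Complex.ofReal_mul, ← Complex.ofReal_mul]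
      have h1 : (s i)⁻¹ * ((s i)⁻¹ * (s i * s i)) = 1 := by field_simp
      rw [h1]; simp
    · simp
  obtain ⟨c, hc⟩ := hv.exists_orthonormalBasis_extension_of_card_eq (by simp)
  obtain ⟨W, hWd⟩ : ∃ W : Matrix (Fin n) (Fin n) ℂ, W = Matrix.of (fun i j => (c j) i) := ⟨_, rfl⟩
  have hW : Wᴴ * W = 1 := by rw [hWd]; exact hcol c
  have hMW : M = W * Matrix.diagonal (fun i => ((s i : ℝ) : ℂ)) := by
    ext i j
    rw [Matrix.mul_diagonal, hWd]
    simp only [Matrix.of_apply]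
    by_cases hj : s j = 0
    · have h0 := hw j j
      rw [if_pos rfl, hj] at h0
      have h1 : w j = 0 := by
        rw [← inner_self_eq_zero (𝕜 := ℂ)]
        rw [h0]; simp
      have h2 : (w j) i = 0 := by rw [h1]; rfl
      rw [hj]
      simp only [w] at h2
      simpa using h2
    · rw [hc j hj]
      have : (v j) i = (((s j)⁻¹ : ℝ) : ℂ) * M i j := by simp [v, w]
      rw [this]
      have hsj : ((s j : ℝ) : ℂ) ≠ 0 := by exact_mod_cast hj
      push_cast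
      field_simp
  refine ⟨s, W, V0ᴴ, hs0, hanti, ?_, ?_, ?_⟩
  · rw [Matrix.mem_unitaryGroup_iff']; exact hW
  · rw [Matrix.mem_unitaryGroup_iff]
    rw [Matrix.star_eq_conjTranspose, Matrix.conjTranspose_conjTranspose]; exact hV0
  · rw [← hMW, hM, Matrix.mul_assoc, hV0', Matrix.mul_one]

end S_svd_antitone

section S_result

open scoped ComplexOrder MatrixOrder
open Matrix
section Mat

open scoped Matrix.Norms.L2Operator

/-- the spectral power of a PSD matrix is the power of the continuous functional calculus -/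
theorem matrix_rpow_eq {n : ℕ} (A : Matrix (Fin n) (Fin n) ℂ) (hA : A.PosSemidef) (p : ℝ)
    (hp : 0 < p) :
    (hA.isHermitian.eigenvectorUnitary : Matrix (Fin n) (Fin n) ℂ)
            * Matrix.diagonal (fun i => Complex.ofReal (hA.isHermitian.eigenvalues i ^ p))
            * star (hA.isHermitian.eigenvectorUnitary : Matrix (Fin n) (Fin n) ℂ) = A ^ p := by
  have h1 : A ^ p = cfc (fun x : ℝ => x ^ p) A :=
    CFC.rpow_eq_cfc_real (a := A) (y := p) (Matrix.nonneg_iff_posSemidef.mpr hA)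
  rw [h1, hA.isHermitian.cfc_eq, Matrix.IsHermitian.cfc, Unitary.conjStarAlgAut_apply]
  rfl

end Mat

/-- The power `A ^ r` of a positive semidefinite matrix `A` defined by the spectral theorem: the
eigenvalues are raised to the power `r` in an orthonormal eigenbasis of `A` (this is literally the
expression used in the frozen statement). -/
noncomputable def specPow {n : ℕ} {A : Matrix (Fin n) (Fin n) ℂ} (hA : A.PosSemidef) (r : ℝ) :
    Matrix (Fin n) (Fin n) ℂ :=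
  (hA.isHermitian.eigenvectorUnitary : Matrix (Fin n) (Fin n) ℂ)
    * Matrix.diagonal (fun i => Complex.ofReal (hA.isHermitian.eigenvalues i ^ r))
    * star (hA.isHermitian.eigenvectorUnitary : Matrix (Fin n) (Fin n) ℂ)

section Aux

open scoped Matrix.Norms.L2Operator

theorem specPow_eq {n : ℕ} {A : Matrix (Fin n) (Fin n) ℂ} (hA : A.PosSemidef) (r : ℝ) (hr : 0 < r) :
    specPow hA r = A ^ r := matrix_rpow_eq A hA r hr

theorem sum_castLE {n k : ℕ} (hk : k ≤ n) (s : Fin n → ℝ) :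
    ∑ i : Fin k, s (Fin.castLE hk i) = ∑ j : Fin n, (if (j : ℕ) < k then s j else 0) := by
  rw [← Finset.sum_filter]
  apply Finset.sum_bij (fun (i : Fin k) _ => Fin.castLE hk i)
  · intro i _
    rw [Finset.mem_filter]
    exact ⟨Finset.mem_univ _, i.2⟩
  · intro i _ j _ h
    exact Fin.castLE_injective hk h
  · intro j hj
    rw [Finset.mem_filter] at hj
    exact ⟨⟨j, hj.2⟩, Finset.mem_univ _, rfl⟩
  · intro i _
    rfl

theorem first_aux {n k : ℕ} (hk : k ≤ n) (A B : Matrix (Fin n) (Fin n) ℂ) (hA : A.PosSemidef)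
    (hB : B.PosSemidef) (p q : ℝ) (hp : 0 < p) (hq : 0 < q) (hpq : min p q / (p + q) ≤ 1 / 4)
    (σ s : Fin n → ℝ) (U V W : Matrix (Fin n) (Fin n) ℂ) (hσ : Antitone σ)
    (hs0 : ∀ i, 0 ≤ s i) (hU : U ∈ Matrix.unitaryGroup (Fin n) ℂ)
    (hV : V ∈ Matrix.unitaryGroup (Fin n) ℂ) (hW : W ∈ Matrix.unitaryGroup (Fin n) ℂ)
    (hS : specPow hA (p + q) + specPow hB (p + q)
        = U * Matrix.diagonal (fun i => ((σ i : ℝ) : ℂ)) * Uᴴ)
    (hf : specPow hA p * specPow hB q + specPow hB p * specPow hA q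
        = W * Matrix.diagonal (fun i => ((s i : ℝ) : ℂ)) * V)
    (hpos : ∀ j : Fin n, (j : ℕ) < k → 0 < σ j)
    (hratio : ∀ i j : Fin n, (j : ℕ) < k →
      σ i ^ (min p q / (p + q)) ≤ 5 / 4 * σ j ^ (min p q / (p + q))) :
    ∑ j : Fin n, (if (j : ℕ) < k then s j else 0)
        ≤ ∑ j : Fin n, (if (j : ℕ) < k then σ j else 0) := by
  rw [specPow_eq hA _ (by linarith), specPow_eq hB _ (by linarith)] at hS
  rw [specPow_eq hA _ hp, specPow_eq hB _ hp, specPow_eq hA _ hq, specPow_eq hB _ hq] at hf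
  have hWW : Wᴴ * W = 1 := Matrix.mem_unitaryGroup_iff'.mp hW
  have hVV : V * Vᴴ = 1 := Matrix.mem_unitaryGroup_iff.mp hV
  set c : Fin k → Fin n := Fin.castLE hk with hc
  have hcinj : Function.Injective c := Fin.castLE_injective hk
  set X : Matrix (Fin n) (Fin k) ℂ := W.submatrix id c with hX
  set Y : Matrix (Fin n) (Fin k) ℂ := (Vᴴ).submatrix id c with hY
  have hXH : Xᴴ = (Wᴴ).submatrix c id := by rw [hX, Matrix.conjTranspose_submatrix]
  have hYH : Yᴴ = V.submatrix c id := by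
    rw [hY, Matrix.conjTranspose_submatrix, Matrix.conjTranspose_conjTranspose]
  have hXX : Xᴴ * X = 1 := by
    rw [hXH, hX, ← Matrix.submatrix_mul _ _ c id c Function.bijective_id, hWW,
      Matrix.submatrix_one _ hcinj]
  have hYY : Yᴴ * Y = 1 := by
    rw [hYH, hY, ← Matrix.submatrix_mul _ _ c id c Function.bijective_id, hVV,
      Matrix.submatrix_one _ hcinj]
  have hb := frames_bound (k := k) A B hA hB p q hp hq hpq σ hσ U hU hS hpos hratio X Y hXX hYY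
  have htr : Xᴴ * (A ^ p * B ^ q + B ^ p * A ^ q) * Y =
      (Matrix.diagonal (fun i => ((s i : ℝ) : ℂ))).submatrix c c := by
    rw [hf, hXH, hY]
    have h1 : (Wᴴ).submatrix c id * (W * Matrix.diagonal (fun i => ((s i : ℝ) : ℂ)) * V) =
        (Wᴴ * (W * Matrix.diagonal (fun i => ((s i : ℝ) : ℂ)) * V)).submatrix c id := by
      rw [Matrix.submatrix_mul _ _ c id id Function.bijective_id, Matrix.submatrix_id_id]
    rw [h1, ← Matrix.submatrix_mul _ _ c id c Function.bijective_id]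
    congr 1
    calc Wᴴ * (W * Matrix.diagonal (fun i => ((s i : ℝ) : ℂ)) * V) * Vᴴ
        = (Wᴴ * W) * Matrix.diagonal (fun i => ((s i : ℝ) : ℂ)) * (V * Vᴴ) := by
          simp only [Matrix.mul_assoc]
      _ = _ := by rw [hWW, hVV, Matrix.one_mul, Matrix.mul_one]
  rw [htr] at hb
  have htr2 : Matrix.trace ((Matrix.diagonal (fun i => ((s i : ℝ) : ℂ))).submatrix c c) =
      ((∑ i : Fin k, s (c i) : ℝ) : ℂ) := by
    rw [Matrix.trace, Complex.ofReal_sum]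
    refine Finset.sum_congr rfl fun i _ => ?_
    simp
  rw [htr2, Complex.norm_real, Real.norm_eq_abs,
    abs_of_nonneg (Finset.sum_nonneg fun i _ => hs0 (c i)), sum_castLE hk s] at hb
  exact hb

end Aux

/-- TARGET -/
theorem result :
    (∀ (n : ℕ) (A B : Matrix (Fin n) (Fin n) ℂ) (hA : A.PosSemidef) (hB : B.PosSemidef)
      (p q : ℝ), 0 < p → 0 < q → min p q / (p + q) ≤ 1 / 4 →
      ∀ (σ s : Fin n → ℝ) (U V W : Matrix (Fin n) (Fin n) ℂ),
      Antitone σ → Antitone s → (∀ i, 0 ≤ s i) →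
      U ∈ Matrix.unitaryGroup (Fin n) ℂ → V ∈ Matrix.unitaryGroup (Fin n) ℂ →
      W ∈ Matrix.unitaryGroup (Fin n) ℂ →
      specPow hA (p + q) + specPow hB (p + q)
        = U * Matrix.diagonal (fun i => ((σ i : ℝ) : ℂ)) * Uᴴ →
      specPow hA p * specPow hB q + specPow hB p * specPow hA q
        = W * Matrix.diagonal (fun i => ((s i : ℝ) : ℂ)) * V →
      ∀ k : ℕ, k ≤ n → (∀ j : Fin n, (j : ℕ) < k → 0 < σ j) →
      (∀ i j : Fin n, (j : ℕ) < k →
        σ i ^ (min p q / (p + q)) ≤ 5 / 4 * σ j ^ (min p q / (p + q))) →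
      ∑ j : Fin n, (if (j : ℕ) < k then s j else 0)
        ≤ ∑ j : Fin n, (if (j : ℕ) < k then σ j else 0)) ∧
    (∀ (n : ℕ) (A B : Matrix (Fin n) (Fin n) ℂ) (hA : A.PosSemidef) (hB : B.PosSemidef)
      (p q : ℝ), 0 < p → 0 < q → min p q / (p + q) ≤ 1 / 4 →
      ∀ (σ : Fin n → ℝ) (U : Matrix (Fin n) (Fin n) ℂ), Antitone σ →
      U ∈ Matrix.unitaryGroup (Fin n) ℂ →
      specPow hA (p + q) + specPow hB (p + q)
        = U * Matrix.diagonal (fun i => ((σ i : ℝ) : ℂ)) * Uᴴ →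
      (∀ i, 0 < σ i) →
      (∀ i j, σ i ^ (min p q / (p + q)) ≤ 5 / 4 * σ j ^ (min p q / (p + q))) →
      ∀ N : Matrix (Fin n) (Fin n) ℂ → ℝ,
      (∀ X, N X = 0 → X = 0) →
      (∀ (c : ℂ) (X : Matrix (Fin n) (Fin n) ℂ), N (c • X) = ‖c‖ * N X) →
      (∀ X Y, N (X + Y) ≤ N X + N Y) →
      (∀ U ∈ Matrix.unitaryGroup (Fin n) ℂ, ∀ V ∈ Matrix.unitaryGroup (Fin n) ℂ,
        ∀ X, N (U * X * V) = N X) →
      N (specPow hA p * specPow hB q + specPow hB p * specPow hA q)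
        ≤ N (specPow hA (p + q) + specPow hB (p + q))) := by
  constructor
  · intro n A B hA hB p q hp hq hpq σ s U V W hσ hs hs0 hU hV hW hS hf k hk hpos hratio
    exact first_aux hk A B hA hB p q hp hq hpq σ s U V W hσ hs0 hU hV hW hS hf hpos hratio
  · intro n A B hA hB p q hp hq hpq σ U hσ hU hS hpos hratio N hN1 hN2 hN3 hN4
    obtain ⟨s, W, V, hs0, hs, hW, hV, hf⟩ :=
      svd_antitone (specPow hA p * specPow hB q + specPow hB p * specPow hA q)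
    have hull := weak_maj_hull s σ hs0 hs (fun i => (hpos i).le) hσ (fun k hk =>
      first_aux hk A B hA hB p q hp hq hpq σ s U V W hσ hs0 hU hV hW hS hf
        (fun j _ => hpos j) (fun i j _ => hratio i j))
    exact ui_norm_le N hN2 hN3 hN4 s σ _ _ W V U hW hV hU hf hS hull

end S_result

end Pool.Agent.Results.MP_4777ae_an.WellConditioned
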